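import Pool.Agent.T9h3.LN.StepA2

/-!
# Project LN: the local data
-/

set_option autoImplicit false
set_option linter.unusedSectionVars false
set_option linter.unusedVariables false
set_option linter.overlappingInstances false

namespace Pool.Agent.T9h3.LN

open Pool.Agent.T9h3 Pool.Agent.T9h3.P Pool.Agent.T9h3.Q Pool.Agent.T9h3.R Pool.Agent.T9h3.H
open Pool.Agent.H918R2.Quad

/-- The decomposition group. -/
def DgS {E M : Type} [Field E] [Field M] [Algebra E M] (V : ValuationSubring E)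
    (𝔓 : Ideal (integralClosure V M)) : Set (M ≃ₐ[E] M) :=
  {g | ∀ o ∈ 𝔓, ∃ e ∈ 𝔓, (e : M) = g o}

lemma DgS_card {E M : Type} [Field E] [Field M] [Algebra E M] [FiniteDimensional E M]
    [IsGalois E M] {V : ValuationSubring E} [IsDedekindDomain V]
    [IsDedekindDomain (integralClosure V M)] {𝔓 : Ideal (integralClosure V M)}
    (h𝔓 : 𝔓.IsMaximal) :
    Nat.card (Dg (Tk V (integralClosure V M) E M) 𝔓) = Nat.card (DgS V 𝔓) := by
  have h1 : ((Dg (Tk V (integralClosure V M) E M) 𝔓 : Subgroup (M ≃ₐ[E] M)) :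
      Set (M ≃ₐ[E] M)) = DgS V 𝔓 := by
    ext g
    constructor
    · intro hg o ho
      exact ⟨Tk V (integralClosure V M) E M g o, (Dg_T hg).2 ho, Tk_coe V _ E M g o⟩
    · intro hg
      change mvI (Tr (Tk V (integralClosure V M) E M)) g 𝔓 = 𝔓
      have h2 : 𝔓 ≤ mvI (Tr (Tk V (integralClosure V M) E M)) g⁻¹ 𝔓 := by
        intro o ho
        obtain ⟨e, he, h3⟩ := hg o ho
        rw [mem_mvI, inv_inv]
        have h4 : Tk V (integralClosure V M) E M g o = e := by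
          apply Subtype.ext
          rw [h3]
          exact Tk_coe V _ E M g o
        rw [h4]
        exact he
      have h3 := h𝔓.eq_of_le (mvI_max h𝔓).ne_top h2
      rw [h3, ← mvI_mul, mul_inv_cancel, mvI_one, ← h3]
  exact congrArg (fun S : Set (M ≃ₐ[E] M) => Nat.card S) h1

/-- **The local data.** -/
theorem loc_all (hlat : S_Lat) (h90 : S_H90) (hloc : S_Loc) (hval : S_Val) (htame : S_Tame)
    (hglo : S_Glo2) (hloc3 : S_Loc3) {k E M F K : Type} [CommRing k] [IsDomain k]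
    [IsDedekindDomain k] [Field E] [Field M] [Field F] [Field K] [Algebra E F]
    [Algebra k E] [Algebra k F] [IsScalarTower k E F] [IsFractionRing k E]
    [Algebra E M] [FiniteDimensional E M] [IsGalois E M]
    [Algebra M K] [Algebra E K] [IsScalarTower E M K] [Algebra F K] [IsScalarTower E F K]
    {V : ValuationSubring E} {𝔭 : Ideal k} (hV : VP k V 𝔭)
    (hfin : Finite (k ⧸ 𝔭)) {ρ : (M ≃ₐ[E] M) →* (K ≃ₐ[E] K)}
    (hρ : ∀ g x, ρ g (algebraMap M K x) = algebraMap M K (g x))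
    (fix : ∀ y, (∀ g, ρ g y = y) ↔ ∃ z : F, algebraMap F K z = y)
    (hin : HIN E M (integralClosure V M)) {D₀ : CHL E M K} (hli : LinearIndependent M D₀.χ)
    (hgen : IntermediateField.adjoin M (Set.range D₀.χ) = ⊤) (hs : SML ρ D₀)
    {𝔓 : Ideal (integralClosure V M)} {r : ℕ} {w₀ : M ≃ₐ[E] M} (hw : WLD E M 𝔓 r w₀)
    (hD : ¬ r ^ 2 ∣ Nat.card (DgS V 𝔓)) : LOC F ρ 𝔭 D₀ := by
  classical
  have i1 := hV.ded
  have i2 := hV.dedO (M := M)
  rw [← DgS_card hw.1] at hD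
  choose γ hγ using hs
  have C : CST ρ D₀.χ γ := ⟨D₀.χ0, D₀.χa, hρ, hγ⟩
  obtain ⟨c, hcv⟩ : ∃ c : (M ≃ₐ[E] M) → D₀.Λ →+ Additive Mˣ,
      ∀ g x, (((c g x).toMul : Mˣ) : M) = γ g (g⁻¹ • x) := by
    refine ⟨fun g =>
      { toFun := fun x => Additive.ofMul (Units.mk0 (γ g (g⁻¹ • x)) (C.ne0 g _))
        map_zero' := ?_
        map_add' := ?_ }, fun g x => rfl⟩
    · apply Additive.toMul.injective
      apply Units.ext
      change γ g (g⁻¹ • 0) = 1
      rw [smul_zero, C.zero]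
    · intro x y
      apply Additive.toMul.injective
      apply Units.ext
      change γ g (g⁻¹ • (x + y)) = γ g (g⁻¹ • x) * γ g (g⁻¹ • y)
      rw [smul_add, C.add]
  have hc : ∀ g h x, c (g * h) x = c g x + uAct g (c h (g⁻¹ • x)) := by
    intro g h x
    apply Additive.toMul.injective
    apply Units.ext
    rw [toMul_add, Units.val_mul, uAct_val, hcv, hcv, hcv, C.mul, mul_inv_rev, mul_smul,
      smul_inv_smul, mul_comm]
    rfl
  obtain ⟨M', _, _, _, _, _, _, hin', A, hA1, hA2⟩ := stepA hlat h90 hloc hval htame hglo hV hfin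
    hin hw hD hc
  have conv : ∀ (g : M' ≃ₐ[E] M') (x : D₀.Λ) (u : M'),
      u = ((κu (algebraMap M M') (c (AlgEquiv.restrictNormalHom M g)
          (AlgEquiv.restrictNormalHom M g • x)) -
          (uAct g (A ((AlgEquiv.restrictNormalHom M g)⁻¹ • AlgEquiv.restrictNormalHom M g • x)) -
            A (AlgEquiv.restrictNormalHom M g • x))).toMul : M'ˣ) →
      g ((((A x).toMul : M'ˣ) : M')⁻¹) *
        algebraMap M M' (γ (AlgEquiv.restrictNormalHom M g) x) =
        u * (((A (AlgEquiv.restrictNormalHom M g • x)).toMul : M'ˣ) : M')⁻¹ := by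
    intro g x u hu
    rw [hu, toMul_sub, toMul_sub, Units.val_div_eq_div_val, Units.val_div_eq_div_val, κu_val, hcv,
      uAct_val, inv_smul_smul, map_inv₀]
    have h1 : g (((A x).toMul : M'ˣ) : M') ≠ 0 := by
      rw [Ne, map_eq_zero_iff g g.injective]
      exact Units.ne_zero _
    have h2 : (((A (AlgEquiv.restrictNormalHom M g • x)).toMul : M'ˣ) : M') ≠ 0 :=
      Units.ne_zero _
    have h3 : g • (((A x).toMul : M'ˣ) : M') = g (((A x).toMul : M'ˣ) : M') := rfl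
    rw [h3]
    field_simp
  refine hloc3 k E M M' F K V 𝔭 hV hfin ρ hρ fix D₀ hli hgen γ C hin'
    (fun x => (((A x).toMul : M'ˣ) : M')⁻¹) ?_ ?_ ?_ ?_
  · rw [map_zero, toMul_zero, Units.val_one, inv_one]
  · intro x y
    rw [map_add, toMul_add, Units.val_mul, mul_inv]
  · intro g x
    obtain ⟨u, hu⟩ := hA1 g (AlgEquiv.restrictNormalHom M g • x)
    exact ⟨u, conv g x _ hu⟩
  · intro 𝔔 p g hg l hl x
    obtain ⟨e, he, hu⟩ := hA2 𝔔 p g hg l hl (AlgEquiv.restrictNormalHom M g • x)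
    exact ⟨e, he, conv g x _ hu⟩

/-- **Torsors under tori over global fields.** -/
theorem glob_torsor' (hlat : S_Lat) (h90 : S_H90) (hloc : S_Loc) (hval : S_Val) (htame : S_Tame)
    (hglo : S_Glo2) (hloc3 : S_Loc3) {E M F K : Type} [Field E] [Field M] [Algebra E M]
    [FiniteDimensional E M]
    [IsGalois E M] [Field F] [Field K] [Algebra E F] [Algebra M K] [Algebra E K]
    [IsScalarTower E M K] [Algebra F K] [IsScalarTower E F K]
    {ρ : (M ≃ₐ[E] M) →* (K ≃ₐ[E] K)} (hE : IsGlob E)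
    (hin : ∀ V : ValuationSubring E, V ≠ ⊤ → HIN E M (integralClosure V M))
    (hρ : ∀ g x, ρ g (algebraMap M K x) = algebraMap M K (g x))
    (fix : ∀ y, (∀ g, ρ g y = y) ↔ ∃ z : F, algebraMap F K z = y)
    {D₀ : CHL E M K} (hli : LinearIndependent M D₀.χ)
    (hgen : IntermediateField.adjoin M (Set.range D₀.χ) = ⊤) (hs : SML ρ D₀)
    (hw : ∀ V : ValuationSubring E, V ≠ ⊤ → WRP M V → TRV ρ V D₀ ∨ NTR ρ V D₀ ∨
      ∀ (𝔓 : Ideal (integralClosure V M)) (r : ℕ), 𝔓.IsMaximal → r.Prime →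
        (r : integralClosure V M) ∈ 𝔓 → ¬ r ^ 2 ∣ Nat.card (DgS V 𝔓)) : MDL F := by
  refine loc_globW (D₀ := D₀) hE hρ fix hgen hs (f₀ := (Fin.elim0 : Fin 0 → AA M D₀.Λ)) ?_
    (B := ∅) Set.finite_empty (fun V hV _ => ⟨Fin.elim0, fun r => r.elim0, ?_⟩)
    (fun V hV => ?_)
  · intro P
    have h1 := hk_empty (O := M) D₀.χ0 D₀.χa hli P
    rw [h1]
    have e1 : (Set.range fun r => AddMonoidAlgebra.mapRingHom D₀.Λ (algebraMap M M)
        ((Fin.elim0 : Fin 0 → AA M D₀.Λ) r)) = Set.range (Fin.elim0 : Fin 0 → AA M D₀.Λ) := by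
      rw [Set.range_eq_empty, Set.range_eq_empty]
    rw [e1]
  · intro ℓ Q hQ _ d _ i
    exact i.elim0
  · intro k _ _ _ _ _ _ _ 𝔭 hVP hfin
    by_cases hN : NTR ρ V D₀
    · obtain ⟨D, c, f, h1, h2, h3⟩ := prw_of hli hgen hN
      exact LOC_ofW hVP hfin hρ fix (hin V hV) hgen h1 h2 h3
    · by_cases hT : WRP M V → TRV ρ V D₀
      · exact LOC_of hVP hfin hρ fix (hin V hV) hgen (fun r hr =>
          torsor_loc hρ hli hgen hs (good_of hVP) hT r hr)
      · push Not at hT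
        obtain ⟨hW, hT⟩ := hT
        rcases hw V hV hW with h1 | h1 | h1
        · exact absurd h1 hT
        · exact absurd h1 hN
        · obtain ⟨𝔓, p, g, h𝔓, hp, hp𝔓, hg, ho⟩ := hW
          exact loc_all hlat h90 hloc hval htame hglo hloc3 hVP hfin hρ fix (hin V hV) hli hgen hs
            ⟨h𝔓, hp, hp𝔓, hg, ho⟩ (h1 𝔓 p h𝔓 hp hp𝔓)

end Pool.Agent.T9h3.LN
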