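import Pool.Agent.T9h3.LN.StepD

/-!
# Project LN: the local data, for torsors whose local class has order prime to `r`
-/

set_option autoImplicit false
set_option linter.unusedSectionVars false
set_option linter.unusedVariables false
set_option linter.overlappingInstances false

namespace Pool.Agent.T9h3.LN

open Pool.Agent.T9h3 Pool.Agent.T9h3.P Pool.Agent.T9h3.Q Pool.Agent.T9h3.R Pool.Agent.T9h3.H
open Pool.Agent.H918R2.Quad

/-- The quotient of the torsor by the `d`-torsion of the torus is trivial at the place,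
approximately. -/
def TRD {E M K : Type} [Field E] [Field M] [Field K] [Algebra E M] [Algebra M K] [Algebra E K]
    (ρ : (M ≃ₐ[E] M) →* (K ≃ₐ[E] K)) (V : ValuationSubring E) (D : CHL E M K) (d : ℕ) : Prop :=
  ∀ t : V, t ≠ 0 → ∃ a : D.Λ → M, a 0 = 1 ∧ (∀ x y, a (x + y) = a x * a y) ∧
    ∀ g x, ∃ e : integralClosure V M, ρ g (algebraMap M K (a x) * D.χ (d • x)) =
      algebraMap M K (algebraMap _ M (1 + algebraMap V (integralClosure V M) t * e)) *
        (algebraMap M K (a (g • x)) * D.χ (d • (g • x)))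

/-- **The local data.** -/
theorem loc_allD (hlocD : S_LocD) (hval : S_Val) (htame : S_Tame)
    (hglo : S_Glo2) (hloc3 : S_Loc3) {k E M F K : Type} [CommRing k] [IsDomain k]
    [IsDedekindDomain k] [Field E] [Field M] [Field F] [Field K] [Algebra E F]
    [Algebra k E] [Algebra k F] [IsScalarTower k E F] [IsFractionRing k E]
    [Algebra E M] [FiniteDimensional E M] [IsGalois E M]
    [Algebra M K] [Algebra E K] [IsScalarTower E M K] [Algebra F K] [IsScalarTower E F K]
    {V : ValuationSubring E} {𝔭 : Ideal k} (hV : VP k V 𝔭)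
    (hfin : Finite (k ⧸ 𝔭)) {ρ : (M ≃ₐ[E] M) →* (K ≃ₐ[E] K)}
    (hρ : ∀ g x, ρ g (algebraMap M K x) = algebraMap M K (g x))
    (fix : ∀ y, (∀ g, ρ g y = y) ↔ ∃ z : F, algebraMap F K z = y)
    (hin : HIN E M (integralClosure V M)) {D₀ : CHL E M K} (hli : LinearIndependent M D₀.χ)
    (hgen : IntermediateField.adjoin M (Set.range D₀.χ) = ⊤) (hs : SML ρ D₀)
    {𝔓 : Ideal (integralClosure V M)} {r : ℕ} {w₀ : M ≃ₐ[E] M} (hw : WLD E M 𝔓 r w₀)
    {d : ℕ} (hd : Nat.Coprime d r) (hD : TRD ρ V D₀ d) : LOC F ρ 𝔭 D₀ := by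
  classical
  have i1 := hV.ded
  have i2 := hV.dedO (M := M)
  choose γ hγ using hs
  have C : CST ρ D₀.χ γ := ⟨D₀.χ0, D₀.χa, hρ, hγ⟩
  obtain ⟨c, hcv⟩ : ∃ c : (M ≃ₐ[E] M) → D₀.Λ →+ Additive Mˣ,
      ∀ g x, (((c g x).toMul : Mˣ) : M) = γ g (g⁻¹ • x) := by
    refine ⟨fun g =>
      { toFun := fun x => Additive.ofMul (Units.mk0 (γ g (g⁻¹ • x)) (C.ne0 g _))
        map_zero' := ?_
        map_add' := ?_ }, fun g x => rfl⟩
    · apply Additive.toMul.injective
      apply Units.ext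
      change γ g (g⁻¹ • 0) = 1
      rw [smul_zero, C.zero]
    · intro x y
      apply Additive.toMul.injective
      apply Units.ext
      change γ g (g⁻¹ • (x + y)) = γ g (g⁻¹ • x) * γ g (g⁻¹ • y)
      rw [smul_add, C.add]
  have hc : ∀ g h x, c (g * h) x = c g x + uAct g (c h (g⁻¹ • x)) := by
    intro g h x
    apply Additive.toMul.injective
    apply Units.ext
    rw [toMul_add, Units.val_mul, uAct_val, hcv, hcv, hcv, C.mul, mul_inv_rev, mul_smul,
      smul_inv_smul, mul_comm]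
    rfl
  have htr : ∀ t : V, t ≠ 0 → ∃ a₁ : D₀.Λ →+ Additive Mˣ, ∀ g x, ∃ e : integralClosure V M,
      (((d • c g x - (uAct g (a₁ (g⁻¹ • x)) - a₁ x)).toMul : Mˣ) : M) =
        ((1 + algebraMap V (integralClosure V M) t * e : integralClosure V M) : M) := by
    intro t ht
    obtain ⟨a, ha0, haa, ha⟩ := hD t ht
    have hane : ∀ x, a x ≠ 0 := by
      intro x hx
      have h1 := haa x (-x)
      rw [add_neg_cancel, ha0, hx, zero_mul] at h1
      exact one_ne_zero h1
    obtain ⟨a₁, ha₁⟩ : ∃ a₁ : D₀.Λ →+ Additive Mˣ,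
        ∀ x, (((a₁ x).toMul : Mˣ) : M) = (a x)⁻¹ := by
      refine ⟨{ toFun := fun x => Additive.ofMul (Units.mk0 (a x)⁻¹ (inv_ne_zero (hane x)))
                map_zero' := ?_
                map_add' := ?_ }, fun x => rfl⟩
      · apply Additive.toMul.injective
        apply Units.ext
        change (a 0)⁻¹ = 1
        rw [ha0, inv_one]
      · intro x y
        apply Additive.toMul.injective
        apply Units.ext
        change (a (x + y))⁻¹ = (a x)⁻¹ * (a y)⁻¹
        rw [haa, mul_inv]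
    refine ⟨a₁, fun g x => ?_⟩
    obtain ⟨e, he⟩ := ha g (g⁻¹ • x)
    refine ⟨e, ?_⟩
    have hp : ∀ (n : ℕ) (y : D₀.Λ), γ g (n • y) = γ g y ^ n := by
      intro n y
      induction n with
      | zero => rw [zero_smul, C.zero, pow_zero]
      | succ n ih => rw [succ_nsmul, C.add, ih, pow_succ]
    have h1 : g (a (g⁻¹ • x)) * γ g (g⁻¹ • x) ^ d =
        ((1 + algebraMap V (integralClosure V M) t * e : integralClosure V M) : M) * a x := by
      apply C.inj
      have h2 := chi_ne C.χ0 C.χa (d • x)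
      apply mul_right_cancel₀ h2
      have hn : g • d • g⁻¹ • x = d • x := by rw [smul_comm g d (g⁻¹ • x), smul_inv_smul]
      rw [map_mul, hρ, C.act, hn, hp, smul_inv_smul] at he
      rw [map_mul, map_mul, mul_assoc, mul_assoc]
      exact he
    rw [toMul_sub, toMul_sub, Units.val_div_eq_div_val, Units.val_div_eq_div_val, toMul_nsmul,
      Units.val_pow_eq_pow_val, hcv, uAct_val, ha₁, ha₁]
    have h3 : g • (a (g⁻¹ • x))⁻¹ = (g (a (g⁻¹ • x)))⁻¹ := map_inv₀ g _
    rw [h3]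
    have h4 : g (a (g⁻¹ • x)) ≠ 0 := by
      rw [Ne, map_eq_zero_iff g g.injective]
      exact hane _
    have h5 := hane x
    field_simp
    linear_combination h1
  obtain ⟨M', _, _, _, _, _, _, hin', A, hA1, hA2⟩ := stepD hlocD hval htame hglo hV hfin
    hin hw hd hc htr
  have conv : ∀ (g : M' ≃ₐ[E] M') (x : D₀.Λ) (u : M'),
      u = ((κu (algebraMap M M') (c (AlgEquiv.restrictNormalHom M g)
          (AlgEquiv.restrictNormalHom M g • x)) -
          (uAct g (A ((AlgEquiv.restrictNormalHom M g)⁻¹ • AlgEquiv.restrictNormalHom M g • x)) -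
            A (AlgEquiv.restrictNormalHom M g • x))).toMul : M'ˣ) →
      g ((((A x).toMul : M'ˣ) : M')⁻¹) *
        algebraMap M M' (γ (AlgEquiv.restrictNormalHom M g) x) =
        u * (((A (AlgEquiv.restrictNormalHom M g • x)).toMul : M'ˣ) : M')⁻¹ := by
    intro g x u hu
    rw [hu, toMul_sub, toMul_sub, Units.val_div_eq_div_val, Units.val_div_eq_div_val, κu_val, hcv,
      uAct_val, inv_smul_smul, map_inv₀]
    have h1 : g (((A x).toMul : M'ˣ) : M') ≠ 0 := by
      rw [Ne, map_eq_zero_iff g g.injective]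
      exact Units.ne_zero _
    have h2 : (((A (AlgEquiv.restrictNormalHom M g • x)).toMul : M'ˣ) : M') ≠ 0 :=
      Units.ne_zero _
    have h3 : g • (((A x).toMul : M'ˣ) : M') = g (((A x).toMul : M'ˣ) : M') := rfl
    rw [h3]
    field_simp
  refine hloc3 k E M M' F K V 𝔭 hV hfin ρ hρ fix D₀ hli hgen γ C hin'
    (fun x => (((A x).toMul : M'ˣ) : M')⁻¹) ?_ ?_ ?_ ?_
  · rw [map_zero, toMul_zero, Units.val_one, inv_one]
  · intro x y
    rw [map_add, toMul_add, Units.val_mul, mul_inv]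
  · intro g x
    obtain ⟨u, hu⟩ := hA1 g (AlgEquiv.restrictNormalHom M g • x)
    exact ⟨u, conv g x _ hu⟩
  · intro 𝔔 p g hg l hl x
    obtain ⟨e, he, hu⟩ := hA2 𝔔 p g hg l hl (AlgEquiv.restrictNormalHom M g • x)
    exact ⟨e, he, conv g x _ hu⟩

/-- **Torsors under tori over global fields.** -/
theorem glob_torsor2 (hlat : S_Lat) (h90 : S_H90) (hloc : S_Loc) (hlocD : S_LocD)
    (hval : S_Val) (htame : S_Tame)
    (hglo : S_Glo2) (hloc3 : S_Loc3) {E M F K : Type} [Field E] [Field M] [Algebra E M]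
    [FiniteDimensional E M]
    [IsGalois E M] [Field F] [Field K] [Algebra E F] [Algebra M K] [Algebra E K]
    [IsScalarTower E M K] [Algebra F K] [IsScalarTower E F K]
    {ρ : (M ≃ₐ[E] M) →* (K ≃ₐ[E] K)} (hE : IsGlob E)
    (hin : ∀ V : ValuationSubring E, V ≠ ⊤ → HIN E M (integralClosure V M))
    (hρ : ∀ g x, ρ g (algebraMap M K x) = algebraMap M K (g x))
    (fix : ∀ y, (∀ g, ρ g y = y) ↔ ∃ z : F, algebraMap F K z = y)
    {D₀ : CHL E M K} (hli : LinearIndependent M D₀.χ)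
    (hgen : IntermediateField.adjoin M (Set.range D₀.χ) = ⊤) (hs : SML ρ D₀)
    (hw : ∀ V : ValuationSubring E, V ≠ ⊤ → WRP M V →
      (∀ (𝔓 : Ideal (integralClosure V M)) (r : ℕ), 𝔓.IsMaximal → r.Prime →
        (r : integralClosure V M) ∈ 𝔓 → ¬ r ^ 2 ∣ Nat.card (DgS V 𝔓)) ∨
      (∃ d : ℕ, IsUnit (d : V) ∧ TRD ρ V D₀ d) ∨ NTR ρ V D₀) : MDL F := by
  refine loc_globW (D₀ := D₀) hE hρ fix hgen hs (f₀ := (Fin.elim0 : Fin 0 → AA M D₀.Λ)) ?_
    (B := ∅) Set.finite_empty (fun V hV _ => ⟨Fin.elim0, fun r => r.elim0, ?_⟩)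
    (fun V hV => ?_)
  · intro P
    have h1 := hk_empty (O := M) D₀.χ0 D₀.χa hli P
    rw [h1]
    have e1 : (Set.range fun r => AddMonoidAlgebra.mapRingHom D₀.Λ (algebraMap M M)
        ((Fin.elim0 : Fin 0 → AA M D₀.Λ) r)) = Set.range (Fin.elim0 : Fin 0 → AA M D₀.Λ) := by
      rw [Set.range_eq_empty, Set.range_eq_empty]
    rw [e1]
  · intro ℓ Q hQ _ d _ i
    exact i.elim0
  · intro k _ _ _ _ _ _ _ 𝔭 hVP hfin
    by_cases hW : WRP M V
    · rcases hw V hV hW with h1 | ⟨d, hd, h1⟩ | h1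
      · obtain ⟨𝔓, p, g, h𝔓, hp, hp𝔓, hg, ho⟩ := hW
        exact loc_all hlat h90 hloc hval htame hglo hloc3 hVP hfin hρ fix (hin V hV) hli hgen hs
          ⟨h𝔓, hp, hp𝔓, hg, ho⟩ (h1 𝔓 p h𝔓 hp hp𝔓)
      · obtain ⟨𝔓, p, g, h𝔓, hp, hp𝔓, hg, ho⟩ := hW
        refine loc_allD hlocD hval htame hglo hloc3 hVP hfin hρ fix (hin V hV) hli hgen hs
          ⟨h𝔓, hp, hp𝔓, hg, ho⟩ (d := d) ?_ h1
        rw [Nat.coprime_comm, hp.coprime_iff_not_dvd]
        rintro ⟨m, hm⟩
        apply h𝔓.ne_top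
        have h2 : IsUnit (d : integralClosure V M) := by
          have h3 := hd.map (algebraMap V (integralClosure V M))
          rwa [map_natCast] at h3
        refine Ideal.eq_top_of_isUnit_mem _ ?_ h2
        rw [hm, Nat.cast_mul]
        exact 𝔓.mul_mem_right _ hp𝔓
      · obtain ⟨D, c, f, h1, h2, h3⟩ := prw_of hli hgen h1
        exact LOC_ofW hVP hfin hρ fix (hin V hV) hgen h1 h2 h3
    · exact LOC_of hVP hfin hρ fix (hin V hV) hgen (fun r hr =>
        torsor_loc hρ hli hgen hs (good_of hVP) (fun h => absurd h hW) r hr)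

end Pool.Agent.T9h3.LN
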