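import Pool.Agent.T9h3.LN.Loc1
import Pool.Agent.T9h3.R.Torw

/-!
# The decomposition group
-/

set_option autoImplicit false
set_option linter.unusedSectionVars false
set_option linter.unusedVariables false
set_option linter.overlappingInstances false

namespace Pool.Agent.T9h3.LN

open Pool.Agent.T9h3.P Pool.Agent.T9h3.Q Pool.Agent.T9h3.R Pool.Agent.T9h3.H

section dec

variable {k O M L G : Type} [CommRing k] [IsDomain k] [CommRing O] [IsDomain O]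
  [IsDedekindDomain O] [Field M] [Group G] [Finite G] [Algebra k O] [Algebra O M] [Algebra k M]
  [IsScalarTower k O M] [IsFractionRing O M]
  {ρ : G →* (M ≃ₐ[k] M)} {T : G →* (O ≃ₐ[k] O)}

/-- The action by ring automorphisms. -/
def Tr (T : G →* (O ≃ₐ[k] O)) (g : G) : O ≃+* O := (T g).toRingEquiv

lemma Tr_apply (g : G) (o : O) : Tr T g o = T g o := rfl

lemma mem_mvI {g : G} {𝔔 : Ideal O} {x : O} : x ∈ mvI (Tr T) g 𝔔 ↔ T g⁻¹ x ∈ 𝔔 := by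
  unfold mvI
  rw [Ideal.mem_comap]
  have h1 : ((Tr T g).symm : O →+* O) x = T g⁻¹ x := by
    change (Tr T g).symm x = _
    rw [RingEquiv.symm_apply_eq]
    change x = T g (T g⁻¹ x)
    rw [← AlgEquiv.mul_apply, ← map_mul, mul_inv_cancel, map_one]
    rfl
  rw [h1]

lemma mvI_mul (g h : G) (𝔔 : Ideal O) : mvI (Tr T) (g * h) 𝔔 = mvI (Tr T) g (mvI (Tr T) h 𝔔) := by
  ext x
  rw [mem_mvI, mem_mvI, mem_mvI, mul_inv_rev, map_mul]
  rfl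

lemma mvI_one (𝔔 : Ideal O) : mvI (Tr T) (1 : G) 𝔔 = 𝔔 := by
  ext x
  rw [mem_mvI, inv_one, map_one]
  rfl

/-- The decomposition group. -/
def Dg (T : G →* (O ≃ₐ[k] O)) (𝔓 : Ideal O) : Subgroup G where
  carrier := {g | mvI (Tr T) g 𝔓 = 𝔓}
  mul_mem' := by
    intro a b ha hb
    change mvI (Tr T) (a * b) 𝔓 = 𝔓
    rw [mvI_mul, show mvI (Tr T) b 𝔓 = 𝔓 from hb, show mvI (Tr T) a 𝔓 = 𝔓 from ha]
  one_mem' := mvI_one 𝔓
  inv_mem' := by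
    intro a ha
    change mvI (Tr T) a⁻¹ 𝔓 = 𝔓
    have h1 : mvI (Tr T) a 𝔓 = 𝔓 := ha
    conv_lhs => rw [← h1]
    rw [← mvI_mul, inv_mul_cancel, mvI_one]

lemma mem_Dg {g : G} {𝔓 : Ideal O} : g ∈ Dg T 𝔓 ↔ mvI (Tr T) g 𝔓 = 𝔓 := Iff.rfl

lemma Dg_T {g : G} {𝔓 : Ideal O} (hg : g ∈ Dg T 𝔓) {x : O} : T g x ∈ 𝔓 ↔ x ∈ 𝔓 := by
  have h1 : mvI (Tr T) g 𝔓 = 𝔓 := hg
  constructor
  · intro h
    rw [← h1, mem_mvI, ← AlgEquiv.mul_apply, ← map_mul, inv_mul_cancel, map_one] at h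
    exact h
  · intro h
    rw [← h1, mem_mvI, ← AlgEquiv.mul_apply, ← map_mul, inv_mul_cancel, map_one]
    exact h

/-- The inertia group is contained in the decomposition group. -/
lemma ine_Dg {g : G} {𝔓 : Ideal O} (hδ : ∀ o, T g o - o ∈ 𝔓) : g ∈ Dg T 𝔓 := by
  rw [mem_Dg]
  ext x
  rw [mem_mvI]
  have h1 := hδ (T g⁻¹ x)
  rw [← AlgEquiv.mul_apply, ← map_mul, mul_inv_cancel, map_one, AlgEquiv.one_apply] at h1
  constructor
  · intro h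
    have h2 := 𝔓.add_mem h1 h
    rwa [sub_add_cancel] at h2
  · intro h
    have h2 := 𝔓.sub_mem h h1
    rwa [sub_sub_cancel] at h2

lemma ine_conj {g s : G} {𝔓 : Ideal O} (hδ : ∀ o, T g o - o ∈ 𝔓) :
    ∀ o, T (s * g * s⁻¹) o - o ∈ mvI (Tr T) s 𝔓 := by
  intro o
  rw [mem_mvI]
  have h1 : T s⁻¹ (T (s * g * s⁻¹) o - o) = T g (T s⁻¹ o) - T s⁻¹ o := by
    rw [map_sub]
    congr 1
    rw [← AlgEquiv.mul_apply, ← map_mul, ← AlgEquiv.mul_apply, ← map_mul]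
    congr 2
    group
  rw [h1]
  exact hδ _

/-- Powers of the prime ideal and the action. -/
lemma mvI_pow (g : G) (𝔔 : Ideal O) (n : ℕ) : mvI (Tr T) g (𝔔 ^ n) = mvI (Tr T) g 𝔔 ^ n := by
  have h1 : ∀ I : Ideal O, mvI (Tr T) g I = I.map (Tr T g : O →+* O) := fun I => by
    unfold mvI
    exact Ideal.comap_symm (Tr T g)
  rw [h1, h1, Ideal.map_pow]

lemma mvI_T {g : G} {𝔔 : Ideal O} {x : O} (hx : x ∈ 𝔔) : T g x ∈ mvI (Tr T) g 𝔔 := by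
  rw [mem_mvI, ← AlgEquiv.mul_apply, ← map_mul, inv_mul_cancel, map_one]
  exact hx

lemma mvI_max {g : G} {𝔔 : Ideal O} (h : 𝔔.IsMaximal) : (mvI (Tr T) g 𝔔).IsMaximal := by
  unfold mvI
  exact Ideal.comap_isMaximal_of_equiv (Tr T g).symm

variable [MulSemiringAction G M] [AddCommGroup L] [Module.Free ℤ L] [Module.Finite ℤ L]
  [DistribMulAction G L]

/-- **The data at a prime of `M`.** -/
theorem part1 (hlat : S_Lat) (h90 : S_H90) (hG : GN k O M G ρ T)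
    (hρ : ∀ (g : G) (x : M), g • x = ρ g x) {𝔓 : Ideal O} (hmax : 𝔓.IsMaximal) (hbot : 𝔓 ≠ ⊥)
    {r : ℕ} (hr : r.Prime) (hr𝔓 : (r : O) ∈ 𝔓) {w₀ : G} (hw₀ : orderOf w₀ = r)
    (hδ : ∀ o, T w₀ o - o ∈ 𝔓) (hD : ¬ r ^ 2 ∣ Nat.card (Dg T 𝔓))
    {c : G → L →+ Additive Mˣ}
    (hc : ∀ g h x, c (g * h) x = c g x + uAct g (c h (g⁻¹ • x))) :
    ∃ (W : Subgroup (Dg T 𝔓)) (_ : W.Normal) (l : ℕ) (a : L →+ Additive Mˣ),
      Nat.card W = r ∧ Nat.Coprime W.index r ∧ 1 ≤ l ∧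
      (∀ g : G, g ≠ 1 → (∀ o, T g o - o ∈ 𝔓) → g ^ r = 1 →
        (∃ h : g ∈ Dg T 𝔓, (⟨g, h⟩ : Dg T 𝔓) ∈ W) ∧ ∃ π ∈ 𝔓, T g π - π ∉ 𝔓 ^ (l + 2)) ∧
      ∀ w ∈ W, ∀ x, SU M 𝔓 (r * l)
        ((c (w : G) x - (uAct (w : G) (a ((w : G)⁻¹ • x)) - a x)).toMul : Mˣ) := by
  have hne₀ : w₀ ≠ 1 := by
    intro h
    rw [h, orderOf_one] at hw₀
    exact hr.one_lt.ne hw₀
  have hpow₀ : w₀ ^ r = 1 := by rw [← hw₀]; exact pow_orderOf_eq_one w₀
  -- the elements of order `r` of the inertia group are in the wild inertia group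
  have hIW : ∀ g : G, g ≠ 1 → (∀ o, T g o - o ∈ 𝔓) → g ^ r = 1 → IW T 𝔓 g := by
    intro g hg1 hg hgr
    obtain ⟨l, h1, h2, h3, h4⟩ := ram1E t_RAM1 hG hr hgr hg1 hmax hbot hg
    have hl : l ≠ 0 := fun h => h4 h hr𝔓
    exact ⟨hg1, hg, fun o _ => Ideal.pow_le_pow_right (by omega) (h1 o)⟩
  obtain ⟨-, hcyc⟩ := hG.cyc hmax (hIW w₀ hne₀ hδ hpow₀)
  obtain ⟨l, h1, ⟨π, hπ, hDπ⟩, h3, h4⟩ := ram1E t_RAM1 hG hr hpow₀ hne₀ hmax hbot hδ
  have hl0 : 1 ≤ l := Nat.one_le_iff_ne_zero.2 fun h => h4 h hr𝔓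
  have hcom : ∀ g o, algebraMap O M (Tr T g o) = g • algebraMap O M o := by
    intro g o
    rw [hρ]
    exact (hG.com g o).symm
  obtain ⟨a, ha⟩ := exists_aW hlat h90 (T := Tr T) hcom hmax hbot (hG.resf 𝔓 hmax hbot) hr hr𝔓
    hpow₀ (by
      by_contra hcon
      push Not at hcon
      apply hne₀
      apply hG.fai
      intro o
      apply IsFractionRing.injective O M
      rw [← Tr_apply, hcom]
      exact hcon _) hl0 h1 h3 hπ hDπ hc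
  have hw₀D : w₀ ∈ Dg T 𝔓 := ine_Dg hδ
  obtain ⟨W, hW⟩ : ∃ W : Subgroup (Dg T 𝔓), W = (Subgroup.zpowers w₀).subgroupOf (Dg T 𝔓) :=
    ⟨_, rfl⟩
  have hle : Subgroup.zpowers w₀ ≤ Dg T 𝔓 := (Subgroup.zpowers_le).2 hw₀D
  have hmemW : ∀ g : Dg T 𝔓, g ∈ W ↔ ∃ n : ℕ, (g : G) = w₀ ^ n := by
    intro g
    rw [hW, Subgroup.mem_subgroupOf]
    constructor
    · intro h
      obtain ⟨n, hn⟩ := mem_powers_iff_mem_zpowers.2 h
      exact ⟨n, hn.symm⟩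
    · rintro ⟨n, hn⟩
      rw [hn]
      exact Subgroup.npow_mem_zpowers w₀ n
  have hcard : Nat.card W = r := by
    rw [hW, Nat.card_congr (Subgroup.subgroupOfEquivOfLe hle).toEquiv, Nat.card_zpowers, hw₀]
  have hnorm : W.Normal := by
    refine ⟨fun n hn g => ?_⟩
    obtain ⟨m, hm⟩ := (hmemW n).1 hn
    have hconj : ∃ j : ℕ, (g : G) * w₀ * (g : G)⁻¹ = w₀ ^ j := by
      refine hcyc _ (hIW _ ?_ ?_ ?_)
      · intro h
        exact hne₀ (conj_eq_one_iff.1 h)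
      · have h5 := ine_conj (s := (g : G)) hδ
        rwa [mem_Dg.1 g.2] at h5
      · rw [conj_pow, hpow₀, mul_one, mul_inv_cancel]
    obtain ⟨j, hj⟩ := hconj
    refine (hmemW _).2 ⟨j * m, ?_⟩
    change (g : G) * (n : G) * (g : G)⁻¹ = _
    rw [hm, ← conj_pow, hj, ← pow_mul]
  refine ⟨W, hnorm, l, a, hcard, ?_, hl0, ?_, ?_⟩
  · refine ((Nat.Prime.coprime_iff_not_dvd hr).2 fun h => hD ?_).symm
    rw [← Subgroup.card_mul_index W, hcard, sq]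
    exact Nat.mul_dvd_mul_left r h
  · intro g hg1 hg hgr
    have hgIW := hIW g hg1 hg hgr
    refine ⟨⟨ine_Dg hg, (hmemW _).2 (hcyc g hgIW)⟩, ?_⟩
    by_contra hcon
    push Not at hcon
    obtain ⟨-, hcyc'⟩ := hG.cyc hmax hgIW
    obtain ⟨j, hj⟩ := hcyc' w₀ (hIW w₀ hne₀ hδ hpow₀)
    apply hDπ
    have h5 : ∀ n : ℕ, T (g ^ n) π - π ∈ 𝔓 ^ (l + 2) := by
      intro n
      induction n with
      | zero =>
        rw [pow_zero, map_one, AlgEquiv.one_apply, sub_self]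
        exact Ideal.zero_mem _
      | succ n ih =>
        have h6 : T (g ^ (n + 1)) π - π = (T g (T (g ^ n) π) - T (g ^ n) π) +
            (T (g ^ n) π - π) := by
          rw [pow_succ', map_mul, AlgEquiv.mul_apply]
          ring
        rw [h6]
        refine Ideal.add_mem _ (hcon _ ?_) ih
        exact (Dg_T (Subgroup.pow_mem _ (ine_Dg hg) n)).2 hπ
    have h6 := h5 j
    rw [← hj] at h6
    exact h6
  · intro w hw x
    obtain ⟨n, hn⟩ := (hmemW w).1 hw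
    rw [hn]
    exact ha n x

end dec

end Pool.Agent.T9h3.LN
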