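import Pool.Agent.T9h3.LN.Spec
import Pool.Agent.T9h3.R.Nrm

/-!
# Norms from wildly ramified extensions of prime degree
-/

set_option autoImplicit false
set_option linter.unusedSectionVars false
set_option linter.unusedVariables false
set_option linter.overlappingInstances false

namespace Pool.Agent.T9h3.LN

open Pool.Agent.T9h3.R

section ring

variable {O : Type} [CommRing O] {t : O →+* O} {p : ℕ}

/-- The norm. -/
def Nm (t : O →+* O) (p : ℕ) (x : O) : O := ∏ i ∈ Finset.range p, (t^[i]) x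

lemma it_mul (i : ℕ) (x y : O) : (t^[i]) (x * y) = (t^[i]) x * (t^[i]) y := by
  induction i with
  | zero => rfl
  | succ i ih => rw [Function.iterate_succ_apply', ih, map_mul, Function.iterate_succ_apply',
      Function.iterate_succ_apply']

lemma it_zero (i : ℕ) : (t^[i]) (0 : O) = 0 := by
  induction i with
  | zero => rfl
  | succ i ih => rw [Function.iterate_succ_apply', ih, map_zero]

lemma it_one (i : ℕ) : (t^[i]) (1 : O) = 1 := by
  induction i with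
  | zero => rfl
  | succ i ih => rw [Function.iterate_succ_apply', ih, map_one]

lemma Nm_mul (x y : O) : Nm t p (x * y) = Nm t p x * Nm t p y := by
  unfold Nm
  rw [← Finset.prod_mul_distrib]
  exact Finset.prod_congr rfl fun i _ => it_mul i x y

lemma Nm_one : Nm t p 1 = 1 := by
  unfold Nm
  exact Finset.prod_eq_one fun i _ => it_one i

lemma Nm_pow (x : O) (k : ℕ) : Nm t p (x ^ k) = Nm t p x ^ k := by
  induction k with
  | zero => rw [pow_zero, pow_zero, Nm_one]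
  | succ k ih => rw [pow_succ, pow_succ, Nm_mul, ih]

lemma Nm_fix [IsDomain O] (hord : ∀ o, (t^[p]) o = o) (o : O) : t (Nm t p o) = Nm t p o := by
  unfold Nm
  rw [map_prod]
  have h1 := Finset.prod_range_succ' (fun i => (t^[i]) o) p
  have h2 := Finset.prod_range_succ (fun i => (t^[i]) o) p
  rw [hord] at h2
  rw [h2, Function.iterate_zero_apply] at h1
  by_cases ho : o = 0
  · rw [ho]
    simp only [it_zero, map_zero]
  · have h4 := mul_right_cancel₀ ho h1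
    rw [h4]
    refine Finset.prod_congr rfl fun i _ => ?_
    rw [Function.iterate_succ_apply']

/-- The norm is a multiple. -/
lemma Nm_dvd (hp : 0 < p) (x : O) : ∃ y, Nm t p x = x * y := by
  obtain ⟨q, rfl⟩ : ∃ q, p = q + 1 := ⟨p - 1, by omega⟩
  refine ⟨∏ i ∈ Finset.range q, (t^[i + 1]) x, ?_⟩
  unfold Nm
  rw [Finset.prod_range_succ', mul_comm]
  rfl

variable {𝔓 : Ideal O}

lemma it_mem (hδ : ∀ o, t o - o ∈ 𝔓) (i : ℕ) (x : O) : (t^[i]) x - x ∈ 𝔓 := by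
  induction i with
  | zero => simp
  | succ i ih =>
    rw [Function.iterate_succ_apply']
    have h1 : t ((t^[i]) x) - x = (t ((t^[i]) x) - (t^[i]) x) + ((t^[i]) x - x) := by ring
    rw [h1]
    exact 𝔓.add_mem (hδ _) ih

lemma Nm_mk (hδ : ∀ o, t o - o ∈ 𝔓) (x : O) : Nm t p x - x ^ p ∈ 𝔓 := by
  rw [← Ideal.Quotient.eq, map_pow]
  unfold Nm
  rw [map_prod, Finset.prod_congr rfl fun i _ => Ideal.Quotient.eq.2 (it_mem hδ i x),
    Finset.prod_const, Finset.card_range]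

lemma Nm_not_mem (hpr : 𝔓.IsPrime) (hδ : ∀ o, t o - o ∈ 𝔓) {x : O} (hx : x ∉ 𝔓) :
    Nm t p x ∉ 𝔓 := by
  intro h
  apply hx
  refine hpr.mem_of_pow_mem p ?_
  have h1 := 𝔓.sub_mem h (Nm_mk (p := p) hδ x)
  rwa [sub_sub_cancel] at h1

end ring

section root

variable {O : Type} [CommRing O] {𝔓 : Ideal O} {p : ℕ}

/-- The residue field is perfect. -/
lemma exists_root (hmax : 𝔓.IsMaximal) (hfin : Finite (O ⧸ 𝔓)) (hp : p.Prime) (hpP : (p : O) ∈ 𝔓)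
    (o : O) : ∃ y : O, y ^ p - o ∈ 𝔓 := by
  classical
  let _ : Field (O ⧸ 𝔓) := Ideal.Quotient.field 𝔓
  have _ : Fintype (O ⧸ 𝔓) := Fintype.ofFinite _
  have h0 : ((p : ℕ) : O ⧸ 𝔓) = 0 := by
    rw [← map_natCast (Ideal.Quotient.mk 𝔓)]
    exact Ideal.Quotient.eq_zero_iff_mem.2 hpP
  have hchar : CharP (O ⧸ 𝔓) p := (CharP.charP_iff_prime_eq_zero hp).2 h0
  obtain ⟨f, -, hf⟩ := FiniteField.card (O ⧸ 𝔓) p
  have h2 := FiniteField.pow_card (Ideal.Quotient.mk 𝔓 o)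
  obtain ⟨f', hf'⟩ : ∃ f' : ℕ, (f : ℕ) = f' + 1 := ⟨f - 1, by have := f.pos; omega⟩
  rw [hf, hf', pow_succ, pow_mul, ← map_pow, ← map_pow] at h2
  exact ⟨o ^ p ^ f', Ideal.Quotient.eq.1 h2⟩

end root

section ded

variable {O : Type} [CommRing O] [IsDomain O] [IsDedekindDomain O] {t : O →+* O} {𝔓 : Ideal O}
  {l p : ℕ}

/-- The exact power. -/
lemma exists_val (hmax : 𝔓.IsMaximal) {a : O} (ha : a ≠ 0) :
    ∃ n, a ∈ 𝔓 ^ n ∧ a ∉ 𝔓 ^ (n + 1) := by
  classical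
  have hex : ∃ n, a ∉ 𝔓 ^ n := by
    by_contra hcon
    push Not at hcon
    have h1 : a ∈ (⨅ n : ℕ, 𝔓 ^ n : Ideal O) := by
      rw [Submodule.mem_iInf]
      exact hcon
    rw [Ideal.iInf_pow_eq_bot_of_isDomain 𝔓 hmax.ne_top, Ideal.mem_bot] at h1
    exact ha h1
  have h1 := Nat.find_spec hex
  have h0 : Nat.find hex ≠ 0 := by
    intro h
    rw [h, pow_zero, Ideal.one_eq_top] at h1
    exact h1 trivial
  obtain ⟨n, hn⟩ := Nat.exists_eq_succ_of_ne_zero h0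
  refine ⟨n, ?_, by rw [hn] at h1; exact h1⟩
  by_contra hcon
  exact Nat.find_min hex (by rw [hn]; exact Nat.lt_succ_self n) hcon

/-- Products of exact powers. -/
lemma mul_not_mem (hmax : 𝔓.IsMaximal) (hbot : 𝔓 ≠ ⊥) {x y : O} {m n : ℕ} (hx : x ∈ 𝔓 ^ m)
    (hx' : x ∉ 𝔓 ^ (m + 1)) (hy : y ∈ 𝔓 ^ n) (hy' : y ∉ 𝔓 ^ (n + 1)) :
    x * y ∉ 𝔓 ^ (m + n + 1) := by
  intro h6
  have hPr : Prime 𝔓 := Ideal.prime_of_isPrime hbot hmax.isPrime
  rw [← Ideal.dvd_span_singleton, ← Ideal.span_singleton_mul_span_singleton] at h6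
  rcases succ_dvd_or_succ_dvd_of_succ_sum_dvd_mul hPr (Ideal.dvd_span_singleton.2 hx)
    (Ideal.dvd_span_singleton.2 hy) h6 with h7 | h7
  · exact hx' (Ideal.dvd_span_singleton.1 h7)
  · exact hy' (Ideal.dvd_span_singleton.1 h7)

lemma pow_not_mem (hmax : 𝔓.IsMaximal) (hbot : 𝔓 ≠ ⊥) {x : O} (hx : x ∈ 𝔓) (hx' : x ∉ 𝔓 ^ 2)
    (n : ℕ) : x ^ n ∈ 𝔓 ^ n ∧ x ^ n ∉ 𝔓 ^ (n + 1) := by
  induction n with
  | zero =>
    refine ⟨by rw [pow_zero, pow_zero, Ideal.one_eq_top]; trivial, ?_⟩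
    rw [pow_zero, zero_add, pow_one]
    exact fun h => hmax.ne_top ((Ideal.eq_top_iff_one _).2 h)
  | succ n ih =>
    refine ⟨Ideal.pow_mem_pow hx _, ?_⟩
    rw [pow_succ x n]
    exact mul_not_mem hmax hbot ih.1 ih.2 (by rw [pow_one]; exact hx) hx'

variable (hp : p.Prime) (hmax : 𝔓.IsMaximal) (hbot : 𝔓 ≠ ⊥) (hfin : Finite (O ⧸ 𝔓))
  (hpP : (p : O) ∈ 𝔓) (hord : ∀ o, (t^[p]) o = o) (hl0 : 1 ≤ l)
  (hl : ∀ o, t o - o ∈ 𝔓 ^ (l + 1))

include hl in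
lemma hδ_of : ∀ o, t o - o ∈ 𝔓 := fun o => Ideal.pow_le_self (Nat.succ_ne_zero l) (hl o)

include hp hmax hfin hpP hord hl in
/-- The residue classes contain invariant elements. -/
lemma res_fix (o : O) : ∃ c : O, t c = c ∧ o - c ∈ 𝔓 := by
  obtain ⟨y, hy⟩ := exists_root hmax hfin hp hpP o
  refine ⟨Nm t p y, Nm_fix hord y, ?_⟩
  have h1 := Nm_mk (p := p) (hδ_of hl) y
  have h2 : o - Nm t p y = -((Nm t p y - y ^ p) + (y ^ p - o)) := by ring
  rw [h2]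
  exact 𝔓.neg_mem (𝔓.add_mem h1 hy)

include hl in
/-- The difference of the powers. -/
lemma pow_D {π : O} (hπ : π ∈ 𝔓) (n : ℕ) :
    t (π ^ (n + 1)) - π ^ (n + 1) - ((n + 1 : ℕ) : O) * π ^ n * (t π - π) ∈
      𝔓 ^ (n + 1 + 2 * l) := by
  have hD1 : t π - π ∈ 𝔓 ^ (l + 1) := hl π
  have htπ : t π ∈ 𝔓 := by
    have h2 : t π = (t π - π) + π := by ring
    rw [h2]
    exact 𝔓.add_mem (Ideal.pow_le_self (Nat.succ_ne_zero l) hD1) hπ
  induction n with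
  | zero =>
    have h1 : t (π ^ (0 + 1)) - π ^ (0 + 1) - ((0 + 1 : ℕ) : O) * π ^ 0 * (t π - π) = 0 := by
      simp
    rw [h1]
    exact Ideal.zero_mem _
  | succ n ih =>
    have h1 : t (π ^ (n + 1 + 1)) - π ^ (n + 1 + 1) - ((n + 1 + 1 : ℕ) : O) * π ^ (n + 1) *
        (t π - π) = (t (π ^ (n + 1)) - π ^ (n + 1) - ((n + 1 : ℕ) : O) * π ^ n * (t π - π)) * t π +
          ((n + 1 : ℕ) : O) * (π ^ n * ((t π - π) * (t π - π))) := by
      rw [pow_succ π (n + 1), map_mul]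
      push_cast
      ring
    rw [h1]
    refine Ideal.add_mem _ ?_ (Ideal.mul_mem_left _ _ ?_)
    · have h2 := Ideal.mul_mem_mul ih htπ
      rw [← pow_succ] at h2
      exact Ideal.pow_le_pow_right (by omega) h2
    · have h2 := Ideal.mul_mem_mul (Ideal.pow_mem_pow hπ n) (Ideal.mul_mem_mul hD1 hD1)
      rw [← pow_add, ← pow_add] at h2
      exact Ideal.pow_le_pow_right (by omega) h2

include hp hmax hbot hfin hpP hord hl0 hl in
/-- The order of an invariant element is divisible by `p`. -/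
theorem fix_val {π : O} (hπ : π ∈ 𝔓) (hDπ : t π - π ∉ 𝔓 ^ (l + 2)) {a : O} (ha : t a = a) {n : ℕ}
    (h1 : a ∈ 𝔓 ^ n) (h2 : a ∉ 𝔓 ^ (n + 1)) : p ∣ n := by
  by_contra hpn
  have hδ := hδ_of hl
  have hpr : 𝔓.IsPrime := hmax.isPrime
  have hπ2 : π ∉ 𝔓 ^ 2 := fun h => hDπ (by
    have h3 := t_pow hl 2 π h
    rwa [add_comm] at h3)
  obtain ⟨hn1, hn2⟩ := pow_not_mem hmax hbot hπ hπ2 n
  obtain ⟨b, e, he, hbe⟩ := Ideal.exists_mul_add_mem_pow_succ hbot (π ^ n) a hn1 hn2 h1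
  obtain ⟨c, hc, hbc⟩ := res_fix hp hmax hfin hpP hord hl b
  obtain ⟨n', rfl⟩ : ∃ n', n = n' + 1 := by
    refine ⟨n - 1, ?_⟩
    have : n ≠ 0 := fun h => hpn (by rw [h]; exact dvd_zero p)
    omega
  -- `a = c π ^ n + e'`
  obtain ⟨e', he', hae⟩ : ∃ e' ∈ 𝔓 ^ (n' + 1 + 1), a = c * π ^ (n' + 1) + e' := by
    refine ⟨(b - c) * π ^ (n' + 1) + e, ?_, by rw [← hbe]; ring⟩
    refine Ideal.add_mem _ ?_ he
    have h3 := Ideal.mul_mem_mul hbc hn1
    rwa [← pow_succ'] at h3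
  have hc1 : c ∉ 𝔓 := by
    intro h
    apply h2
    rw [hae]
    refine Ideal.add_mem _ ?_ he'
    have h3 := Ideal.mul_mem_mul h hn1
    rwa [← pow_succ'] at h3
  have hn'p : ((n' + 1 : ℕ) : O) ∉ 𝔓 := by
    intro h
    have hcop : Nat.Coprime (n' + 1) p := (Nat.Prime.coprime_iff_not_dvd hp).2 hpn |>.symm
    apply hmax.ne_top
    rw [Ideal.eq_top_iff_one]
    have h3 : ((Nat.gcd (n' + 1) p : ℤ) : O) = ((n' + 1 : ℕ) : O) * ((Nat.gcdA (n' + 1) p : ℤ) : O)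
        + (p : O) * ((Nat.gcdB (n' + 1) p : ℤ) : O) := by
      have := congrArg (Int.cast : ℤ → O) (Nat.gcd_eq_gcd_ab (n' + 1) p)
      push_cast at this ⊢
      exact this
    rw [hcop] at h3
    have h4 : (((1 : ℕ) : ℤ) : O) = 1 := by norm_num
    rw [h4] at h3
    rw [h3]
    exact 𝔓.add_mem (𝔓.mul_mem_right _ h) (𝔓.mul_mem_right _ hpP)
  -- the difference of the power
  have h3 := pow_D hl hπ n'
  obtain ⟨D, hD⟩ : ∃ D, D = t π - π := ⟨_, rfl⟩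
  rw [← hD] at h3 hDπ
  have hD1 : D ∈ 𝔓 ^ (l + 1) := by rw [hD]; exact hl π
  obtain ⟨E, hE⟩ : ∃ E, E = t (π ^ (n' + 1)) - π ^ (n' + 1) - ((n' + 1 : ℕ) : O) * π ^ n' * D :=
    ⟨_, rfl⟩
  rw [← hE] at h3
  have h4 : (c * ((n' + 1 : ℕ) : O)) * (π ^ n' * D) = -(c * E + (t e' - e')) := by
    have h5 : t a - a = 0 := by rw [ha, sub_self]
    rw [hae, map_add, map_mul, hc] at h5
    rw [hE]
    linear_combination h5
  have h5 : (c * ((n' + 1 : ℕ) : O)) * (π ^ n' * D) ∈ 𝔓 ^ (0 + (n' + (l + 1)) + 1) := by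
    rw [h4]
    refine (Ideal.neg_mem_iff _).2 (Ideal.add_mem _ (Ideal.mul_mem_left _ _ ?_) ?_)
    · exact Ideal.pow_le_pow_right (by omega) h3
    · have h6 := t_pow hl _ e' he'
      exact Ideal.pow_le_pow_right (by omega) h6
  obtain ⟨h7, h8⟩ := pow_not_mem hmax hbot hπ hπ2 n'
  refine mul_not_mem hmax hbot (m := 0) (n := n' + (l + 1)) ?_ ?_ ?_ ?_ h5
  · rw [pow_zero, Ideal.one_eq_top]; trivial
  · rw [zero_add, pow_one]
    intro h
    rcases hpr.mem_or_mem h with h | h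
    · exact hc1 h
    · exact hn'p h
  · have h9 := Ideal.mul_mem_mul h7 hD1
    rwa [← pow_add] at h9
  · have h9 := mul_not_mem hmax hbot h7 h8 hD1 hDπ
    exact h9

include hp hmax hl in
/-- The norm of a unit. -/
theorem Nm_cong (hpl : (p : O) ∈ 𝔓 ^ ((p - 1) * l)) {i : ℕ} (hil : i < l) {c : O} (hc : c ∉ 𝔓)
    (hci : c - 1 ∈ 𝔓 ^ i) : Nm t p c - c ^ p ∈ 𝔓 ^ (p * i + 1) := by
  obtain ⟨n, hn⟩ : ∃ n, n = p * i + 1 := ⟨_, rfl⟩
  have hle : 𝔓 ^ n ≤ (𝔓 ^ n).comap t := by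
    intro x hx
    rw [Ideal.mem_comap]
    have h1 : t x = (t x - x) + x := by ring
    rw [h1]
    exact Ideal.add_mem _ (Ideal.pow_le_pow_right (Nat.le_add_right n l)
      (t_pow hl n x hx)) hx
  let τ : (O ⧸ 𝔓 ^ n) →+* (O ⧸ 𝔓 ^ n) := Ideal.quotientMap (𝔓 ^ n) t hle
  have hτmk : ∀ x, τ (Ideal.Quotient.mk _ x) = Ideal.Quotient.mk _ (t x) :=
    fun x => Ideal.quotientMap_mk
  have hτit : ∀ a x, (τ^[a]) (Ideal.Quotient.mk _ x) = Ideal.Quotient.mk _ ((t^[a]) x) := by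
    intro a x
    induction a with
    | zero => rfl
    | succ a ih => rw [Function.iterate_succ', Function.iterate_succ', Function.comp_apply,
        Function.comp_apply, ih, hτmk]
  obtain ⟨I, hI⟩ : ∃ I : Ideal (O ⧸ 𝔓 ^ n), I = 𝔓.map (Ideal.Quotient.mk (𝔓 ^ n)) := ⟨_, rfl⟩
  have hIp : ∀ j, I ^ j = (𝔓 ^ j).map (Ideal.Quotient.mk (𝔓 ^ n)) := by
    intro j
    rw [hI, Ideal.map_pow]
  have hmem : ∀ j x, x ∈ 𝔓 ^ j → Ideal.Quotient.mk (𝔓 ^ n) x ∈ I ^ j := by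
    intro j x hx
    rw [hIp]
    exact Ideal.mem_map_of_mem _ hx
  have hex : ∀ j, ∀ x ∈ I ^ j, ∃ y ∈ 𝔓 ^ j, Ideal.Quotient.mk (𝔓 ^ n) y = x := by
    intro j x hx
    rw [hIp] at hx
    exact (Ideal.mem_map_iff_of_surjective _ Ideal.Quotient.mk_surjective).1 hx
  have hτ : ∀ j, ∀ x ∈ I ^ j, τ x - x ∈ I ^ (j + l) := by
    intro j x hx
    obtain ⟨y, hy, rfl⟩ := hex j x hx
    rw [hτmk, ← map_sub]
    exact hmem _ _ (t_pow hl j y hy)
  have hpI : ((p : ℕ) : O ⧸ 𝔓 ^ n) ∈ I ^ ((p - 1) * l) := by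
    have := hmem _ _ hpl
    rwa [map_natCast] at this
  have h0 : I ^ (p * i + 1) = ⊥ := by
    rw [← hn, hIp]
    exact Ideal.map_quotient_self _
  have hu : IsUnit (Ideal.Quotient.mk (𝔓 ^ n) c) := by
    have h1 : Ideal.span {c} ⊔ 𝔓 = ⊤ := by
      by_contra hcon
      apply hc
      have h2 := hmax.eq_of_le hcon le_sup_right
      rw [h2]
      exact Ideal.mem_sup_left (Ideal.mem_span_singleton_self c)
    have h2 : IsCoprime (Ideal.span {c}) 𝔓 := Ideal.isCoprime_iff_sup_eq.2 h1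
    have h3 : IsCoprime (Ideal.span {c}) (𝔓 ^ n) := h2.pow_right
    obtain ⟨x, hx, y, hy, hxy⟩ := Ideal.isCoprime_iff_exists.1 h3
    obtain ⟨d, hd⟩ := Ideal.mem_span_singleton'.1 hx
    refine isUnit_of_dvd_one ⟨Ideal.Quotient.mk _ d, ?_⟩
    rw [← map_mul, ← map_one (Ideal.Quotient.mk (𝔓 ^ n)), Ideal.Quotient.eq]
    have e1 : (1 : O) - c * d = y := by
      rw [← hxy, ← hd]
      ring
    rw [e1]
    exact hy
  obtain ⟨u, hu⟩ := hu
  have hub : (u : O ⧸ 𝔓 ^ n) - 1 ∈ I ^ i := by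
    rw [hu, ← map_one (Ideal.Quotient.mk (𝔓 ^ n)), ← map_sub]
    exact hmem _ _ hci
  have h2 := norm_unit τ hp hil hτ hpI h0 hub
  rw [hu] at h2
  rw [← hn, ← Ideal.Quotient.eq, map_pow, ← h2]
  unfold Nm
  rw [map_prod]
  exact Finset.prod_congr rfl fun a _ => (hτit a c).symm

include hp hmax hbot hfin hpP hord hl0 hl in
/-- Invariant units are norms up to units which are close to `1`. -/
theorem unit_norm (hpl : (p : O) ∈ 𝔓 ^ ((p - 1) * l)) {π : O} (hπ : π ∈ 𝔓)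
    (hDπ : t π - π ∉ 𝔓 ^ (l + 2)) {u : O} (hu : t u = u) (hu0 : u ∉ 𝔓) :
    ∀ i, i ≤ l → ∃ b : O, b ∉ 𝔓 ∧ Nm t p b - u ∈ 𝔓 ^ (p * i) := by
  have hδ := hδ_of hl
  have hpr : 𝔓.IsPrime := hmax.isPrime
  have hπ2 : π ∉ 𝔓 ^ 2 := fun h => hDπ (by
    have h3 := t_pow hl 2 π h
    rwa [add_comm] at h3)
  intro i
  induction i with
  | zero =>
    intro _
    refine ⟨1, fun h => hmax.ne_top ((Ideal.eq_top_iff_one _).2 h), ?_⟩
    rw [mul_zero, pow_zero, Ideal.one_eq_top]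
    trivial
  | succ i ih =>
    intro hi
    obtain ⟨b, hb, hbu⟩ := ih (by omega)
    have hNb : Nm t p b ∉ 𝔓 := Nm_not_mem hpr hδ hb
    obtain ⟨h1, h2⟩ := pow_not_mem hmax hbot hπ hπ2 (p * i)
    have h3 : Nm t p b * π ^ (p * i) ∈ 𝔓 ^ (p * i) := Ideal.mul_mem_left _ _ h1
    have h4 : Nm t p b * π ^ (p * i) ∉ 𝔓 ^ (p * i + 1) := by
      have h5 := mul_not_mem hmax hbot (m := 0) (n := p * i) (x := Nm t p b)
        (by rw [pow_zero, Ideal.one_eq_top]; trivial) (by rw [zero_add, pow_one]; exact hNb) h1 h2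
      rwa [zero_add] at h5
    obtain ⟨z, e, he, hze⟩ := Ideal.exists_mul_add_mem_pow_succ hbot (Nm t p b * π ^ (p * i))
      (u - Nm t p b) h3 h4 (by
        have h5 : u - Nm t p b = -(Nm t p b - u) := by ring
        rw [h5]
        exact (Ideal.neg_mem_iff _).2 hbu)
    obtain ⟨w, hw⟩ := exists_root hmax hfin hp hpP z
    obtain ⟨y, hy⟩ : ∃ y, y = π ^ i * w := ⟨_, rfl⟩
    have hyi : y ∈ 𝔓 ^ i := by
      rw [hy]
      exact Ideal.mul_mem_right _ _ (Ideal.pow_mem_pow hπ i)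
    -- `(1 + y) ^ p`
    have h5 : (1 + y) ^ p - (1 + π ^ (p * i) * z) ∈ 𝔓 ^ (p * i + 1) := by
      obtain ⟨r, hr⟩ := exists_add_pow_prime_eq hp (1 : O) y
      have h6 : (1 + y) ^ p - (1 + π ^ (p * i) * z) =
          π ^ (p * i) * (w ^ p - z) + (p : O) * y * r := by
        rw [hr, hy, mul_pow, ← pow_mul, one_pow, mul_comm i p]
        ring
      rw [h6]
      refine Ideal.add_mem _ ?_ (Ideal.mul_mem_right _ _ ?_)
      · have h7 := Ideal.mul_mem_mul h1 hw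
        rwa [← pow_succ] at h7
      · have h7 := Ideal.mul_mem_mul hpl hyi
        rw [← pow_add] at h7
        refine Ideal.pow_le_pow_right ?_ h7
        obtain ⟨q, rfl⟩ : ∃ q, p = q + 1 := ⟨p - 1, by have := hp.pos; omega⟩
        have hq : 1 ≤ q := by have := hp.two_le; omega
        rw [Nat.add_sub_cancel]
        obtain ⟨d, rfl⟩ : ∃ d, l = i + 1 + d := ⟨l - (i + 1), by omega⟩
        nlinarith [Nat.zero_le (q * d)]
    have h6 : Nm t p b * (1 + y) ^ p - u ∈ 𝔓 ^ (p * i + 1) := by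
      have h7 : Nm t p b * (1 + y) ^ p - u =
          Nm t p b * ((1 + y) ^ p - (1 + π ^ (p * i) * z)) - e := by
        linear_combination hze
      rw [h7]
      exact Ideal.sub_mem _ (Ideal.mul_mem_left _ _ h5) he
    have hc : (1 + y) ∉ 𝔓 := by
      intro h
      apply hu0
      have h7 : Nm t p b * (1 + y) ^ p ∈ 𝔓 :=
        𝔓.mul_mem_left _ (𝔓.pow_mem_of_mem h p hp.pos)
      have h8 := 𝔓.sub_mem h7 (Ideal.pow_le_self (Nat.succ_ne_zero _) h6)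
      rwa [sub_sub_cancel] at h8
    have h7 := Nm_cong hp hmax hl hpl (by omega : i < l) hc (by
      have h8 : (1 + y) - 1 = y := by ring
      rw [h8]
      exact hyi)
    refine ⟨b * (1 + y), fun h => (hpr.mem_or_mem h).elim hb hc, ?_⟩
    obtain ⟨d, hd⟩ : ∃ d, d = Nm t p (b * (1 + y)) - u := ⟨_, rfl⟩
    have hd1 : d ∈ 𝔓 ^ (p * i + 1) := by
      have h8 : d = Nm t p b * (Nm t p (1 + y) - (1 + y) ^ p) + (Nm t p b * (1 + y) ^ p - u) := by
        rw [hd, Nm_mul]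
        ring
      rw [h8]
      exact Ideal.add_mem _ (Ideal.mul_mem_left _ _ h7) h6
    have hdt : t d = d := by
      rw [hd, map_sub, hu, Nm_fix hord]
    rw [← hd]
    by_cases hd0 : d = 0
    · rw [hd0]; exact Ideal.zero_mem _
    · obtain ⟨n, hn1, hn2⟩ := exists_val hmax hd0
      obtain ⟨k, rfl⟩ := fix_val hp hmax hbot hfin hpP hord hl0 hl hπ hDπ hdt hn1 hn2
      refine Ideal.pow_le_pow_right ?_ hn1
      have h8 : p * i + 1 ≤ p * k := by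
        by_contra hcon
        exact hn2 (Ideal.pow_le_pow_right (by omega) hd1)
      have h9 : i < k := by
        by_contra hcon
        have : p * k ≤ p * i := Nat.mul_le_mul_left p (by omega)
        omega
      exact Nat.mul_le_mul_left p h9

end ded

section field

variable {O M : Type} [CommRing O] [IsDomain O] [IsDedekindDomain O] [Field M] [Algebra O M]
  [IsFractionRing O M]

lemma it_alg {τ : M ≃+* M} {t : O →+* O} (com : ∀ o, τ (algebraMap O M o) = algebraMap O M (t o))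
    (i : ℕ) (o : O) : (τ^[i]) (algebraMap O M o) = algebraMap O M ((t^[i]) o) := by
  induction i with
  | zero => rfl
  | succ i ih => rw [Function.iterate_succ_apply', Function.iterate_succ_apply', ih, com]

lemma Nm_alg {τ : M ≃+* M} {t : O →+* O} (com : ∀ o, τ (algebraMap O M o) = algebraMap O M (t o))
    (p : ℕ) (o : O) : Nm (τ : M →+* M) p (algebraMap O M o) = algebraMap O M (Nm t p o) := by
  unfold Nm
  rw [map_prod]
  exact Finset.prod_congr rfl fun i _ => it_alg com i o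

lemma Nm_inv' {τ : M →+* M} {p : ℕ} {x : M} (hx : x ≠ 0) : Nm τ p x⁻¹ = (Nm τ p x)⁻¹ := by
  have h1 : Nm τ p x * Nm τ p x⁻¹ = 1 := by
    rw [← Nm_mul, mul_inv_cancel₀ hx, Nm_one]
  exact eq_inv_of_mul_eq_one_right h1

lemma Nm_ne {τ : M →+* M} {p : ℕ} {x : M} (hx : x ≠ 0) : Nm τ p x ≠ 0 := by
  intro h0
  have h1 : Nm τ p x * Nm τ p x⁻¹ = 1 := by
    rw [← Nm_mul, mul_inv_cancel₀ hx, Nm_one]
  rw [h0, zero_mul] at h1
  exact zero_ne_one h1

/-- **Norms from wildly ramified extensions of prime degree.** -/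
theorem nrm {𝔓 : Ideal O} {l p : ℕ} {t : O →+* O} {τ : M ≃+* M}
    (com : ∀ o, τ (algebraMap O M o) = algebraMap O M (t o))
    (hp : p.Prime) (hmax : 𝔓.IsMaximal) (hbot : 𝔓 ≠ ⊥) (hfin : Finite (O ⧸ 𝔓))
    (hpP : (p : O) ∈ 𝔓) (hord : ∀ o, (t^[p]) o = o) (hl0 : 1 ≤ l)
    (hl : ∀ o, t o - o ∈ 𝔓 ^ (l + 1)) (hpl : (p : O) ∈ 𝔓 ^ ((p - 1) * l)) {π : O} (hπ : π ∈ 𝔓)
    (hDπ : t π - π ∉ 𝔓 ^ (l + 2)) {a : M} (ha0 : a ≠ 0) (ha : τ a = a) :
    ∃ b : M, b ≠ 0 ∧ ∃ u : M, SU M 𝔓 (p * l) u ∧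
      a = (∏ i ∈ Finset.range p, (τ^[i]) b) * u := by
  have hδ := hδ_of hl
  have hpr : 𝔓.IsPrime := hmax.isPrime
  have hinj : Function.Injective (algebraMap O M) := IsFractionRing.injective O M
  have hπ2 : π ∉ 𝔓 ^ 2 := fun h => hDπ (by
    have h3 := t_pow hl 2 π h
    rwa [add_comm] at h3)
  have hπ0 : π ≠ 0 := fun h => hπ2 (by rw [h]; exact Ideal.zero_mem _)
  -- reduction to an integral element
  have key : ∀ a' : O, a' ≠ 0 → t a' = a' → ∃ b : M, b ≠ 0 ∧ ∃ u : M, SU M 𝔓 (p * l) u ∧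
      algebraMap O M a' = Nm (τ : M →+* M) p b * u := by
    intro a' ha0' ha'
    obtain ⟨n, hn1, hn2⟩ := exists_val hmax ha0'
    obtain ⟨k, rfl⟩ := fix_val hp hmax hbot hfin hpP hord hl0 hl hπ hDπ ha' hn1 hn2
    -- the norm of `π ^ k`
    obtain ⟨ϖ, hϖ⟩ : ∃ ϖ, ϖ = Nm t p (π ^ k) := ⟨_, rfl⟩
    have hit : ∀ i, (t^[i]) π ∈ 𝔓 ∧ (t^[i]) π ∉ 𝔓 ^ 2 := by
      intro i
      induction i with
      | zero => exact ⟨hπ, hπ2⟩
      | succ i ih =>
        rw [Function.iterate_succ_apply']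
        have h1 := hl ((t^[i]) π)
        have h2 : t ((t^[i]) π) - (t^[i]) π ∈ 𝔓 ^ 2 := Ideal.pow_le_pow_right (by omega) h1
        constructor
        · have h3 := 𝔓.add_mem (hδ ((t^[i]) π)) ih.1
          rwa [sub_add_cancel] at h3
        · intro h3
          apply ih.2
          have h4 := Ideal.sub_mem _ h3 h2
          rwa [sub_sub_cancel] at h4
    have hprod : ∀ s : ℕ, (∏ i ∈ Finset.range s, (t^[i]) π) ∈ 𝔓 ^ s ∧
        (∏ i ∈ Finset.range s, (t^[i]) π) ∉ 𝔓 ^ (s + 1) := by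
      intro s
      induction s with
      | zero =>
        refine ⟨by rw [pow_zero, Ideal.one_eq_top]; trivial, ?_⟩
        rw [Finset.range_zero, Finset.prod_empty, zero_add, pow_one]
        exact fun h => hmax.ne_top ((Ideal.eq_top_iff_one _).2 h)
      | succ s ih =>
        rw [Finset.prod_range_succ]
        refine ⟨?_, ?_⟩
        · have h1 := Ideal.mul_mem_mul ih.1 (hit s).1
          rwa [← pow_succ] at h1
        · exact mul_not_mem hmax hbot ih.1 ih.2 (by rw [pow_one]; exact (hit s).1) (hit s).2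
    have hϖ1 : ϖ ∈ 𝔓 ^ (p * k) ∧ ϖ ∉ 𝔓 ^ (p * k + 1) := by
      rw [hϖ, Nm_pow]
      obtain ⟨h1, h2⟩ := hprod p
      have h3 : ∀ j : ℕ, Nm t p π ^ j ∈ 𝔓 ^ (p * j) ∧ Nm t p π ^ j ∉ 𝔓 ^ (p * j + 1) := by
        intro j
        induction j with
        | zero =>
          rw [mul_zero, pow_zero, pow_zero, Ideal.one_eq_top, zero_add, pow_one]
          exact ⟨trivial, fun h => hmax.ne_top ((Ideal.eq_top_iff_one _).2 h)⟩
        | succ j ih =>
          rw [pow_succ (Nm t p π) j]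
          refine ⟨?_, ?_⟩
          · have h4 := Ideal.mul_mem_mul ih.1 h1
            rwa [← pow_add] at h4
          · exact mul_not_mem hmax hbot ih.1 ih.2 h1 h2
      exact h3 k
    -- the quotient is a unit
    obtain ⟨J, hJ⟩ := Ideal.dvd_span_singleton.2 hϖ1.1
    have hJP : ¬ J ≤ 𝔓 := by
      intro h
      apply hϖ1.2
      have h1 : 𝔓 ∣ J := Ideal.dvd_iff_le.2 h
      rw [← Ideal.dvd_span_singleton, hJ, pow_succ]
      exact mul_dvd_mul_left _ h1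
    obtain ⟨s₁, hs₁, hs₁P⟩ := SetLike.not_le_iff_exists.1 hJP
    obtain ⟨s₂, hs₂⟩ : ∃ s₂, a' * s₁ = ϖ * s₂ := by
      have h1 := Ideal.mul_mem_mul hn1 hs₁
      rw [← hJ] at h1
      obtain ⟨s₂, h2⟩ := Ideal.mem_span_singleton'.1 h1
      exact ⟨s₂, by rw [← h2, mul_comm]⟩
    have hϖ0 : ϖ ≠ 0 := fun h => hϖ1.2 (by rw [h]; exact Ideal.zero_mem _)
    have hs₂P : s₂ ∉ 𝔓 := by
      intro h
      have h1 := Ideal.mul_mem_mul hϖ1.1 h
      rw [← hs₂, ← pow_succ] at h1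
      exact mul_not_mem hmax hbot (n := 0) hn1 hn2
        (by rw [pow_zero, Ideal.one_eq_top]; trivial) (by rw [zero_add, pow_one]; exact hs₁P) h1
    obtain ⟨y₁, hy₁⟩ := Nm_dvd (t := t) hp.pos s₁
    have hNs₁ : Nm t p s₁ ∉ 𝔓 := Nm_not_mem hpr hδ hs₁P
    have hy₁P : y₁ ∉ 𝔓 := fun h => hNs₁ (by rw [hy₁]; exact 𝔓.mul_mem_left _ h)
    obtain ⟨u₁, hu₁⟩ : ∃ u₁, u₁ = s₂ * y₁ := ⟨_, rfl⟩
    have hu₁P : u₁ ∉ 𝔓 := by
      rw [hu₁]
      exact fun h => (hpr.mem_or_mem h).elim hs₂P hy₁P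
    have heq : a' * Nm t p s₁ = ϖ * u₁ := by
      rw [hy₁, hu₁]
      linear_combination y₁ * hs₂
    have hu₁t : t u₁ = u₁ := by
      have h1 : ϖ * t u₁ = ϖ * u₁ := by
        have h2 : t ϖ = ϖ := by rw [hϖ]; exact Nm_fix hord _
        rw [← heq, ← ha', ← Nm_fix (t := t) hord s₁, ← map_mul, heq, map_mul, h2]
      exact mul_left_cancel₀ hϖ0 h1
    obtain ⟨b₁, hb₁P, hb₁⟩ := unit_norm hp hmax hbot hfin hpP hord hl0 hl hpl hπ hDπ hu₁t hu₁P l
      le_rfl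
    have hNb₁ : Nm t p b₁ ∉ 𝔓 := Nm_not_mem hpr hδ hb₁P
    have ne_of : ∀ x : O, x ∉ 𝔓 → algebraMap O M x ≠ 0 := by
      intro x hx h
      have h1 : x = 0 := hinj (by rw [h, map_zero])
      exact hx (by rw [h1]; exact 𝔓.zero_mem)
    have e1 : algebraMap O M (π ^ k) ≠ 0 :=
      fun h => pow_ne_zero k hπ0 (hinj (by rw [h, map_zero]))
    refine ⟨algebraMap O M (π ^ k) * algebraMap O M b₁ * (algebraMap O M s₁)⁻¹,
      mul_ne_zero (mul_ne_zero e1 (ne_of _ hb₁P)) (inv_ne_zero (ne_of _ hs₁P)),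
      algebraMap O M u₁ * (algebraMap O M (Nm t p b₁))⁻¹, ⟨u₁, Nm t p b₁, hu₁P, hNb₁, ?_, ?_⟩, ?_⟩
    · have h1 : u₁ - Nm t p b₁ = -(Nm t p b₁ - u₁) := by ring
      rw [h1]
      exact (Ideal.neg_mem_iff _).2 hb₁
    · rw [mul_assoc, inv_mul_cancel₀ (ne_of _ hNb₁), mul_one]
    · rw [Nm_mul, Nm_mul, Nm_inv' (ne_of _ hs₁P), Nm_alg com, Nm_alg com, Nm_alg com, ← hϖ]
      have h1 := congrArg (algebraMap O M) heq
      rw [map_mul, map_mul] at h1
      have h2 := ne_of _ hNs₁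
      have h3 := ne_of _ hNb₁
      field_simp
      linear_combination h1
  obtain ⟨x, y, hy, hxy⟩ := IsFractionRing.div_surjective (A := O) a
  have hy0 : y ≠ 0 := nonZeroDivisors.ne_zero hy
  have hyM : algebraMap O M y ≠ 0 := fun h => hy0 (hinj (by rw [h, map_zero]))
  obtain ⟨y₁, hy₁⟩ := Nm_dvd (t := t) hp.pos y
  have hNy : algebraMap O M (Nm t p y) ≠ 0 := by
    rw [← Nm_alg com]
    exact Nm_ne hyM
  have h1 : algebraMap O M (x * y₁) = a * algebraMap O M (Nm t p y) := by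
    rw [hy₁, ← hxy, map_mul, map_mul]
    field_simp
  obtain ⟨b, hb0, u, hu, hbu⟩ := key (x * y₁) (by
    intro h
    rw [h, map_zero] at h1
    exact (mul_ne_zero ha0 hNy) h1.symm) (by
    apply hinj
    rw [← com, h1, map_mul, ha, com, Nm_fix hord])
  refine ⟨b * (algebraMap O M y)⁻¹, mul_ne_zero hb0 (inv_ne_zero hyM), u, hu, ?_⟩
  change a = Nm (τ : M →+* M) p (b * (algebraMap O M y)⁻¹) * u
  rw [Nm_mul, Nm_inv' hyM, Nm_alg com]
  rw [h1] at hbu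
  field_simp
  linear_combination hbu

end field

end Pool.Agent.T9h3.LN
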