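import Pool.Agent.T9h3.LN.Su
import Pool.Agent.T9h3.LN.Norm

/-!
# The local lemma for the wild inertia group
-/

set_option autoImplicit false
set_option linter.unusedSectionVars false
set_option linter.unusedVariables false
set_option linter.overlappingInstances false

namespace Pool.Agent.T9h3.LN

section act

variable {G M : Type} [Group G] [Field M] [MulSemiringAction G M]

/-- The action of one element. -/
noncomputable def uEq (g : G) : Additive Mˣ ≃+ Additive Mˣ where
  toFun := uAct g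
  invFun := uAct g⁻¹
  left_inv a := by rw [← uAct_mul, inv_mul_cancel, uAct_one]
  right_inv a := by rw [← uAct_mul, mul_inv_cancel, uAct_one]
  map_add' := map_add (uAct g)

lemma uEq_apply (g : G) (a : Additive Mˣ) : uEq g a = uAct g a := rfl

lemma uEq_iter (g : G) (n : ℕ) (a : Additive Mˣ) : ((uEq g)^[n]) a = uAct (g ^ n) a := by
  induction n with
  | zero => rw [pow_zero, uAct_one]; rfl
  | succ n ih => rw [Function.iterate_succ_apply', ih, uEq_apply, ← uAct_mul, pow_succ']

/-- The action on the field. -/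
def rEq (g : G) : M ≃+* M := MulSemiringAction.toRingEquiv G M g

lemma rEq_iter (g : G) (n : ℕ) (a : M) : ((rEq g)^[n]) a = g ^ n • a := by
  induction n with
  | zero => rw [pow_zero, one_smul]; rfl
  | succ n ih =>
    rw [Function.iterate_succ_apply', ih, pow_succ', mul_smul]
    rfl

variable {L : Type} [AddCommGroup L] [DistribMulAction G L]

lemma lEq_iter (g : G) (n : ℕ) (x : L) :
    ((DistribMulAction.toAddEquiv L g)^[n]) x = g ^ n • x := by
  induction n with
  | zero => rw [pow_zero, one_smul]; rfl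
  | succ n ih =>
    rw [Function.iterate_succ_apply', ih, pow_succ', mul_smul]
    rfl

lemma lEqs_iter (g : G) (n : ℕ) (x : L) :
    ((DistribMulAction.toAddEquiv L g).symm^[n]) x = (g ^ n)⁻¹ • x := by
  induction n with
  | zero => rw [pow_zero, inv_one, one_smul]; rfl
  | succ n ih =>
    rw [Function.iterate_succ_apply', ih, pow_succ, mul_inv_rev, mul_smul]
    rfl

lemma coc_one {c : G → L →+ Additive Mˣ}
    (hc : ∀ g h x, c (g * h) x = c g x + uAct g (c h (g⁻¹ • x))) (x : L) : c 1 x = 0 := by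
  have h1 := hc 1 1 x
  rw [mul_one, inv_one, one_smul, uAct_one] at h1
  exact (add_eq_left.1 h1.symm)

lemma coc_pow {c : G → L →+ Additive Mˣ}
    (hc : ∀ g h x, c (g * h) x = c g x + uAct g (c h (g⁻¹ • x))) (w : G) (n : ℕ) (x : L) :
    c (w ^ n) x = ∑ i ∈ Finset.range n, uAct (w ^ i) (c w ((w ^ i)⁻¹ • x)) := by
  induction n with
  | zero => rw [pow_zero, coc_one hc, Finset.range_zero, Finset.sum_empty]
  | succ n ih =>
    rw [pow_succ, hc, ih, Finset.sum_range_succ]

end act

section loc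

variable {O M L G : Type} [CommRing O] [IsDomain O] [IsDedekindDomain O] [Field M] [Algebra O M]
    [IsFractionRing O M] [Group G] [MulSemiringAction G M] [AddCommGroup L]
    [Module.Free ℤ L] [Module.Finite ℤ L] [DistribMulAction G L] {T : G → (O ≃+* O)}

lemma T_pow_of (com : ∀ g o, algebraMap O M (T g o) = g • algebraMap O M o) (g h : G) (o : O) :
    T (g * h) o = T g (T h o) := by
  apply IsFractionRing.injective O M
  rw [com, com, com, mul_smul]

lemma T_one_of (com : ∀ g o, algebraMap O M (T g o) = g • algebraMap O M o) (o : O) :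
    T (1 : G) o = o := by
  apply IsFractionRing.injective O M
  rw [com, one_smul]

lemma T_iter_of (com : ∀ g o, algebraMap O M (T g o) = g • algebraMap O M o) (g : G) (n : ℕ)
    (o : O) : ((T g : O →+* O)^[n]) o = T (g ^ n) o := by
  induction n with
  | zero => rw [pow_zero, T_one_of com]; rfl
  | succ n ih =>
    rw [Function.iterate_succ_apply', ih, pow_succ', T_pow_of com]
    rfl

/-- **The first cohomology of the wild inertia group.** -/
theorem exists_aW (hlat : S_Lat) (h90 : S_H90)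
    (com : ∀ g o, algebraMap O M (T g o) = g • algebraMap O M o)
    {𝔓 : Ideal O} (hmax : 𝔓.IsMaximal) (hbot : 𝔓 ≠ ⊥) (hfin : Finite (O ⧸ 𝔓)) {r : ℕ}
    (hr : r.Prime) (hr𝔓 : (r : O) ∈ 𝔓) {w : G} (hw : w ^ r = 1) (hw1 : ∃ x : M, w • x ≠ x) {l : ℕ}
    (hl0 : 1 ≤ l) (hl : ∀ o, T w o - o ∈ 𝔓 ^ (l + 1)) (hrl : (r : O) ∈ 𝔓 ^ ((r - 1) * l)) {π : O}
    (hπ : π ∈ 𝔓) (hDπ : T w π - π ∉ 𝔓 ^ (l + 2)) {c : G → L →+ Additive Mˣ}
    (hc : ∀ g h x, c (g * h) x = c g x + uAct g (c h (g⁻¹ • x))) :
    ∃ a : L →+ Additive Mˣ, ∀ (k : ℕ) (x : L),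
      SU M 𝔓 (r * l) ((c (w ^ k) x - (uAct (w ^ k) (a ((w ^ k)⁻¹ • x)) - a x)).toMul : Mˣ) := by
  have inj : Function.Injective (algebraMap O M) := IsFractionRing.injective O M
  have hpr : 𝔓.IsPrime := hmax.isPrime
  have hwfix : 𝔓.comap ((T w).symm : O →+* O) = 𝔓 := by
    have hδ : ∀ o, T w o - o ∈ 𝔓 := fun o => Ideal.pow_le_self (Nat.succ_ne_zero l) (hl o)
    ext o
    rw [Ideal.mem_comap]
    have h1 := hδ ((T w).symm o)
    rw [RingEquiv.apply_symm_apply] at h1
    constructor
    · intro h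
      have h2 := 𝔓.add_mem h1 h
      change o - (T w).symm o + (T w).symm o ∈ 𝔓 at h2
      rwa [sub_add_cancel] at h2
    · intro h
      have h2 := 𝔓.sub_mem h h1
      rw [sub_sub_cancel] at h2
      exact h2
  have hstab : ∀ (u : Additive Mˣ) (n : ℕ), u ∈ SUg M inj 𝔓 hpr n → uAct w u ∈ SUg M inj 𝔓 hpr n := by
    intro u n hu
    exact SU_T (T w) (MulSemiringAction.toRingHom G M w) (fun o => (com w o).symm) hwfix hu
  obtain ⟨a, ha⟩ := hlat (Additive Mˣ) L r hr (uEq w) (DistribMulAction.toAddEquiv L w)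
    (fun a => by rw [uEq_iter, hw, uAct_one]) (fun x => by rw [lEq_iter, hw, one_smul]) (by
      intro a ha
      have h1 : ∏ i ∈ Finset.range r, ((rEq w)^[i]) ((a.toMul : Mˣ) : M) = 1 := by
        have h2 := congrArg (fun z : Additive Mˣ => ((z.toMul : Mˣ) : M)) ha
        simp only [toMul_sum, Units.coe_prod, toMul_zero, Units.val_one] at h2
        rw [← h2]
        refine Finset.prod_congr rfl fun i _ => ?_
        rw [rEq_iter, uEq_iter, uAct_val]
      obtain ⟨b, hb0, hb⟩ := h90 M (rEq w) r hr (fun x => by rw [rEq_iter, hw, one_smul])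
        (by
          intro h
          obtain ⟨x, hx⟩ := hw1
          exact hx (DFunLike.congr_fun h x)) _ h1
      refine ⟨Additive.ofMul (Units.mk0 b hb0), ?_⟩
      rw [eq_sub_iff_add_eq]
      apply Additive.toMul.injective
      apply Units.ext
      exact hb) (SUg M inj 𝔓 hpr (r * l)) (by
      intro a ha
      have hτ : rEq w ((a.toMul : Mˣ) : M) = ((a.toMul : Mˣ) : M) := by
        have h2 := congrArg (fun z : Additive Mˣ => ((z.toMul : Mˣ) : M)) ha
        exact h2
      obtain ⟨b, hb0, u, hu, hbu⟩ := nrm (M := M) (t := (T w : O →+* O)) (τ := rEq w)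
        (fun o => (com w o).symm) hr hmax hbot hfin hr𝔓
        (fun o => by rw [T_iter_of com, hw, T_one_of com]) hl0 hl hrl hπ hDπ
        (a := ((a.toMul : Mˣ) : M)) (Units.ne_zero _) hτ
      have hu0 : u ≠ 0 := SU_ne inj hu
      refine ⟨Additive.ofMul (Units.mk0 b hb0), Additive.ofMul (Units.mk0 u hu0), hu, ?_⟩
      apply Additive.toMul.injective
      apply Units.ext
      rw [toMul_add, Units.val_mul, toMul_sum, Units.coe_prod]
      rw [hbu]
      congr 1
      refine Finset.prod_congr rfl fun i _ => ?_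
      rw [rEq_iter, uEq_iter, uAct_val]
      rfl) (c w) (by
      intro x
      have h1 := coc_pow hc w r x
      rw [hw, coc_one hc] at h1
      rw [h1]
      refine Finset.sum_congr rfl fun i _ => ?_
      rw [uEq_iter, lEqs_iter])
  have ha' : ∀ x, c w x - (uAct w (a (w⁻¹ • x)) - a x) ∈ SUg M inj 𝔓 hpr (r * l) := ha
  refine ⟨a, fun k => ?_⟩
  induction k with
  | zero =>
    intro x
    rw [pow_zero, coc_one hc, inv_one, one_smul, uAct_one, sub_self, sub_zero]
    exact (SUg M inj 𝔓 hpr (r * l)).zero_mem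
  | succ k ih =>
    intro x
    have h1 : c (w ^ (k + 1)) x - (uAct (w ^ (k + 1)) (a ((w ^ (k + 1))⁻¹ • x)) - a x) =
        (c w x - (uAct w (a (w⁻¹ • x)) - a x)) + uAct w (c (w ^ k) (w⁻¹ • x) -
          (uAct (w ^ k) (a ((w ^ k)⁻¹ • w⁻¹ • x)) - a (w⁻¹ • x))) := by
      rw [pow_succ', hc, map_sub, map_sub, ← uAct_mul, mul_inv_rev, mul_smul]
      abel
    rw [h1]
    exact (SUg M inj 𝔓 hpr (r * l)).add_mem (ha' x) (hstab _ _ (ih (w⁻¹ • x)))

end loc

end Pool.Agent.T9h3.LN
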