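import Pool.Agent.T9h3.LN.Vv

/-!
# The data at a prime of the tamely ramified extension
-/

set_option autoImplicit false
set_option linter.unusedSectionVars false
set_option linter.unusedVariables false
set_option linter.overlappingInstances false

namespace Pool.Agent.T9h3.LN

open Pool.Agent.T9h3.P Pool.Agent.T9h3.Q Pool.Agent.T9h3.R Pool.Agent.T9h3.H

/-- The map on the units. -/
noncomputable def κu {M M' : Type} [Field M] [Field M'] (κ : M →+* M') :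
    Additive Mˣ →+ Additive M'ˣ :=
  MonoidHom.toAdditive (Units.map (κ : M →* M'))

lemma κu_val {M M' : Type} [Field M] [Field M'] (κ : M →+* M') (a : Additive Mˣ) :
    (((κu κ a).toMul : M'ˣ) : M') = κ ((a.toMul : Mˣ) : M) := rfl

section nu

variable {k O' M' G' : Type} [CommRing k] [IsDomain k] [CommRing O'] [IsDomain O']
  [IsDedekindDomain O'] [Field M'] [Group G'] [Finite G'] [Algebra k O'] [Algebra O' M']
  [Algebra k M'] [IsScalarTower k O' M'] [IsFractionRing O' M']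
  {ρ' : G' →* (M' ≃ₐ[k] M')} {T' : G' →* (O' ≃ₐ[k] O')} [MulSemiringAction G' M']

/-- An invariant element of the order `r`. -/
lemma exists_nu (hG' : GN k O' M' G' ρ' T') (hρ' : ∀ (g : G') (x : M'), g • x = ρ' g x)
    {𝔓' : Ideal O'} (h' : 𝔓'.IsMaximal) (h0' : 𝔓' ≠ ⊥) {r : ℕ} (hr : r.Prime)
    (hr𝔓' : (r : O') ∈ 𝔓') {v' : M' → ℤ} (V' : VV 𝔓' v') :
    ∃ ν : Additive M'ˣ, V'.hom ν = r ∧ ∀ w : G', w ≠ 1 → (∀ o, T' w o - o ∈ 𝔓') → w ^ r = 1 →
      uAct w ν = ν := by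
  have inj' : Function.Injective (algebraMap O' M') := IsFractionRing.injective O' M'
  obtain ⟨ϖ, hϖ, hϖ2⟩ := exists_unif h' h0'
  have hϖ0 : ϖ ≠ 0 := fun h1 => hϖ2 (by rw [h1]; exact Ideal.zero_mem _)
  have hϖM : algebraMap O' M' ϖ ≠ 0 := fun h1 => hϖ0 (inj' (by rw [h1, map_zero]))
  have hvϖ : v' (algebraMap O' M' ϖ) = 1 := by
    have h1 := V'.alg ϖ 1 (by rw [pow_one]; exact hϖ) hϖ2
    exact_mod_cast h1
  obtain ⟨μ, hμ⟩ : ∃ μ : Additive M'ˣ, μ = Additive.ofMul (Units.mk0 _ hϖM) := ⟨_, rfl⟩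
  have hvμ : V'.hom μ = 1 := by rw [hμ]; exact hvϖ
  have hcom : ∀ g o, algebraMap O' M' (Tr T' g o) = g • algebraMap O' M' o := by
    intro g o
    rw [hρ']
    exact (hG'.com g o).symm
  have hinv : ∀ w : G', w ∈ Dg T' 𝔓' → ∀ a, V'.hom (uAct w a) = V'.hom a := by
    intro w hw a
    exact V'.act h' (Tr T' w) (MulSemiringAction.toRingHom G' M' w) (fun o => (hcom w o).symm) hw
      (Units.ne_zero _)
  have hIW : ∀ g : G', g ≠ 1 → (∀ o, T' g o - o ∈ 𝔓') → g ^ r = 1 → IW T' 𝔓' g := by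
    intro g hg1 hg hgr
    obtain ⟨l, h1, h2, h3, h4⟩ := ram1E t_RAM1 hG' hr hgr hg1 h' h0' hg
    have hl : l ≠ 0 := fun h => h4 h hr𝔓'
    exact ⟨hg1, hg, fun o _ => Ideal.pow_le_pow_right (by omega) (h1 o)⟩
  by_cases hex : ∃ w : G', w ≠ 1 ∧ (∀ o, T' w o - o ∈ 𝔓') ∧ w ^ r = 1
  · obtain ⟨w, hw1, hw, hwr⟩ := hex
    obtain ⟨-, hcyc⟩ := hG'.cyc h' (hIW w hw1 hw hwr)
    obtain ⟨ν, hν⟩ : ∃ ν : Additive M'ˣ, ν = ∑ i ∈ Finset.range r, uAct (w ^ i) μ := ⟨_, rfl⟩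
    have h1 : uAct w ν = ν := by
      rw [hν, map_sum]
      have h2 := Finset.sum_range_succ' (fun i => uAct (w ^ i) μ) r
      have h3 := Finset.sum_range_succ (fun i => uAct (w ^ i) μ) r
      rw [hwr] at h3
      rw [h3, pow_zero] at h2
      have h4 := add_right_cancel h2
      rw [h4]
      refine Finset.sum_congr rfl fun i _ => ?_
      rw [← uAct_mul, pow_succ']
    refine ⟨ν, ?_, ?_⟩
    · rw [hν, map_sum]
      rw [Finset.sum_congr rfl fun i _ => hinv (w ^ i) (Subgroup.pow_mem _ (ine_Dg hw) i) μ]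
      rw [hvμ, Finset.sum_const, Finset.card_range]
      simp
    · intro g hg1 hg hgr
      obtain ⟨n, hn⟩ := hcyc g (hIW g hg1 hg hgr)
      rw [hn]
      clear hn
      induction n with
      | zero => rw [pow_zero, uAct_one]
      | succ n ih => rw [pow_succ, uAct_mul, h1, ih]
  · refine ⟨r • μ, ?_, fun w hw1 hw hwr => absurd ⟨w, hw1, hw, hwr⟩ hex⟩
    rw [map_nsmul, hvμ]
    simp

end nu

section two

variable {k O M L G : Type} [CommRing k] [IsDomain k] [CommRing O] [IsDomain O]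
  [IsDedekindDomain O] [Field M] [Group G] [Finite G] [Algebra k O] [Algebra O M] [Algebra k M]
  [IsScalarTower k O M] [IsFractionRing O M]
  {ρ : G →* (M ≃ₐ[k] M)} {T : G →* (O ≃ₐ[k] O)}
  [MulSemiringAction G M] [AddCommGroup L] [Module.Free ℤ L] [Module.Finite ℤ L]
  [DistribMulAction G L]
  {O' M' G' : Type} [CommRing O'] [IsDomain O']
  [IsDedekindDomain O'] [Field M'] [Group G'] [Finite G'] [Algebra k O'] [Algebra O' M']
  [Algebra k M'] [IsScalarTower k O' M'] [IsFractionRing O' M']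
  {ρ' : G' →* (M' ≃ₐ[k] M')} {T' : G' →* (O' ≃ₐ[k] O')} [MulSemiringAction G' M']

/-- **The local solution over the tamely ramified extension.** -/
theorem part2 (hloc : S_Loc) (hval : S_Val) (hG : GN k O M G ρ T) (hG' : GN k O' M' G' ρ' T')
    (hρ : ∀ (g : G) (x : M), g • x = ρ g x) (hρ' : ∀ (g : G') (x : M'), g • x = ρ' g x)
    (res : G' →* G) (j : O →+* O') (κ : M →+* M')
    (com : ∀ o, κ (algebraMap O M o) = algebraMap O' M' (j o))
    (eqv : ∀ (g : G') (x : M), g • κ x = κ (res g • x))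
    {𝔓 : Ideal O} {𝔓' : Ideal O'} (h : 𝔓.IsMaximal) (h0 : 𝔓 ≠ ⊥) (h' : 𝔓'.IsMaximal)
    (h0' : 𝔓' ≠ ⊥) (hc : 𝔓'.comap j = 𝔓) {r : ℕ} (hr : r.Prime) (hr𝔓 : (r : O) ∈ 𝔓)
    (hNK : ∀ g : G', (∀ o, T' g o - o ∈ 𝔓') → res g = 1 → g ^ r = 1 → g = 1)
    {W : Subgroup (Dg T 𝔓)} [W.Normal] {l : ℕ} {a : L →+ Additive Mˣ}
    (hcard : Nat.card W = r) (hcop : Nat.Coprime W.index r)
    (hwild : ∀ g : G, g ≠ 1 → (∀ o, T g o - o ∈ 𝔓) → g ^ r = 1 →
        (∃ h : g ∈ Dg T 𝔓, (⟨g, h⟩ : Dg T 𝔓) ∈ W) ∧ ∃ π ∈ 𝔓, T g π - π ∉ 𝔓 ^ (l + 2))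
    {c : G → L →+ Additive Mˣ}
    (hcc : ∀ g h x, c (g * h) x = c g x + uAct g (c h (g⁻¹ • x)))
    (ha : ∀ w ∈ W, ∀ x, SU M 𝔓 (r * l)
        ((c (w : G) x - (uAct (w : G) (a ((w : G)⁻¹ • x)) - a x)).toMul : Mˣ))
    {π : O} (hπ0 : π ≠ 0) {s N : ℕ} (hπ1 : π ∈ 𝔓 ^ (r ^ s * N)) (hπ2 : π ∉ 𝔓 ^ (r ^ s * N + 1))
    (hN : N ≠ 0) {ϖ : M'} (hϖ : ϖ ^ (W.index * N) = κ (algebraMap O M π)) :
    ∃ (a' : L →+ Additive M'ˣ) (n : ℕ),
      (∀ g : G', mvI (Tr T') g 𝔓' = 𝔓' → ∀ x, SU M' 𝔓' 0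
        ((κu κ (c (res g) x) - (uAct g (a' ((res g)⁻¹ • x)) - a' x)).toMul : M'ˣ)) ∧
      (∀ g : G', g ≠ 1 → (∀ o, T' g o - o ∈ 𝔓') → g ^ r = 1 → ∀ x, SU M' 𝔓' n
        ((κu κ (c (res g) x) - (uAct g (a' ((res g)⁻¹ • x)) - a' x)).toMul : M'ˣ)) ∧
      ∀ g : G', g ≠ 1 → (∀ o, T' g o - o ∈ 𝔓') → g ^ r = 1 → ∀ l' : ℕ,
        (∀ o, T' g o - o ∈ 𝔓' ^ (l' + 1)) → r * l' ≤ n := by
  have inj : Function.Injective (algebraMap O M) := IsFractionRing.injective O M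
  have inj' : Function.Injective (algebraMap O' M') := IsFractionRing.injective O' M'
  have hcom : ∀ g o, algebraMap O M (Tr T g o) = g • algebraMap O M o := by
    intro g o
    rw [hρ]
    exact (hG.com g o).symm
  have hcom' : ∀ g o, algebraMap O' M' (Tr T' g o) = g • algebraMap O' M' o := by
    intro g o
    rw [hρ']
    exact (hG'.com g o).symm
  have hjT : ∀ (g : G') (o : O), T' g (j o) = j (T (res g) o) := by
    intro g o
    apply inj'
    have h1 := hcom' g (j o)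
    rw [← com, eqv, ← hcom, com] at h1
    exact h1
  have hj0 : ∀ x : O, x ≠ 0 → j x ≠ 0 := by
    intro x hx h1
    have h2 := com x
    rw [h1, map_zero, map_eq_zero] at h2
    exact hx (inj (by rw [h2, map_zero]))
  have hr𝔓' : (r : O') ∈ 𝔓' := by
    rw [← hc, Ideal.mem_comap, map_natCast] at hr𝔓
    exact hr𝔓
  obtain ⟨v, V⟩ := exists_VV (M := M) hval h h0
  obtain ⟨v', V'⟩ := exists_VV (M := M') hval h' h0'
  obtain ⟨e, he1, hev, hej⟩ := exists_ram V V' h h0 h' j κ com hc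
  obtain ⟨ν, hν, hνw⟩ := exists_nu hG' hρ' h' h0' hr hr𝔓' V'
  -- the restriction of the decomposition group
  have hresD : ∀ g : G', g ∈ Dg T' 𝔓' → res g ∈ Dg T 𝔓 := by
    intro g hg
    rw [mem_Dg]
    ext x
    rw [mem_mvI, ← hc, Ideal.mem_comap, Ideal.mem_comap, ← map_inv, ← hjT]
    exact Dg_T (Subgroup.inv_mem _ hg)
  have hresI : ∀ g : G', (∀ o, T' g o - o ∈ 𝔓') → ∀ o, T (res g) o - o ∈ 𝔓 := by
    intro g hg o
    rw [← hc, Ideal.mem_comap, map_sub, ← hjT]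
    exact hg _
  let res' : Dg T' 𝔓' →* Dg T 𝔓 :=
    (res.comp (Dg T' 𝔓').subtype).codRestrict (Dg T 𝔓) (fun g => hresD g g.2)
  have hres' : ∀ g : Dg T' 𝔓', ((res' g : Dg T 𝔓) : G) = res (g : G') := fun g => rfl
  let i1 : DistribMulAction (Dg T 𝔓) (Additive Mˣ) := uInst (Dg T 𝔓) M
  let i2 : DistribMulAction (Dg T' 𝔓') (Additive M'ˣ) := uInst (Dg T' 𝔓') M'
  let i3 : DistribMulAction (Dg T' 𝔓') L := DistribMulAction.compHom L res'
  have hact1 : ∀ (g : Dg T 𝔓) (x : Additive Mˣ), g • x = uAct (g : G) x := fun g x => rfl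
  have hact2 : ∀ (g : Dg T' 𝔓') (x : Additive M'ˣ), g • x = uAct (g : G') x := fun g x => rfl
  have hact3 : ∀ (g : Dg T' 𝔓') (x : L), g • x = res (g : G') • x := fun g x => rfl
  have hact4 : ∀ (g : Dg T 𝔓) (x : L), g • x = (g : G) • x := fun g x => rfl
  have hact5 : ∀ (g : Dg T' 𝔓') (x : L), g⁻¹ • x = (res (g : G'))⁻¹ • x := by
    intro g x
    rw [hact3, ← map_inv]
    rfl
  obtain ⟨S, hS⟩ : ∃ S, S = SUg M inj 𝔓 h.isPrime (r * l) := ⟨_, rfl⟩
  obtain ⟨S', hS'⟩ : ∃ S', S' = SUg M' inj' 𝔓' h'.isPrime (e * (r * l)) := ⟨_, rfl⟩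
  obtain ⟨a', ha1, ha2⟩ := hloc (Additive Mˣ) (Additive M'ˣ) L (Dg T 𝔓) (Dg T' 𝔓') res'
    (fun g x => rfl) (κu κ) (by
      intro g x
      rw [hact2, hact1]
      apply Additive.toMul.injective
      apply Units.ext
      rw [uAct_val, κu_val, κu_val, uAct_val, eqv]
      rfl) r W hr hcard hcop
    {w | (w : G') ≠ 1 ∧ (∀ o, T' (w : G') o - o ∈ 𝔓') ∧ (w : G') ^ r = 1} (by
      rintro w ⟨hw1, hw, hwr⟩
      obtain ⟨⟨h1, h2⟩, -⟩ := hwild (res (w : G')) (fun h3 => hw1 (hNK _ hw h3 hwr))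
        (hresI _ hw) (by rw [← map_pow, hwr, map_one])
      exact h2) S (by
      intro g u hu
      rw [hS] at hu ⊢
      exact SU_T (Tr T (g : G)) (MulSemiringAction.toRingHom G M (g : G))
        (fun o => (hcom g o).symm) g.2 hu) S' (by
      intro x hx
      rw [hS] at hx
      rw [hS']
      exact SU_base j κ com hc.le hej hx) V'.hom (by
      intro g x
      rw [hact2]
      exact V'.act h' (Tr T' (g : G')) (MulSemiringAction.toRingHom G' M' (g : G'))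
        (fun o => (hcom' g o).symm) g.2 (Units.ne_zero _)) (by
      intro x hx
      rw [hS'] at hx
      exact (V'.unit _ (Units.ne_zero _)).2 (SU_mono (Nat.zero_le _) hx)) ν hν (by
      rintro w ⟨hw1, hw, hwr⟩
      exact hνw _ hw1 hw hwr) (by
      intro x
      rw [V'.hom_apply, κu_val]
      have hπM : algebraMap O M π ≠ 0 := fun h1 => hπ0 (inj (by rw [h1, map_zero]))
      have hϖ0 : ϖ ≠ 0 := by
        rintro rfl
        rw [zero_pow (mul_ne_zero Subgroup.index_ne_zero_of_finite hN)] at hϖ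
        exact (map_ne_zero κ).2 hπM hϖ.symm
      have h1 := ram_eq V V' j κ com hc (x := ((x.toMul : Mˣ) : M)) (Units.ne_zero _) hπM
      rw [V.alg π _ hπ1 hπ2, ← hϖ, V'.pow hϖ0] at h1
      obtain ⟨A, hA⟩ : ∃ A, A = v' (κ ((x.toMul : Mˣ) : M)) := ⟨_, rfl⟩
      rw [← hA] at h1 ⊢
      push_cast at h1
      have h2 : (N : ℤ) ≠ 0 := by exact_mod_cast hN
      have h3 : (W.index : ℤ) ∣ (r : ℤ) ^ s * A := by
        refine ⟨v ((x.toMul : Mˣ) : M) * v' ϖ, ?_⟩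
        apply mul_left_cancel₀ h2
        linear_combination h1
      refine IsCoprime.dvd_of_dvd_mul_left ?_ h3
      exact (Nat.isCoprime_iff_coprime.2 hcop).pow_right) (fun g => c (g : G)) (by
      intro g h x
      exact hcc _ _ x) a (by
      intro w hw x
      rw [hS]
      exact ha w hw x)
  refine ⟨a', e * (r * l), ?_, ?_, ?_⟩
  · intro g hg x
    have h1 := ha1 ⟨g, hg⟩ x
    rw [hact5] at h1
    exact (V'.unit _ (Units.ne_zero _)).1 h1
  · intro g hg1 hg hgr x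
    have h1 := ha2 ⟨g, ine_Dg hg⟩ ⟨hg1, hg, hgr⟩ x
    rw [hS', hact5] at h1
    exact h1
  · intro g hg1 hg hgr l' hl'
    obtain ⟨-, π₁, hπ₁, hπ₂⟩ := hwild (res g) (fun h3 => hg1 (hNK _ hg h3 hgr))
        (hresI _ hg) (by rw [← map_pow, hgr, map_one])
    obtain ⟨z, hz⟩ : ∃ z, z = T (res g) π₁ - π₁ := ⟨_, rfl⟩
    rw [← hz] at hπ₂
    have hz0 : z ≠ 0 := fun h1 => hπ₂ (by rw [h1]; exact Ideal.zero_mem _)
    have hzM : algebraMap O M z ≠ 0 := fun h1 => hz0 (inj (by rw [h1, map_zero]))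
    obtain ⟨m, hm1, hm2, hm3⟩ := V.alg_val h hz0
    have hm4 : m ≤ l + 1 := by
      by_contra hcon
      exact hπ₂ (Ideal.pow_le_pow_right (by omega) hm2)
    have h1 : j z ∈ 𝔓' ^ (e + l') := by
      rw [hz, map_sub, ← hjT]
      exact t_pow (t := ((T' g : O' ≃ₐ[k] O') : O' →+* O')) hl' e (j π₁) (hej π₁ hπ₁)
    have h2 := V'.le h' (hj0 z hz0) h1
    rw [← com, hev _ hzM, hm1] at h2
    have h3 : e + l' ≤ e * m := by exact_mod_cast h2
    have h4 : e * m ≤ e * (l + 1) := Nat.mul_le_mul_left e hm4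
    have h5 : l' ≤ e * l := by
      have h6 : e * (l + 1) = e * l + e := by ring
      omega
    calc r * l' ≤ r * (e * l) := Nat.mul_le_mul_left r h5
      _ = e * (r * l) := by ring

end two

end Pool.Agent.T9h3.LN
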