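import Pool.Agent.T9h3.LN.Spec5
import Pool.Agent.T9h3.LN.All

/-!
# Project LN: torsors whose local class has order prime to `r`
-/

set_option autoImplicit false
set_option linter.unusedSectionVars false
set_option linter.unusedVariables false
set_option linter.overlappingInstances false

namespace Pool.Agent.T9h3.LN

open Pool.Agent.T9h3 Pool.Agent.T9h3.P Pool.Agent.T9h3.Q Pool.Agent.T9h3.R Pool.Agent.T9h3.H
open Pool.Agent.H918R2.Quad

section d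

variable {k O' M' G' L : Type} [CommRing k] [IsDomain k] [CommRing O'] [IsDomain O']
  [IsDedekindDomain O'] [Field M'] [Group G'] [Finite G'] [Algebra k O'] [Algebra O' M']
  [Algebra k M'] [IsScalarTower k O' M'] [IsFractionRing O' M']
  {ρ' : G' →* (M' ≃ₐ[k] M')} {T' : G' →* (O' ≃ₐ[k] O')} [MulSemiringAction G' M']
  [AddCommGroup L] [DistribMulAction G' L]

lemma sum_shift {c : G' → L →+ Additive M'ˣ} {w : G'} {r : ℕ} (hwr : w ^ r = 1) (x : L) (n : ℕ) :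
    ∑ i ∈ Finset.range r, c (w ^ n * w ^ i) x = ∑ i ∈ Finset.range r, c (w ^ i) x := by
  induction n with
  | zero => simp
  | succ n ih =>
    rw [← ih]
    have h2 := Finset.sum_range_succ' (fun i => c (w ^ n * w ^ i) x) r
    have h3 := Finset.sum_range_succ (fun i => c (w ^ n * w ^ i) x) r
    rw [hwr, mul_one] at h3
    rw [h3, pow_zero, mul_one] at h2
    have h4 := add_right_cancel h2
    rw [h4]
    refine Finset.sum_congr rfl fun i _ => ?_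
    rw [pow_succ w n, pow_succ' w i, mul_assoc]

/-- **The local solution for classes of order prime to `r`.** -/
theorem partD (hloc : S_LocD) (hG' : GN k O' M' G' ρ' T')
    (hρ' : ∀ (g : G') (x : M'), g • x = ρ' g x) {𝔓' : Ideal O'} (h' : 𝔓'.IsMaximal)
    (h0' : 𝔓' ≠ ⊥) {r d : ℕ} (hr : r.Prime) (hr𝔓' : (r : O') ∈ 𝔓') (hd : Nat.Coprime d r)
    (hd0 : d ≠ 0) {v' : M' → ℤ} (V' : VV 𝔓' v')
    {c : G' → L →+ Additive M'ˣ} (hc : ∀ g h x, c (g * h) x = c g x + uAct g (c h (g⁻¹ • x)))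
    {n : ℕ} {a₁ : L →+ Additive M'ˣ} (hdv : ∀ x, (d : ℤ) ∣ V'.hom (a₁ x))
    (h1 : ∀ g x, SU M' 𝔓' n ((d • c g x - (uAct g (a₁ (g⁻¹ • x)) - a₁ x)).toMul : M'ˣ)) :
    ∃ a' : L →+ Additive M'ˣ,
      (∀ g, mvI (Tr T') g 𝔓' = 𝔓' → ∀ x,
        SU M' 𝔓' 0 ((c g x - (uAct g (a' (g⁻¹ • x)) - a' x)).toMul : M'ˣ)) ∧
      ∀ g, g ≠ 1 → (∀ o, T' g o - o ∈ 𝔓') → g ^ r = 1 → ∀ x,
        SU M' 𝔓' n ((c g x - (uAct g (a' (g⁻¹ • x)) - a' x)).toMul : M'ˣ) := by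
  have inj' : Function.Injective (algebraMap O' M') := IsFractionRing.injective O' M'
  have hcom' : ∀ g o, algebraMap O' M' (Tr T' g o) = g • algebraMap O' M' o := by
    intro g o
    rw [hρ']
    exact (hG'.com g o).symm
  have hIW : ∀ g : G', g ≠ 1 → (∀ o, T' g o - o ∈ 𝔓') → g ^ r = 1 → IW T' 𝔓' g := by
    intro g hg1 hg hgr
    obtain ⟨l, h1, h2, h3, h4⟩ := ram1E t_RAM1 hG' hr hgr hg1 h' h0' hg
    have hl : l ≠ 0 := fun h => h4 h hr𝔓'
    exact ⟨hg1, hg, fun o _ => Ideal.pow_le_pow_right (by omega) (h1 o)⟩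
  obtain ⟨ν, hν, hνw⟩ := exists_nu hG' hρ' h' h0' hr hr𝔓' V'
  obtain ⟨A2, hA2⟩ : ∃ A2 : L →+ Additive M'ˣ, ∀ w : G', w ≠ 1 → (∀ o, T' w o - o ∈ 𝔓') →
      w ^ r = 1 → ∀ x, r • c w x = uAct w (A2 (w⁻¹ • x)) - A2 x := by
    by_cases hex : ∃ w : G', w ≠ 1 ∧ (∀ o, T' w o - o ∈ 𝔓') ∧ w ^ r = 1
    · obtain ⟨w, hw1, hw, hwr⟩ := hex
      obtain ⟨-, hcyc⟩ := hG'.cyc h' (hIW w hw1 hw hwr)
      refine ⟨-∑ i ∈ Finset.range r, c (w ^ i), ?_⟩
      intro g hg1 hg hgr x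
      obtain ⟨m, hm⟩ := hcyc g (hIW g hg1 hg hgr)
      have h2 := sum_shift (c := c) hwr x m
      rw [← hm] at h2
      have h3 : ∑ i ∈ Finset.range r, c (g * w ^ i) x =
          r • c g x + uAct g (∑ i ∈ Finset.range r, c (w ^ i) (g⁻¹ • x)) := by
        rw [Finset.sum_congr rfl fun i _ => hc g (w ^ i) x, Finset.sum_add_distrib,
          Finset.sum_const, Finset.card_range, map_sum]
      rw [h3] at h2
      rw [AddMonoidHom.neg_apply, AddMonoidHom.neg_apply, AddMonoidHom.finset_sum_apply,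
        AddMonoidHom.finset_sum_apply, map_neg, ← h2]
      abel
    · exact ⟨0, fun w h1 h2 h3 => absurd ⟨w, h1, h2, h3⟩ hex⟩
  let i2 : DistribMulAction (Dg T' 𝔓') (Additive M'ˣ) := uInst (Dg T' 𝔓') M'
  have hact2 : ∀ (g : Dg T' 𝔓') (x : Additive M'ˣ), g • x = uAct (g : G') x := fun g x => rfl
  have hact3 : ∀ (g : Dg T' 𝔓') (x : L), g⁻¹ • x = (g : G')⁻¹ • x := fun g x => rfl
  obtain ⟨S', hS'⟩ : ∃ S', S' = SUg M' inj' 𝔓' h'.isPrime n := ⟨_, rfl⟩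
  obtain ⟨a', ha1, ha2⟩ := hloc (Additive M'ˣ) L (Dg T' 𝔓') r d hr hd hd0
    {w | (w : G') ≠ 1 ∧ (∀ o, T' (w : G') o - o ∈ 𝔓') ∧ (w : G') ^ r = 1} S' V'.hom (by
      intro g x
      rw [hact2]
      exact V'.act h' (Tr T' (g : G')) (MulSemiringAction.toRingHom G' M' (g : G'))
        (fun o => (hcom' g o).symm) g.2 (Units.ne_zero _)) (by
      intro x hx
      rw [hS'] at hx
      exact (V'.unit _ (Units.ne_zero _)).2 (SU_mono (Nat.zero_le _) hx)) ν hν (by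
      rintro w ⟨hw1, hw, hwr⟩
      exact hνw _ hw1 hw hwr) (fun g => c (g : G')) a₁ A2 hdv (by
      intro g x
      rw [hS']
      exact h1 (g : G') x) (by
      rintro w ⟨hw1, hw, hwr⟩ x
      exact hA2 _ hw1 hw hwr x)
  refine ⟨a', ?_, ?_⟩
  · intro g hg x
    exact (V'.unit _ (Units.ne_zero _)).1 (ha1 ⟨g, hg⟩ x)
  · intro g hg1 hg hgr x
    have h1 := ha2 ⟨g, ine_Dg hg⟩ ⟨hg1, hg, hgr⟩ x
    rw [hS'] at h1
    exact h1

end d

end Pool.Agent.T9h3.LN
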