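import Mathlib

/-!
# Project LN: torsors with good reduction at wildly ramified places are nearly trivial

`S_*` are the pieces.
-/

set_option autoImplicit false

namespace Pool.Agent.T9h3.LN

/-- (A1) The splitting of a lattice over the ring of the `r`-th roots of unity: `L` is a finite free
`ℤ`-module with an automorphism `τ` with `1 + τ + ... + τ ^ (r - 1) = 0`, so a torsion free module over
the Dedekind domain `ℤ[ζ]`, hence projective, and so `ℤ[ζ] ⊗ L → L` has a section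
`x ↦ ∑ ζ ^ i ⊗ s i x`, `i < r - 1`, `s (r - 1) = 0`, `δ = - s (r - 2)`. -/
def S_Split : Prop :=
  ∀ (L : Type) [AddCommGroup L] [Module.Free ℤ L] [Module.Finite ℤ L] (r : ℕ) (_ : r.Prime)
    (τ : L ≃+ L), (∀ x, ∑ i ∈ Finset.range r, (τ^[i]) x = 0) →
    ∃ (s : ℕ → L →+ L) (δ : L →+ L), (∀ i x, s (i + 1) (τ x) = s i x + δ x) ∧
      (∀ i, s (i + r) = s i) ∧ ∀ x, ∑ i ∈ Finset.range r, (τ^[i]) (s i x) = x

/-- (A2) The lemma on the first cohomology for a lattice with `1 + τ + ... + τ ^ (r - 1) = 0`. -/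
def S_Lat0 : Prop :=
  ∀ (A L : Type) [AddCommGroup A] [AddCommGroup L] [Module.Free ℤ L] [Module.Finite ℤ L] (r : ℕ)
    (_ : r.Prime) (σ : A ≃+ A) (τ : L ≃+ L), (∀ a, (σ^[r]) a = a) →
    (∀ x, ∑ i ∈ Finset.range r, (τ^[i]) x = 0) →
    ∀ U : AddSubgroup A,
    (∀ a, σ a = a → ∃ b, ∃ u ∈ U, a = ∑ i ∈ Finset.range r, (σ^[i]) b + u) →
    ∀ c : L →+ A, (∀ x, ∑ i ∈ Finset.range r, (σ^[i]) (c ((τ.symm^[i]) x)) = 0) →
    ∃ b : L →+ A, ∀ x, c x - (σ (b (τ.symm x)) - b x) ∈ U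

/-- (A3) The lemma on the first cohomology for all lattices. -/
def S_Lat : Prop :=
  ∀ (A L : Type) [AddCommGroup A] [AddCommGroup L] [Module.Free ℤ L] [Module.Finite ℤ L] (r : ℕ)
    (_ : r.Prime) (σ : A ≃+ A) (τ : L ≃+ L), (∀ a, (σ^[r]) a = a) → (∀ x, (τ^[r]) x = x) →
    (∀ a, ∑ i ∈ Finset.range r, (σ^[i]) a = 0 → ∃ b, a = σ b - b) →
    ∀ U : AddSubgroup A,
    (∀ a, σ a = a → ∃ b, ∃ u ∈ U, a = ∑ i ∈ Finset.range r, (σ^[i]) b + u) →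
    ∀ c : L →+ A, (∀ x, ∑ i ∈ Finset.range r, (σ^[i]) (c ((τ.symm^[i]) x)) = 0) →
    ∃ b : L →+ A, ∀ x, c x - (σ (b (τ.symm x)) - b x) ∈ U

/-- (B) From the normal subgroup `W` of order `r` to `D`, if the index is prime to `r`. -/
def S_Tr : Prop :=
  ∀ (A L D : Type) [AddCommGroup A] [AddCommGroup L] [Group D] [Finite D]
    [DistribMulAction D A] [DistribMulAction D L] (r : ℕ) (W : Subgroup D) [W.Normal],
    Nat.card W = r → Nat.Coprime W.index r →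
    ∀ (U S : AddSubgroup A), (∀ g : D, ∀ u ∈ U, g • u ∈ U) → (∀ g : D, ∀ u ∈ S, g • u ∈ S) →
    ∀ c : D → L →+ A, (∀ g h x, c (g * h) x = c g x + g • c h (g⁻¹ • x)) →
    (∀ g x, c g x ∈ U) → ∀ a : L →+ A,
    (∀ w ∈ W, ∀ x, c w x - (w • a (w⁻¹ • x) - a x) ∈ S) → S ≤ U →
    ∃ a' : L →+ A, (∀ g x, c g x - (g • a' (g⁻¹ • x) - a' x) ∈ U) ∧
      ∀ w ∈ W, ∀ x, c w x - (w • a' (w⁻¹ • x) - a' x) ∈ S

/-- `x` is congruent to `1` modulo the `n`-th power of the maximal ideal of the local ring at `𝔔`. -/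
def SU {O : Type} (M : Type) [CommRing O] [Field M] [Algebra O M] (𝔔 : Ideal O) (n : ℕ) (x : M) :
    Prop :=
  ∃ s t : O, s ∉ 𝔔 ∧ t ∉ 𝔔 ∧ s - t ∈ 𝔔 ^ n ∧ x * algebraMap O M t = algebraMap O M s

/-- (C) Weak approximation. -/
def S_Appr : Prop :=
  ∀ (O M : Type) [CommRing O] [IsDomain O] [IsDedekindDomain O] [Field M] [Algebra O M]
    [IsFractionRing O M] (S : Finset (Ideal O)), (∀ 𝔔 ∈ S, 𝔔.IsMaximal ∧ 𝔔 ≠ ⊥) → ∀ (n : ℕ)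
    (y : Ideal O → M), (∀ 𝔔 ∈ S, y 𝔔 ≠ 0) → ∃ z : M, z ≠ 0 ∧ ∀ 𝔔 ∈ S, SU M 𝔔 n (z / y 𝔔)

/-- (N) Norms from a wildly ramified extension of prime degree. -/
def S_Norm : Prop :=
  ∀ (O M : Type) [CommRing O] [IsDomain O] [IsDedekindDomain O] [Field M] [Algebra O M]
    [IsFractionRing O M] (𝔓 : Ideal O), 𝔓.IsMaximal → 𝔓 ≠ ⊥ → Finite (O ⧸ 𝔓) →
    ∀ (r : ℕ), r.Prime → (r : O) ∈ 𝔓 → ∀ (τ : M ≃+* M) (t : O ≃+* O),
    (∀ o, τ (algebraMap O M o) = algebraMap O M (t o)) → (∀ x, (τ^[r]) x = x) → τ ≠ 1 →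
    ∀ l : ℕ, (∀ o, t o - o ∈ 𝔓 ^ (l + 1)) → ∀ a : M, a ≠ 0 → τ a = a →
    ∃ b : M, b ≠ 0 ∧ ∃ u : M, SU M 𝔓 (r * l) u ∧
      a = (∏ i ∈ Finset.range r, (τ^[i]) b) * u

end Pool.Agent.T9h3.LN
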