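import Pool.Agent.T9h3.LN.Spec

/-!
# Project LN, second part: all the torsors, if `r ^ 2` does not divide the decomposition group

`S_*` are the pieces.
-/

set_option autoImplicit false
set_option linter.overlappingInstances false

namespace Pool.Agent.T9h3.LN

open scoped TensorProduct

/-- (B2) The elements from the first cohomology of the normal subgroup `W`. (`A1` is the sum of
`a_s x = s a(s⁻¹ x) - c s x` over coset representatives `s`, one has `c_w = (w - 1) a_s` modulo `S` and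
`a_{sw} = a_s` modulo `S`, `g A1(g⁻¹ x) = ∑ a_{gs} x + m c g x`; `A2 = - ∑_{h ∈ W} c h`; with
`d g = r c g - (g - 1) A2`, which vanishes on `W`, `A3 = - ∑ d s`.) -/
def S_Tr2 : Prop :=
  ∀ (A L D : Type) [AddCommGroup A] [AddCommGroup L] [Group D] [Finite D]
    [DistribMulAction D A] [DistribMulAction D L] (r : ℕ) (W : Subgroup D) [W.Normal],
    Nat.card W = r → ∀ (S : AddSubgroup A), (∀ g : D, ∀ u ∈ S, g • u ∈ S) →
    ∀ c : D → L →+ A, (∀ g h x, c (g * h) x = c g x + g • c h (g⁻¹ • x)) →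
    ∀ a : L →+ A, (∀ w ∈ W, ∀ x, c w x - (w • a (w⁻¹ • x) - a x) ∈ S) →
    ∃ A1 A2 A3 : L →+ A,
      (∀ g x, W.index • c g x - (g • A1 (g⁻¹ • x) - A1 x) ∈ S) ∧
      (∀ w ∈ W, ∀ x, r • c w x = w • A2 (w⁻¹ • x) - A2 x) ∧
      ∀ g x, W.index • (r • c g x - (g • A2 (g⁻¹ • x) - A2 x)) = g • A3 (g⁻¹ • x) - A3 x

/-- (V) The valuation of a maximal ideal of a Dedekind domain. -/
def S_Val : Prop :=
  ∀ (O M : Type) [CommRing O] [IsDomain O] [IsDedekindDomain O] [Field M] [Algebra O M]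
    [IsFractionRing O M] (𝔔 : Ideal O), 𝔔.IsMaximal → 𝔔 ≠ ⊥ → ∃ v : M → ℤ,
      (∀ x y, x ≠ 0 → y ≠ 0 → v (x * y) = v x + v y) ∧
      (∀ (x : O) (n : ℕ), x ∈ 𝔔 ^ n → x ∉ 𝔔 ^ (n + 1) → v (algebraMap O M x) = n) ∧
      (∀ x, x ≠ 0 → (v x = 0 ↔ SU M 𝔔 0 x)) ∧
      (∀ (x : M) (n : ℕ), SU M 𝔔 n (1 + x) → x = 0 ∨ (n : ℤ) ≤ v x) ∧
      ∀ (x : M) (n : ℕ), 1 ≤ n → x = 0 ∨ (n : ℤ) ≤ v x → SU M 𝔔 n (1 + x)

/-- The action of the group on `Mˣ`, written additively. -/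
noncomputable def uAct {G M : Type} [Group G] [Field M] [MulSemiringAction G M] (g : G) :
    Additive Mˣ →+ Additive Mˣ :=
  MonoidHom.toAdditive (Units.map (MulSemiringAction.toRingHom G M g : M →* M))

lemma uAct_val {G M : Type} [Group G] [Field M] [MulSemiringAction G M] (g : G)
    (a : Additive Mˣ) : (((uAct g a).toMul : Mˣ) : M) = g • ((a.toMul : Mˣ) : M) := rfl

lemma uAct_one {G M : Type} [Group G] [Field M] [MulSemiringAction G M] (a : Additive Mˣ) :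
    uAct (1 : G) a = a := by
  apply Additive.toMul.injective
  apply Units.ext
  rw [uAct_val, one_smul]

lemma uAct_mul {G M : Type} [Group G] [Field M] [MulSemiringAction G M] (g h : G)
    (a : Additive Mˣ) : uAct (g * h) a = uAct g (uAct h a) := by
  apply Additive.toMul.injective
  apply Units.ext
  rw [uAct_val, uAct_val, uAct_val, mul_smul]

/-- The action as an instance. -/
@[reducible] noncomputable def uInst (G M : Type) [Group G] [Field M] [MulSemiringAction G M] :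
    DistribMulAction G (Additive Mˣ) where
  smul g a := uAct g a
  one_smul := uAct_one
  mul_smul := uAct_mul
  smul_zero g := map_zero (uAct g)
  smul_add g := map_add (uAct g)

/-- The image of the ideal under the automorphism `T g`. -/
def mvI {O G : Type} [CommRing O] (T : G → (O ≃+* O)) (g : G) (𝔔 : Ideal O) : Ideal O :=
  𝔔.comap ((T g).symm : O →+* O)

/-- (G) From one prime to all the conjugate primes. (For `𝔔 = s 𝔓₀` put `a_s x = s a₀(s⁻¹ x) - c s x`;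
choose one `s` for each `𝔔`, and `a` on a basis of `L` by weak approximation with `a = a_s` modulo
`SU 𝔔 n`; one has `g a_s g⁻¹ = a_{gs} + c g`, and `a_{sd} = a_s - s (c d - (d - 1) a₀) s⁻¹`.) -/
def S_Glo : Prop :=
  ∀ (O M L G : Type) [CommRing O] [IsDomain O] [IsDedekindDomain O] [Field M] [Algebra O M]
    [IsFractionRing O M] [Group G] [Finite G] [MulSemiringAction G M] [AddCommGroup L]
    [Module.Free ℤ L] [Module.Finite ℤ L] [DistribMulAction G L] (T : G → (O ≃+* O)),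
    (∀ g o, algebraMap O M (T g o) = g • algebraMap O M o) →
    {𝔔 : Ideal O | 𝔔.IsMaximal}.Finite → (∀ 𝔔 : Ideal O, 𝔔.IsMaximal → 𝔔 ≠ ⊥) →
    ∀ 𝔓₀ : Ideal O, 𝔓₀.IsMaximal →
    (∀ 𝔔 : Ideal O, 𝔔.IsMaximal → ∃ g, mvI T g 𝔓₀ = 𝔔) →
    ∀ (n : ℕ) (Wd : Ideal O → G → Prop), (∀ 𝔔 g, Wd 𝔔 g → mvI T g 𝔔 = 𝔔) →
    (∀ 𝔔 s g, Wd 𝔔 g → Wd (mvI T s 𝔔) (s * g * s⁻¹)) →
    ∀ c : G → L →+ Additive Mˣ, (∀ g h x, c (g * h) x = c g x + uAct g (c h (g⁻¹ • x))) →
    ∀ a₀ : L →+ Additive Mˣ,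
    (∀ g, mvI T g 𝔓₀ = 𝔓₀ → ∀ x,
      SU M 𝔓₀ 0 ((c g x - (uAct g (a₀ (g⁻¹ • x)) - a₀ x)).toMul : Mˣ)) →
    (∀ g, Wd 𝔓₀ g → ∀ x, SU M 𝔓₀ n ((c g x - (uAct g (a₀ (g⁻¹ • x)) - a₀ x)).toMul : Mˣ)) →
    ∃ a : L →+ Additive Mˣ,
      (∀ g x, ∃ u : O,
        algebraMap O M u = ((c g x - (uAct g (a (g⁻¹ • x)) - a x)).toMul : Mˣ)) ∧
      ∀ 𝔔 g, 𝔔.IsMaximal → Wd 𝔔 g → ∀ x, ∃ e ∈ 𝔔 ^ n,
        algebraMap O M (1 + e) = ((c g x - (uAct g (a (g⁻¹ • x)) - a x)).toMul : Mˣ)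

/-- The inertia group. -/
def Ing {E M : Type} [Field E] [Field M] [Algebra E M] {V : ValuationSubring E}
    (𝔓 : Ideal (integralClosure V M)) : Set (M ≃ₐ[E] M) :=
  {g | ∀ o : integralClosure V M, ∃ e ∈ 𝔓, (e : M) = g o - o}

/-- (T) A tamely ramified extension of large ramification: the splitting field over `M` of `X ^ m - π`,
`π` a uniformizer of `V`. (Let `h` be of order `r` in the inertia group and trivial on `M`. It fixes the
`m`-th roots of unity, as they are different modulo `𝔓'`. If `ϖ ^ m = π` then `h ϖ = ζ ϖ`, so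
`ζ ^ r = 1 = ζ ^ m`, `ζ = 1`.) -/
def S_Tame : Prop :=
  ∀ (E M : Type) [Field E] [Field M] [Algebra E M] [FiniteDimensional E M] [IsGalois E M]
    (V : ValuationSubring E) (π : E) (r m : ℕ), π ≠ 0 → r.Prime → 1 ≤ m → Nat.Coprime m r →
    (r : E)⁻¹ ∉ V ∨ (r : E) = 0 →
    ∃ (M' : Type) (_ : Field M') (_ : Algebra E M') (_ : Algebra M M') (_ : IsScalarTower E M M')
      (_ : FiniteDimensional E M') (_ : IsGalois E M') (ϖ : M'), ϖ ^ m = algebraMap E M' π ∧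
      ∀ (𝔓 : Ideal (integralClosure V M')), 𝔓.IsMaximal → (r : integralClosure V M') ∈ 𝔓 →
      ∀ h : M' ≃ₐ[E] M', h ∈ Ing 𝔓 → (∀ x : M, h (algebraMap M M' x) = algebraMap M M' x) →
      h ^ r = 1 → h = 1

/-- (C2) Base change of the function field `K` of a split torus over `M` to `M'`:
`K' = Frac M'[L]`. -/
def S_Base : Prop :=
  ∀ (E M M' F K L : Type) [Field E] [Field M] [Field M'] [Field F] [Field K] [Algebra E M]
    [FiniteDimensional E M] [IsGalois E M] [Algebra E M'] [FiniteDimensional E M']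
    [IsGalois E M'] [Algebra M M'] [IsScalarTower E M M'] [Algebra M K] [Algebra E K]
    [IsScalarTower E M K] [Algebra E F] [Algebra F K] [IsScalarTower E F K] [AddCommGroup L]
    [Module.Free ℤ L] [Module.Finite ℤ L] [DistribMulAction (M ≃ₐ[E] M) L]
    (ρ : (M ≃ₐ[E] M) →* (K ≃ₐ[E] K)) (χ : L → K),
    (∀ g x, ρ g (algebraMap M K x) = algebraMap M K (g x)) →
    (∀ y, (∀ g, ρ g y = y) ↔ ∃ z : F, algebraMap F K z = y) →
    χ 0 = 1 → (∀ x y, χ (x + y) = χ x * χ y) → LinearIndependent M χ →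
    IntermediateField.adjoin M (Set.range χ) = ⊤ →
    (∀ g x, ∃ c : M, ρ g (χ x) = algebraMap M K c * χ (g • x)) →
    ∃ (K' : Type) (_ : Field K') (_ : Algebra M' K') (i : K →+* K')
      (ρ' : (M' ≃ₐ[E] M') →* (K' ≃+* K')),
      (∀ x : M, i (algebraMap M K x) = algebraMap M' K' (algebraMap M M' x)) ∧
      (∀ g x, ρ' g (algebraMap M' K' x) = algebraMap M' K' (g x)) ∧
      (∀ g y, ρ' g (i y) = i (ρ (AlgEquiv.restrictNormalHom M g) y)) ∧
      (∀ y', (∀ g, ρ' g y' = y') → ∃ z : F, i (algebraMap F K z) = y') ∧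
      LinearIndependent M' (fun x => i (χ x)) ∧
      IntermediateField.adjoin M' (Set.range fun x => i (χ x)) = ⊤

end Pool.Agent.T9h3.LN
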