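import Pool.Agent.T9h3.LN.Spec2

/-!
# Project LN, third part
-/

set_option autoImplicit false
set_option linter.overlappingInstances false

namespace Pool.Agent.T9h3.LN

/-- (H) Hilbert's theorem 90 for an automorphism of prime order. -/
def S_H90 : Prop :=
  ∀ (M : Type) [Field M] (σ : M ≃+* M) (r : ℕ), r.Prime → (∀ x, (σ^[r]) x = x) → σ ≠ 1 →
    ∀ a : M, ∏ i ∈ Finset.range r, (σ^[i]) a = 1 → ∃ b : M, b ≠ 0 ∧ a * b = σ b

/-- (L) The local lemma. (With `A1`, `A2`, `A3` from `S_Tr2`, `m` the index of `W`,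
`α m + β r ^ 2 = 1`, `n x = v' (ι (A3 x)) / m` and `b x = n x • ν` put
`a' = α ι A1 + β (r ι A2 + b)`.) -/
def S_Loc : Prop :=
  ∀ (A A' L D D' : Type) [AddCommGroup A] [AddCommGroup A'] [AddCommGroup L] [Group D] [Finite D]
    [Group D'] [DistribMulAction D A] [DistribMulAction D' A'] [DistribMulAction D L]
    [DistribMulAction D' L] (res : D' →* D), (∀ (g : D') (x : L), g • x = res g • x) →
    ∀ ι : A →+ A', (∀ (g : D') (x : A), g • ι x = ι (res g • x)) →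
    ∀ (r : ℕ) (W : Subgroup D) [W.Normal], r.Prime → Nat.card W = r → Nat.Coprime W.index r →
    ∀ W' : Set D', (∀ w ∈ W', res w ∈ W) →
    ∀ S : AddSubgroup A, (∀ g : D, ∀ u ∈ S, g • u ∈ S) → ∀ S' : AddSubgroup A',
    (∀ x ∈ S, ι x ∈ S') → ∀ v' : A' →+ ℤ, (∀ (g : D') (x : A'), v' (g • x) = v' x) →
    (∀ x ∈ S', v' x = 0) → ∀ ν : A', v' ν = r → (∀ w ∈ W', w • ν = ν) →
    (∀ x : A, (W.index : ℤ) ∣ v' (ι x)) →
    ∀ c : D → L →+ A, (∀ g h x, c (g * h) x = c g x + g • c h (g⁻¹ • x)) →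
    ∀ a : L →+ A, (∀ w ∈ W, ∀ x, c w x - (w • a (w⁻¹ • x) - a x) ∈ S) →
    ∃ a' : L →+ A',
      (∀ (g : D') x, v' (ι (c (res g) x) - (g • a' (g⁻¹ • x) - a' x)) = 0) ∧
      ∀ w ∈ W', ∀ x, ι (c (res w) x) - (w • a' (w⁻¹ • x) - a' x) ∈ S'

end Pool.Agent.T9h3.LN
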