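import Pool.Agent.T9h3.LN.Tam
import Pool.Agent.T9h3.R.Torw

/-!
# Project LN, fourth part: the assembly
-/

set_option autoImplicit false
set_option linter.unusedSectionVars false
set_option linter.unusedVariables false
set_option linter.overlappingInstances false

namespace Pool.Agent.T9h3.LN

open Pool.Agent.T9h3 Pool.Agent.T9h3.P Pool.Agent.T9h3.Q Pool.Agent.T9h3.R Pool.Agent.T9h3.H
open Pool.Agent.H918R2.Quad

/-- (X1) `Nm (d * p) s x = d • Nm p s x` if `s ^ p = 1`. -/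
def S_Svr : Prop :=
  ∀ (Λ : Type) [AddCommGroup Λ] [Module.Free ℤ Λ] (p d : ℕ) (s : Module.End ℤ Λ)
    (Θ Δ : Set Λ) (v : Λ), 1 ≤ d → s ^ p = 1 → SVR p s Θ Δ v → SVR (d * p) s Θ Δ v

/-- (X2) Application of `S_Glo` (with `T := Tr (Tk V O' E M')`, `Wd 𝔔 g` : `𝔔.IsMaximal`, `g ≠ 1`,
`∀ o, T' g o - o ∈ 𝔔`, `g ^ r = 1`; lemmas `ine_Dg`, `ine_conj`, `mvI_pow`, `mvI_mul`, `mvI_T`,
`mvI_max` in `LN/Dec.lean`, `prime_eq` in `LN/Tam.lean`; `Tk_iff`, `Tk_coe`). -/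
def S_Glo2 : Prop :=
  ∀ (E M' L : Type) [Field E] [Field M'] [Algebra E M'] [FiniteDimensional E M'] [IsGalois E M']
    (V : ValuationSubring E) [IsDedekindDomain V] [IsDedekindDomain (integralClosure V M')]
    [AddCommGroup L] [Module.Free ℤ L] [Module.Finite ℤ L] [DistribMulAction (M' ≃ₐ[E] M') L],
    {𝔔 : Ideal (integralClosure V M') | 𝔔.IsMaximal}.Finite →
    (∀ 𝔔 : Ideal (integralClosure V M'), 𝔔.IsMaximal → 𝔔 ≠ ⊥) →
    ∀ (r : ℕ), r.Prime → ∀ 𝔓' : Ideal (integralClosure V M'), 𝔓'.IsMaximal →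
    (r : integralClosure V M') ∈ 𝔓' →
    (∀ 𝔔 : Ideal (integralClosure V M'), 𝔔.IsMaximal →
      ∃ g, mvI (Tr (Tk V (integralClosure V M') E M')) g 𝔓' = 𝔔) →
    ∀ (n : ℕ) (c : (M' ≃ₐ[E] M') → L →+ Additive M'ˣ),
    (∀ g h x, c (g * h) x = c g x + uAct g (c h (g⁻¹ • x))) → ∀ a₀ : L →+ Additive M'ˣ,
    (∀ g, mvI (Tr (Tk V (integralClosure V M') E M')) g 𝔓' = 𝔓' → ∀ x,
      SU M' 𝔓' 0 ((c g x - (uAct g (a₀ (g⁻¹ • x)) - a₀ x)).toMul : M'ˣ)) →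
    (∀ g, g ≠ 1 → (∀ o, Tk V (integralClosure V M') E M' g o - o ∈ 𝔓') → g ^ r = 1 → ∀ x,
      SU M' 𝔓' n ((c g x - (uAct g (a₀ (g⁻¹ • x)) - a₀ x)).toMul : M'ˣ)) →
    (∀ g, g ≠ 1 → (∀ o, Tk V (integralClosure V M') E M' g o - o ∈ 𝔓') → g ^ r = 1 → ∀ l' : ℕ,
      (∀ o, Tk V (integralClosure V M') E M' g o - o ∈ 𝔓' ^ (l' + 1)) → r * l' ≤ n) →
    ∃ a : L →+ Additive M'ˣ,
      (∀ g x, ∃ u : integralClosure V M',
        (u : M') = ((c g x - (uAct g (a (g⁻¹ • x)) - a x)).toMul : M'ˣ)) ∧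
      ∀ (𝔔 : Ideal (integralClosure V M')) (p : ℕ) (g : M' ≃ₐ[E] M'), WLD E M' 𝔔 p g → ∀ l : ℕ,
      (∀ o : integralClosure V M', ∃ e ∈ 𝔔 ^ (l + 1), algebraMap (integralClosure V M') M' e =
        g (algebraMap _ M' o) - algebraMap _ M' o) → ∀ x, ∃ e ∈ 𝔔 ^ (p * l),
        algebraMap (integralClosure V M') M' (1 + e) =
          ((c g x - (uAct g (a (g⁻¹ • x)) - a x)).toMul : M'ˣ)

/-- (X3) The local data for `K` from the local data over `M'`: use `S_Base` to construct `K'`, then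
`CHL E M' K'` with the lattice `D₀.Λ`, the action `DistribMulAction.compHom` with
`AlgEquiv.restrictNormalHom M` and the characters `a x * i (D₀.χ x)`; `PRW` as in `prw_of`
(`R/Torw.lean`), then `gvk_prw` as in `LOC_ofW` (`R/Gun.lean`). In `LOC` take `D := D₀` and `Θ` from
`exists_DFN Fin.elim0`. -/
def S_Loc3 : Prop :=
  ∀ (k E M M' F K : Type) [CommRing k] [IsDomain k] [IsDedekindDomain k] [Field E] [Field M]
    [Field M'] [Field F] [Field K] [Algebra E F] [Algebra k E] [Algebra k F] [IsScalarTower k E F]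
    [IsFractionRing k E] [Algebra E M] [FiniteDimensional E M] [IsGalois E M] [Algebra E M']
    [FiniteDimensional E M'] [IsGalois E M'] [Algebra M M'] [IsScalarTower E M M'] [Algebra M K]
    [Algebra E K] [IsScalarTower E M K] [Algebra F K] [IsScalarTower E F K]
    (V : ValuationSubring E) (𝔭 : Ideal k), VP k V 𝔭 → Finite (k ⧸ 𝔭) →
    ∀ (ρ : (M ≃ₐ[E] M) →* (K ≃ₐ[E] K)), (∀ g x, ρ g (algebraMap M K x) = algebraMap M K (g x)) →
    (∀ y, (∀ g, ρ g y = y) ↔ ∃ z : F, algebraMap F K z = y) →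
    ∀ (D₀ : CHL E M K), LinearIndependent M D₀.χ →
    IntermediateField.adjoin M (Set.range D₀.χ) = ⊤ →
    ∀ γ : (M ≃ₐ[E] M) → D₀.Λ → M, CST ρ D₀.χ γ → HIN E M' (integralClosure V M') →
    ∀ a : D₀.Λ → M', a 0 = 1 → (∀ x y, a (x + y) = a x * a y) →
    (∀ (g : M' ≃ₐ[E] M') x, ∃ u : integralClosure V M',
      g (a x) * algebraMap M M' (γ (AlgEquiv.restrictNormalHom M g) x) =
        u * a (AlgEquiv.restrictNormalHom M g • x)) →
    (∀ (𝔓 : Ideal (integralClosure V M')) (p : ℕ) (g : M' ≃ₐ[E] M'), WLD E M' 𝔓 p g → ∀ l : ℕ,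
      (∀ o : integralClosure V M', ∃ e ∈ 𝔓 ^ (l + 1), algebraMap (integralClosure V M') M' e =
        g (algebraMap _ M' o) - algebraMap _ M' o) → ∀ x, ∃ e ∈ 𝔓 ^ (p * l),
      g (a x) * algebraMap M M' (γ (AlgEquiv.restrictNormalHom M g) x) =
        algebraMap (integralClosure V M') M' (1 + e) * a (AlgEquiv.restrictNormalHom M g • x)) →
    LOC F ρ 𝔭 D₀

end Pool.Agent.T9h3.LN
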