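import Pool.Agent.T9h3.LN.Spec2

/-!
# Project LN, fifth part: torsors of order prime to `r`
-/

set_option autoImplicit false
set_option linter.overlappingInstances false

namespace Pool.Agent.T9h3.LN

/-- (D) The local lemma for classes of order prime to `r`. (With `α d + β r ^ 2 = 1` in `ℤ`,
`n x = v' (a₁ x) / d` and `m x = r n x - v' (A2 x)` put
`a' = α a₁ + β (r A2 + z)`, `z x = m x • ν`. One has `v' (g a₁(g⁻¹ x) - a₁ x) = d v' (c g x)`, so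
`n (g⁻¹ x) - n x = v' (c g x)`, and for `w` in `W'` it follows `m (w⁻¹ x) = m x`.) -/
def S_LocD : Prop :=
  ∀ (A' L D' : Type) [AddCommGroup A'] [AddCommGroup L] [Group D'] [DistribMulAction D' A']
    [DistribMulAction D' L] (r d : ℕ), r.Prime → Nat.Coprime d r → d ≠ 0 →
    ∀ (W' : Set D') (S' : AddSubgroup A') (v' : A' →+ ℤ),
    (∀ (g : D') (x : A'), v' (g • x) = v' x) → (∀ x ∈ S', v' x = 0) →
    ∀ ν : A', v' ν = r → (∀ w ∈ W', w • ν = ν) →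
    ∀ c : D' → L →+ A', ∀ a₁ A2 : L →+ A', (∀ x, (d : ℤ) ∣ v' (a₁ x)) →
    (∀ g x, d • c g x - (g • a₁ (g⁻¹ • x) - a₁ x) ∈ S') →
    (∀ w ∈ W', ∀ x, r • c w x = w • A2 (w⁻¹ • x) - A2 x) →
    ∃ a' : L →+ A',
      (∀ (g : D') x, v' (c g x - (g • a' (g⁻¹ • x) - a' x)) = 0) ∧
      ∀ w ∈ W', ∀ x, c w x - (w • a' (w⁻¹ • x) - a' x) ∈ S'

end Pool.Agent.T9h3.LN
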