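import Pool.Agent.T9h3.LN.Spec4

/-!
# Project LN: the local part of the assembly
-/

set_option autoImplicit false
set_option linter.unusedSectionVars false
set_option linter.unusedVariables false
set_option linter.overlappingInstances false

namespace Pool.Agent.T9h3.LN

open Pool.Agent.T9h3 Pool.Agent.T9h3.P Pool.Agent.T9h3.Q Pool.Agent.T9h3.R Pool.Agent.T9h3.H
open Pool.Agent.H918R2.Quad

section one

variable {E M : Type} [Field E] [Field M] [Algebra E M] [FiniteDimensional E M] [IsGalois E M]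
  {V : ValuationSubring E}

lemma comap_max {𝔔 : Ideal (integralClosure V M)} (h : 𝔔.IsMaximal) :
    𝔔.comap (algebraMap V (integralClosure V M)) = IsLocalRing.maximalIdeal V :=
  IsLocalRing.eq_maximalIdeal (Ideal.isMaximal_comap_of_isIntegral_of_isMaximal 𝔔)

lemma mem_of_mem {𝔔 𝔓 : Ideal (integralClosure V M)} (h : 𝔔.IsMaximal) (h' : 𝔓.IsMaximal) {x : V}
    (hx : algebraMap V (integralClosure V M) x ∈ 𝔔) : algebraMap V (integralClosure V M) x ∈ 𝔓 := by
  have h1 : x ∈ 𝔔.comap (algebraMap V (integralClosure V M)) := hx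
  rw [comap_max h, ← comap_max h'] at h1
  exact h1

/-- The base. -/
lemma gnV {k : Type} [CommRing k] [IsDomain k] [IsDedekindDomain k] [Algebra k E]
    [IsFractionRing k E] {𝔭 : Ideal k} (hV : VP k V 𝔭) (hfin : Finite (k ⧸ 𝔭))
    (hin : HIN E M (integralClosure V M)) [IsDedekindDomain V]
    [IsDedekindDomain (integralClosure V M)] :
    GN V (integralClosure V M) M (M ≃ₐ[E] M) (Rk V (MonoidHom.id (M ≃ₐ[E] M)))
      (Tk V (integralClosure V M) E M) := by
  refine gn_of' V (integralClosure V M) E M (MonoidHom.id (M ≃ₐ[E] M)) (fun g x => rfl)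
    (fun 𝔓 h𝔓 _ => hV.res hfin 𝔓 h𝔓) ?_
  intro 𝔓 h𝔓 _ p hp hp𝔓
  rw [Ine_card]
  exact hin 𝔓 h𝔓 p hp hp𝔓

/-- A nonzero element of the maximal ideal. -/
lemma exists_el {k : Type} [CommRing k] [IsDomain k] [IsDedekindDomain k] [Algebra k E]
    [IsFractionRing k E] {𝔭 : Ideal k} (h : VP k V 𝔭) :
    ∃ x : V, x ≠ 0 ∧ x ∈ IsLocalRing.maximalIdeal V := by
  obtain ⟨x, hx𝔭, hx0⟩ := Submodule.exists_mem_ne_zero_of_ne_bot h.ne
  have hxE : algebraMap k E x ≠ 0 := fun h' => hx0 (IsFractionRing.injective k E (by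
    rw [h', map_zero]))
  refine ⟨⟨algebraMap k E x, h.le x⟩, fun h1 => hxE (congrArg Subtype.val h1), ?_⟩
  rw [IsLocalRing.mem_maximalIdeal, mem_nonunits_iff]
  intro hu
  obtain ⟨y, hy⟩ := hu.exists_right_inv
  have h3 : algebraMap k E x * (y : E) = 1 := congrArg Subtype.val hy
  have h4 : (algebraMap k E x)⁻¹ = (y : E) := inv_eq_of_mul_eq_one_right h3
  rcases (h.iff x).1 hx𝔭 with h5 | h5
  · exact hxE h5
  · exact h5 (by rw [h4]; exact y.2)

lemma alg_ne {x : V} (hx : x ≠ 0) : algebraMap V (integralClosure V M) x ≠ 0 := by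
  intro h1
  have h2 : algebraMap E M (x : E) = 0 := congrArg Subtype.val h1
  rw [map_eq_zero] at h2
  exact hx (Subtype.ext h2)

lemma max_ne {k : Type} [CommRing k] [IsDomain k] [IsDedekindDomain k] [Algebra k E]
    [IsFractionRing k E] {𝔭 : Ideal k} (h : VP k V 𝔭) {𝔔 : Ideal (integralClosure V M)}
    (h𝔔 : 𝔔.IsMaximal) : 𝔔 ≠ ⊥ := by
  obtain ⟨x, hx, hx1⟩ := exists_el h
  intro h1
  rw [← comap_max (M := M) h𝔔, Ideal.mem_comap, h1, Ideal.mem_bot] at hx1
  exact alg_ne hx hx1

/-- Transitivity. -/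
lemma trV {k : Type} [CommRing k] [IsDomain k] [IsDedekindDomain k] [Algebra k E]
    [IsFractionRing k E] {𝔭 : Ideal k} (hV : VP k V 𝔭) (hfin : Finite (k ⧸ 𝔭))
    (hin : HIN E M (integralClosure V M)) [IsDedekindDomain V]
    [IsDedekindDomain (integralClosure V M)] {𝔓 𝔔 : Ideal (integralClosure V M)}
    (h : 𝔓.IsMaximal) (h' : 𝔔.IsMaximal) :
    ∃ g, mvI (Tr (Tk V (integralClosure V M) E M)) g 𝔓 = 𝔔 := by
  obtain ⟨g, hg⟩ := transE (gnV hV hfin hin) h h' ((comap_max h).trans (comap_max h').symm)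
  refine ⟨g, ?_⟩
  rw [hg]
  ext x
  rw [mem_mvI, Pool.Agent.Y290.G.mem_mv]

end one

section two

variable {E M M' : Type} [Field E] [Field M] [Field M'] [Algebra E M] [FiniteDimensional E M]
  [IsGalois E M] [Algebra E M'] [FiniteDimensional E M'] [IsGalois E M'] [Algebra M M']
  [IsScalarTower E M M'] {V : ValuationSubring E}

lemma jO_int : (jO V M M').IsIntegral := by
  intro x
  have h1 : IsIntegral V (x : M') := x.2
  have h2 : IsIntegral V x := by
    rw [← isIntegral_algHom_iff (integralClosure V M').val Subtype.val_injective]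
    exact h1
  obtain ⟨P, hP, hx⟩ := h2
  refine ⟨P.map (algebraMap V (integralClosure V M)), hP.map _, ?_⟩
  rw [Polynomial.eval₂_map]
  have h3 : (jO V M M').comp (algebraMap V (integralClosure V M)) =
      algebraMap V (integralClosure V M') := by
    ext v
    change algebraMap M M' (algebraMap E M (v : E)) = algebraMap E M' (v : E)
    rw [← IsScalarTower.algebraMap_apply]
  rw [h3]
  exact hx

lemma jO_inj : Function.Injective (jO V M M') := by
  intro x y h
  have h1 : algebraMap M M' (x : M) = algebraMap M M' (y : M) := congrArg Subtype.val h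
  exact Subtype.ext ((algebraMap M M').injective h1)

lemma jO_comap_max {𝔓' : Ideal (integralClosure V M')} (h : 𝔓'.IsMaximal) :
    (𝔓'.comap (jO V M M')).IsMaximal :=
  Ideal.isMaximal_comap_of_isIntegral_of_isMaximal' _ jO_int 𝔓'

lemma jO_over {𝔓 : Ideal (integralClosure V M)} (h : 𝔓.IsMaximal) :
    ∃ 𝔓' : Ideal (integralClosure V M'), 𝔓'.IsMaximal ∧ 𝔓'.comap (jO V M M') = 𝔓 := by
  let _ := (jO V M M').toAlgebra
  have h1 : Algebra.IsIntegral (integralClosure V M) (integralClosure V M') := ⟨jO_int⟩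
  obtain ⟨Q, hQ, hQ1⟩ := Ideal.exists_ideal_over_maximal_of_isIntegral 𝔓 (by
    have h2 : RingHom.ker (algebraMap (integralClosure V M) (integralClosure V M')) = ⊥ :=
      (RingHom.injective_iff_ker_eq_bot _).1 jO_inj
    rw [h2]
    exact bot_le)
  exact ⟨Q, hQ, hQ1⟩

end two

end Pool.Agent.T9h3.LN
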