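import Pool.Agent.T9h3.LN.StepA

/-!
# Project LN: the local part of the assembly
-/

set_option autoImplicit false
set_option linter.unusedSectionVars false
set_option linter.unusedVariables false
set_option linter.overlappingInstances false

namespace Pool.Agent.T9h3.LN

open Pool.Agent.T9h3 Pool.Agent.T9h3.P Pool.Agent.T9h3.Q Pool.Agent.T9h3.R Pool.Agent.T9h3.H
open Pool.Agent.H918R2.Quad

/-- **The solution over the tamely ramified extension.** -/
theorem stepA (hlat : S_Lat) (h90 : S_H90) (hloc : S_Loc) (hval : S_Val) (htame : S_Tame)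
    (hglo : S_Glo2) {k E M : Type} [CommRing k] [IsDomain k] [IsDedekindDomain k] [Field E]
    [Algebra k E] [IsFractionRing k E] [Field M] [Algebra E M] [FiniteDimensional E M]
    [IsGalois E M] {V : ValuationSubring E} {𝔭 : Ideal k} (hV : VP k V 𝔭)
    (hfin : Finite (k ⧸ 𝔭)) (hin : HIN E M (integralClosure V M))
    {L : Type} [AddCommGroup L] [Module.Free ℤ L] [Module.Finite ℤ L]
    [DistribMulAction (M ≃ₐ[E] M) L] [IsDedekindDomain V]
    [IsDedekindDomain (integralClosure V M)]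
    {𝔓 : Ideal (integralClosure V M)} {r : ℕ} {w₀ : M ≃ₐ[E] M} (hw : WLD E M 𝔓 r w₀)
    (hD : ¬ r ^ 2 ∣ Nat.card (Dg (Tk V (integralClosure V M) E M) 𝔓))
    {c : (M ≃ₐ[E] M) → L →+ Additive Mˣ}
    (hc : ∀ g h x, c (g * h) x = c g x + uAct g (c h (g⁻¹ • x))) :
    ∃ (M' : Type) (_ : Field M') (_ : Algebra E M') (_ : Algebra M M') (_ : IsScalarTower E M M')
      (_ : FiniteDimensional E M') (_ : IsGalois E M'), HIN E M' (integralClosure V M') ∧
      ∃ a : L →+ Additive M'ˣ,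
      (∀ (g : M' ≃ₐ[E] M') x, ∃ u : integralClosure V M', (u : M') =
        ((κu (algebraMap M M') (c (AlgEquiv.restrictNormalHom M g) x) -
          (uAct g (a ((AlgEquiv.restrictNormalHom M g)⁻¹ • x)) - a x)).toMul : M'ˣ)) ∧
      ∀ (𝔔 : Ideal (integralClosure V M')) (p : ℕ) (g : M' ≃ₐ[E] M'), WLD E M' 𝔔 p g → ∀ l : ℕ,
      (∀ o : integralClosure V M', ∃ e ∈ 𝔔 ^ (l + 1), algebraMap (integralClosure V M') M' e =
        g (algebraMap _ M' o) - algebraMap _ M' o) → ∀ x, ∃ e ∈ 𝔔 ^ (p * l),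
        algebraMap (integralClosure V M') M' (1 + e) =
          ((κu (algebraMap M M') (c (AlgEquiv.restrictNormalHom M g) x) -
          (uAct g (a ((AlgEquiv.restrictNormalHom M g)⁻¹ • x)) - a x)).toMul : M'ˣ) := by
  classical
  obtain ⟨h𝔓, hr, hr𝔓, hw0, how⟩ := hw
  have hfG : Finite (M ≃ₐ[E] M) := inferInstance
  have i3 : IsFractionRing (integralClosure V M) M :=
    IsIntegralClosure.isFractionRing_of_finite_extension V E M _
  have hG := gnV hV hfin hin
  have h0 := max_ne hV h𝔓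
  have hδ : ∀ o, Tk V (integralClosure V M) E M w₀ o - o ∈ 𝔓 := (Tk_iff 𝔓 w₀).2 hw0
  obtain ⟨W, hWn, l, a, hcard, hcop, hl, hwild, ha⟩ := part1 hlat h90 hG (fun g x => rfl) h𝔓 h0 hr
    hr𝔓 how hδ hD hc
  obtain ⟨x, hx0, hx⟩ := exists_el hV
  have hxO := alg_ne (M := M) hx0
  obtain ⟨e, he1, he2⟩ := exists_val h𝔓 hxO
  have he0 : e ≠ 0 := by
    rintro rfl
    apply he2
    rw [zero_add, pow_one]
    have h1 : x ∈ 𝔓.comap (algebraMap V (integralClosure V M)) := by
      rw [comap_max h𝔓]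
      exact hx
    exact h1
  obtain ⟨s, N, hN, heN⟩ := Nat.exists_eq_pow_mul_and_not_dvd he0 r hr.ne_one
  have hN0 : N ≠ 0 := by
    rintro rfl
    exact hN (dvd_zero _)
  have hW0 : W.index ≠ 0 := Subgroup.index_ne_zero_of_finite
  have hmr : Nat.Coprime (W.index * N) r :=
    Nat.Coprime.mul_left hcop ((Nat.Prime.coprime_iff_not_dvd hr).2 hN).symm
  have hrV : (r : E)⁻¹ ∉ V ∨ (r : E) = 0 := by
    by_cases h : (r : E) = 0
    · exact Or.inr h
    · left
      intro h1
      apply h𝔓.ne_top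
      rw [Ideal.eq_top_iff_one]
      have h2 : (1 : integralClosure V M) = algebraMap V _ ⟨(r : E)⁻¹, h1⟩ * r := by
        apply Subtype.ext
        change (1 : M) = algebraMap E M (r : E)⁻¹ * (r : M)
        rw [← map_natCast (algebraMap E M) r, ← map_mul, inv_mul_cancel₀ h, map_one]
      rw [h2]
      exact 𝔓.mul_mem_left _ hr𝔓
  obtain ⟨M', _, _, _, _, _, _, ϖ, hϖ, hNK⟩ := htame E M V (x : E) r (W.index * N)
    (fun h => hx0 (Subtype.ext h)) hr (Nat.one_le_iff_ne_zero.2 (mul_ne_zero hW0 hN0)) hmr hrV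
  have hrall : ∀ 𝔔 : Ideal (integralClosure V M'), 𝔔.IsMaximal →
      (r : integralClosure V M') ∈ 𝔔 := by
    intro 𝔔 h𝔔
    have h1 : algebraMap V (integralClosure V M) (r : V) ∈ 𝔓 := by
      rw [map_natCast]
      exact hr𝔓
    have h2 : (r : V) ∈ IsLocalRing.maximalIdeal V := by
      rw [← comap_max h𝔓]
      exact h1
    rw [← comap_max (M := M') h𝔔, Ideal.mem_comap, map_natCast] at h2
    exact h2
  have hin' : HIN E M' (integralClosure V M') :=
    HIN_of (M := M) hin hr (fun 𝔓' h => jO_comap_max h) hrall hNK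
  have i2' := hV.dedO (M := M')
  have i3' : IsFractionRing (integralClosure V M') M' :=
    IsIntegralClosure.isFractionRing_of_finite_extension V E M' _
  have hG' := gnV hV hfin hin'
  obtain ⟨𝔓', h𝔓', hc'⟩ := jO_over (M' := M') h𝔓
  have hfG' : Finite (M' ≃ₐ[E] M') := inferInstance
  rw [heN] at he1 he2
  obtain ⟨a', n, p1, p2, p3⟩ := part2 hloc hval hG hG' (fun _ _ => rfl) (fun _ _ => rfl)
    (AlgEquiv.restrictNormalHom M) (jO V M M') (algebraMap M M') (fun o => rfl)
    (fun g x => (res_apply g x).symm) h𝔓 h0 h𝔓' (max_ne hV h𝔓') hc' hr hr𝔓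
    (fun g hg h1 h2 => hNK 𝔓' h𝔓' (hrall _ h𝔓') g ((Tk_iff 𝔓' g).1 hg) (res_one_iff g h1) h2)
    hcard hcop hwild hc ha hxO he1 he2 hN0 (ϖ := ϖ) (by
      rw [hϖ, IsScalarTower.algebraMap_apply E M M']
      rfl)
  letI : DistribMulAction (M' ≃ₐ[E] M') L :=
    DistribMulAction.compHom L (AlgEquiv.restrictNormalHom M : (M' ≃ₐ[E] M') →* (M ≃ₐ[E] M))
  have hsm : ∀ (g : M' ≃ₐ[E] M') (x : L), g⁻¹ • x = (AlgEquiv.restrictNormalHom M g)⁻¹ • x := by
    intro g x
    rw [← map_inv]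
    rfl
  have hκ : ∀ (g : M' ≃ₐ[E] M') (y : Additive Mˣ), κu (algebraMap M M')
      (uAct (AlgEquiv.restrictNormalHom M g) y) = uAct g (κu (algebraMap M M') y) := by
    intro g y
    apply Additive.toMul.injective
    apply Units.ext
    rw [κu_val, uAct_val, uAct_val, κu_val]
    exact res_apply g _
  obtain ⟨A, hA1, hA2⟩ := hglo E M' L V (good_of hV).fin (fun 𝔔 h => max_ne hV h) r hr 𝔓' h𝔓'
    (hrall _ h𝔓') (fun 𝔔 h => trV hV hfin hin' h𝔓' h) n
    (fun g => (κu (algebraMap M M')).comp (c (AlgEquiv.restrictNormalHom M g))) (by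
      intro g h x
      change κu (algebraMap M M') (c (AlgEquiv.restrictNormalHom M (g * h)) x) =
        κu (algebraMap M M') (c (AlgEquiv.restrictNormalHom M g) x) +
        uAct g (κu (algebraMap M M') (c (AlgEquiv.restrictNormalHom M h) (g⁻¹ • x)))
      rw [map_mul, hc, map_add, hκ, hsm]) a'
    (by
      intro g hg x
      rw [hsm]
      exact p1 g hg x)
    (by
      intro g hg1 hg hgr x
      rw [hsm]
      exact p2 g hg1 hg hgr x)
    p3
  refine ⟨M', inferInstance, inferInstance, inferInstance, inferInstance, inferInstance,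
    inferInstance, hin', A, ?_, ?_⟩
  · intro g x
    obtain ⟨u, hu⟩ := hA1 g x
    rw [hsm] at hu
    exact ⟨u, hu⟩
  · intro 𝔔 p g hg l' hl' x
    obtain ⟨u, hu, hu1⟩ := hA2 𝔔 p g hg l' hl' x
    rw [hsm] at hu1
    exact ⟨u, hu, hu1⟩

end Pool.Agent.T9h3.LN
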