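import Pool.Agent.T9h3.LN.PartD

/-!
# Project LN: torsors whose local class has order prime to `r`, the assembly
-/

set_option autoImplicit false
set_option linter.unusedSectionVars false
set_option linter.unusedVariables false
set_option linter.overlappingInstances false

namespace Pool.Agent.T9h3.LN

open Pool.Agent.T9h3 Pool.Agent.T9h3.P Pool.Agent.T9h3.Q Pool.Agent.T9h3.R Pool.Agent.T9h3.H
open Pool.Agent.H918R2.Quad

/-- A bound for the ramification. -/
lemma exists_bound {k O' M' G' : Type} [CommRing k] [IsDomain k] [CommRing O'] [IsDomain O']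
    [IsDedekindDomain O'] [Field M'] [Group G'] [Finite G'] [Algebra k O'] [Algebra O' M']
    [Algebra k M'] [IsScalarTower k O' M'] {ρ' : G' →* (M' ≃ₐ[k] M')}
    {T' : G' →* (O' ≃ₐ[k] O')} (hG' : GN k O' M' G' ρ' T') {𝔓' : Ideal O'} (h' : 𝔓'.IsMaximal)
    (r : ℕ) : ∃ n : ℕ, ∀ g : G', g ≠ 1 → ∀ l' : ℕ,
      (∀ o, T' g o - o ∈ 𝔓' ^ (l' + 1)) → r * l' ≤ n := by
  classical
  have hfG : Fintype G' := Fintype.ofFinite G'
  have h1 : ∀ g : G', ∃ m : ℕ, g ≠ 1 → ∀ l' : ℕ, (∀ o, T' g o - o ∈ 𝔓' ^ (l' + 1)) → l' ≤ m := by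
    intro g
    by_cases hg : g = 1
    · exact ⟨0, fun h => absurd hg h⟩
    · obtain ⟨o, ho⟩ : ∃ o, T' g o ≠ o := by
        by_contra hcon
        push Not at hcon
        exact hg (hG'.fai g hcon)
      obtain ⟨m, -, hm⟩ := exists_val h' (sub_ne_zero.2 ho)
      refine ⟨m, fun _ l' hl' => ?_⟩
      by_contra hcon
      exact hm (Ideal.pow_le_pow_right (by omega) (hl' o))
  choose m hm using h1
  refine ⟨r * ∑ g, m g, fun g hg l' hl' => Nat.mul_le_mul_left r ((hm g hg l' hl').trans ?_)⟩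
  exact Finset.single_le_sum (fun i _ => Nat.zero_le (m i)) (Finset.mem_univ g)

/-- **The solution over the tamely ramified extension.** -/
theorem stepD (hlocD : S_LocD) (hval : S_Val) (htame : S_Tame)
    (hglo : S_Glo2) {k E M : Type} [CommRing k] [IsDomain k] [IsDedekindDomain k] [Field E]
    [Algebra k E] [IsFractionRing k E] [Field M] [Algebra E M] [FiniteDimensional E M]
    [IsGalois E M] {V : ValuationSubring E} {𝔭 : Ideal k} (hV : VP k V 𝔭)
    (hfin : Finite (k ⧸ 𝔭)) (hin : HIN E M (integralClosure V M))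
    {L : Type} [AddCommGroup L] [Module.Free ℤ L] [Module.Finite ℤ L]
    [DistribMulAction (M ≃ₐ[E] M) L] [IsDedekindDomain V]
    [IsDedekindDomain (integralClosure V M)]
    {𝔓 : Ideal (integralClosure V M)} {r : ℕ} {w₀ : M ≃ₐ[E] M} (hw : WLD E M 𝔓 r w₀)
    {d : ℕ} (hd : Nat.Coprime d r)
    {c : (M ≃ₐ[E] M) → L →+ Additive Mˣ}
    (hc : ∀ g h x, c (g * h) x = c g x + uAct g (c h (g⁻¹ • x)))
    (htr : ∀ t : V, t ≠ 0 → ∃ a₁ : L →+ Additive Mˣ, ∀ g x, ∃ e : integralClosure V M,
      (((d • c g x - (uAct g (a₁ (g⁻¹ • x)) - a₁ x)).toMul : Mˣ) : M) =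
        ((1 + algebraMap V (integralClosure V M) t * e : integralClosure V M) : M)) :
    ∃ (M' : Type) (_ : Field M') (_ : Algebra E M') (_ : Algebra M M') (_ : IsScalarTower E M M')
      (_ : FiniteDimensional E M') (_ : IsGalois E M'), HIN E M' (integralClosure V M') ∧
      ∃ a : L →+ Additive M'ˣ,
      (∀ (g : M' ≃ₐ[E] M') x, ∃ u : integralClosure V M', (u : M') =
        ((κu (algebraMap M M') (c (AlgEquiv.restrictNormalHom M g) x) -
          (uAct g (a ((AlgEquiv.restrictNormalHom M g)⁻¹ • x)) - a x)).toMul : M'ˣ)) ∧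
      ∀ (𝔔 : Ideal (integralClosure V M')) (p : ℕ) (g : M' ≃ₐ[E] M'), WLD E M' 𝔔 p g → ∀ l : ℕ,
      (∀ o : integralClosure V M', ∃ e ∈ 𝔔 ^ (l + 1), algebraMap (integralClosure V M') M' e =
        g (algebraMap _ M' o) - algebraMap _ M' o) → ∀ x, ∃ e ∈ 𝔔 ^ (p * l),
        algebraMap (integralClosure V M') M' (1 + e) =
          ((κu (algebraMap M M') (c (AlgEquiv.restrictNormalHom M g) x) -
          (uAct g (a ((AlgEquiv.restrictNormalHom M g)⁻¹ • x)) - a x)).toMul : M'ˣ) := by
  classical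
  obtain ⟨h𝔓, hr, hr𝔓, hw0, how⟩ := hw
  have hd0 : d ≠ 0 := by
    rintro rfl
    rw [Nat.coprime_zero_left] at hd
    exact hr.ne_one hd
  have hfG : Finite (M ≃ₐ[E] M) := inferInstance
  have i3 : IsFractionRing (integralClosure V M) M :=
    IsIntegralClosure.isFractionRing_of_finite_extension V E M _
  have h0 := max_ne hV h𝔓
  obtain ⟨x, hx0, hx⟩ := exists_el hV
  have hxO := alg_ne (M := M) hx0
  obtain ⟨e, he1, he2⟩ := exists_val h𝔓 hxO
  have he0 : e ≠ 0 := by
    rintro rfl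
    apply he2
    rw [zero_add, pow_one]
    have h1 : x ∈ 𝔓.comap (algebraMap V (integralClosure V M)) := by
      rw [comap_max h𝔓]
      exact hx
    exact h1
  obtain ⟨s, N, hN, heN⟩ := Nat.exists_eq_pow_mul_and_not_dvd he0 r hr.ne_one
  have hN0 : N ≠ 0 := by
    rintro rfl
    exact hN (dvd_zero _)
  have hmr : Nat.Coprime (d * N) r :=
    Nat.Coprime.mul_left hd ((Nat.Prime.coprime_iff_not_dvd hr).2 hN).symm
  have hrV : (r : E)⁻¹ ∉ V ∨ (r : E) = 0 := by
    by_cases h : (r : E) = 0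
    · exact Or.inr h
    · left
      intro h1
      apply h𝔓.ne_top
      rw [Ideal.eq_top_iff_one]
      have h2 : (1 : integralClosure V M) = algebraMap V _ ⟨(r : E)⁻¹, h1⟩ * r := by
        apply Subtype.ext
        change (1 : M) = algebraMap E M (r : E)⁻¹ * (r : M)
        rw [← map_natCast (algebraMap E M) r, ← map_mul, inv_mul_cancel₀ h, map_one]
      rw [h2]
      exact 𝔓.mul_mem_left _ hr𝔓
  obtain ⟨M', _, _, _, _, _, _, ϖ, hϖ, hNK⟩ := htame E M V (x : E) r (d * N)
    (fun h => hx0 (Subtype.ext h)) hr (Nat.one_le_iff_ne_zero.2 (mul_ne_zero hd0 hN0)) hmr hrV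
  have hrall : ∀ 𝔔 : Ideal (integralClosure V M'), 𝔔.IsMaximal →
      (r : integralClosure V M') ∈ 𝔔 := by
    intro 𝔔 h𝔔
    have h1 : algebraMap V (integralClosure V M) (r : V) ∈ 𝔓 := by
      rw [map_natCast]
      exact hr𝔓
    have h2 : (r : V) ∈ IsLocalRing.maximalIdeal V := by
      rw [← comap_max h𝔓]
      exact h1
    rw [← comap_max (M := M') h𝔔, Ideal.mem_comap, map_natCast] at h2
    exact h2
  have hin' : HIN E M' (integralClosure V M') :=
    HIN_of (M := M) hin hr (fun 𝔓' h => jO_comap_max h) hrall hNK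
  have i2' := hV.dedO (M := M')
  have i3' : IsFractionRing (integralClosure V M') M' :=
    IsIntegralClosure.isFractionRing_of_finite_extension V E M' _
  have hG' := gnV hV hfin hin'
  obtain ⟨𝔓', h𝔓', hc'⟩ := jO_over (M' := M') h𝔓
  have hfG' : Finite (M' ≃ₐ[E] M') := inferInstance
  rw [heN] at he1 he2
  have h0' := max_ne hV h𝔓'
  obtain ⟨n, hn1, hn⟩ : ∃ n : ℕ, 1 ≤ n ∧ ∀ g : M' ≃ₐ[E] M', g ≠ 1 → ∀ l' : ℕ,
      (∀ o, Tk V (integralClosure V M') E M' g o - o ∈ 𝔓' ^ (l' + 1)) → r * l' ≤ n := by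
    obtain ⟨n, hn⟩ := exists_bound hG' h𝔓' r
    exact ⟨n + 1, by omega, fun g hg l' hl' => (hn g hg l' hl').trans (Nat.le_succ n)⟩
  obtain ⟨v, Vv⟩ := exists_VV (M := M) hval h𝔓 h0
  obtain ⟨v', V'⟩ := exists_VV (M := M') hval h𝔓' h0'
  letI : DistribMulAction (M' ≃ₐ[E] M') L :=
    DistribMulAction.compHom L (AlgEquiv.restrictNormalHom M : (M' ≃ₐ[E] M') →* (M ≃ₐ[E] M))
  have hsm : ∀ (g : M' ≃ₐ[E] M') (x : L), g⁻¹ • x = (AlgEquiv.restrictNormalHom M g)⁻¹ • x := by
    intro g x
    rw [← map_inv]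
    rfl
  have hκ : ∀ (g : M' ≃ₐ[E] M') (y : Additive Mˣ), κu (algebraMap M M')
      (uAct (AlgEquiv.restrictNormalHom M g) y) = uAct g (κu (algebraMap M M') y) := by
    intro g y
    apply Additive.toMul.injective
    apply Units.ext
    rw [κu_val, uAct_val, uAct_val, κu_val]
    exact res_apply g _
  have hcc : ∀ (g h : M' ≃ₐ[E] M') (x : L),
      ((κu (algebraMap M M')).comp (c (AlgEquiv.restrictNormalHom M (g * h)))) x =
      ((κu (algebraMap M M')).comp (c (AlgEquiv.restrictNormalHom M g))) x +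
        uAct g (((κu (algebraMap M M')).comp (c (AlgEquiv.restrictNormalHom M h)))
          (g⁻¹ • x)) := by
    intro g h x
    change κu (algebraMap M M') (c (AlgEquiv.restrictNormalHom M (g * h)) x) =
      κu (algebraMap M M') (c (AlgEquiv.restrictNormalHom M g) x) +
      uAct g (κu (algebraMap M M') (c (AlgEquiv.restrictNormalHom M h) (g⁻¹ • x)))
    rw [map_mul, hc, map_add, hκ, hsm]
  obtain ⟨a₁, ha₁⟩ := htr (x ^ n) (pow_ne_zero n hx0)
  obtain ⟨a', p1, p2⟩ := partD (c := fun g : M' ≃ₐ[E] M' =>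
    (κu (algebraMap M M')).comp (c (AlgEquiv.restrictNormalHom M g))) hlocD hG'
    (fun _ _ => rfl) h𝔓' h0' hr (hrall _ h𝔓') hd hd0 V' hcc
    (n := n) (a₁ := (κu (algebraMap M M')).comp a₁) (by
      intro y
      change (d : ℤ) ∣ V'.hom (κu (algebraMap M M') (a₁ y))
      rw [V'.hom_apply, κu_val]
      obtain ⟨z, hz⟩ : ∃ z, z = a₁ y := ⟨_, rfl⟩
      rw [← hz]
      have hπM : algebraMap (integralClosure V M) M (algebraMap V (integralClosure V M) x) ≠ 0 :=
        fun h1 => hxO (IsFractionRing.injective (integralClosure V M) M (by rw [h1, map_zero]))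
      have hϖ1 : ϖ ^ (d * N) = algebraMap M M' (algebraMap (integralClosure V M) M
          (algebraMap V (integralClosure V M) x)) := by
        rw [hϖ, IsScalarTower.algebraMap_apply E M M']
        rfl
      have hϖ0 : ϖ ≠ 0 := by
        rintro rfl
        rw [zero_pow (mul_ne_zero hd0 hN0)] at hϖ1
        exact (map_ne_zero (algebraMap M M')).2 hπM hϖ1.symm
      have h1 := ram_eq Vv V' (jO V M M') (algebraMap M M') (fun o => rfl) hc'
        (x := ((z.toMul : Mˣ) : M)) (Units.ne_zero _) hπM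
      rw [Vv.alg _ _ he1 he2, ← hϖ1, V'.pow hϖ0] at h1
      obtain ⟨A, hA⟩ : ∃ A, A = v' (algebraMap M M' ((z.toMul : Mˣ) : M)) := ⟨_, rfl⟩
      rw [← hA] at h1 ⊢
      push_cast at h1
      have h2 : (N : ℤ) ≠ 0 := by exact_mod_cast hN0
      have h3 : (d : ℤ) ∣ (r : ℤ) ^ s * A := by
        refine ⟨v ((z.toMul : Mˣ) : M) * v' ϖ, ?_⟩
        apply mul_left_cancel₀ h2
        linear_combination h1
      refine IsCoprime.dvd_of_dvd_mul_left ?_ h3
      exact (Nat.isCoprime_iff_coprime.2 hd).pow_right) (by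
      intro g y
      obtain ⟨e', he'⟩ := ha₁ (AlgEquiv.restrictNormalHom M g) y
      have h1 : d • ((κu (algebraMap M M')).comp (c (AlgEquiv.restrictNormalHom M g))) y -
          (uAct g (((κu (algebraMap M M')).comp a₁) (g⁻¹ • y)) -
            ((κu (algebraMap M M')).comp a₁) y) =
          κu (algebraMap M M') (d • c (AlgEquiv.restrictNormalHom M g) y -
            (uAct (AlgEquiv.restrictNormalHom M g)
              (a₁ ((AlgEquiv.restrictNormalHom M g)⁻¹ • y)) - a₁ y)) := by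
        rw [map_sub, map_sub, hκ, map_nsmul, hsm]
        rfl
      have h2 : (((κu (algebraMap M M') (d • c (AlgEquiv.restrictNormalHom M g) y -
            (uAct (AlgEquiv.restrictNormalHom M g)
              (a₁ ((AlgEquiv.restrictNormalHom M g)⁻¹ • y)) - a₁ y))).toMul : M'ˣ) : M') =
          algebraMap (integralClosure V M') M'
            (1 + jO V M M' (algebraMap V (integralClosure V M) x) ^ n * jO V M M' e') := by
        rw [κu_val, he', map_pow, ← map_pow (jO V M M'), ← map_mul, ← map_one (jO V M M'),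
          ← map_add]
        rfl
      rw [h1, h2]
      have h3 : jO V M M' (algebraMap V (integralClosure V M) x) ^ n * jO V M M' e' ∈ 𝔓' ^ n := by
        refine Ideal.mul_mem_right _ _ (Ideal.pow_mem_pow ?_ n)
        have h4 : x ∈ 𝔓'.comap (algebraMap V (integralClosure V M')) := by
          rw [comap_max h𝔓']
          exact hx
        have h5 : jO V M M' (algebraMap V (integralClosure V M) x) =
            algebraMap V (integralClosure V M') x := by
          apply Subtype.ext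
          change algebraMap M M' (algebraMap E M (x : E)) = algebraMap E M' (x : E)
          rw [← IsScalarTower.algebraMap_apply]
        rw [h5]
        exact h4
      have h6 : (1 : integralClosure V M') ∉ 𝔓' := fun h =>
        h𝔓'.ne_top ((Ideal.eq_top_iff_one _).2 h)
      refine ⟨1 + jO V M M' (algebraMap V (integralClosure V M) x) ^ n * jO V M M' e', 1,
        fun h7 => h6 ?_, h6, ?_, ?_⟩
      · have h8 := 𝔓'.sub_mem h7 (Ideal.pow_le_self (by omega : n ≠ 0) h3)
        rw [add_sub_cancel_right] at h8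
        exact h8
      · rw [add_sub_cancel_left]
        exact h3
      · rw [map_one, mul_one])
  obtain ⟨A, hA1, hA2⟩ := hglo E M' L V (good_of hV).fin (fun 𝔔 h => max_ne hV h) r hr 𝔓' h𝔓'
    (hrall _ h𝔓') (fun 𝔔 h => trV hV hfin hin' h𝔓' h) n
    (fun g => (κu (algebraMap M M')).comp (c (AlgEquiv.restrictNormalHom M g))) hcc a' p1 p2
    (fun g hg1 _ _ l' hl' => hn g hg1 l' hl')
  refine ⟨M', inferInstance, inferInstance, inferInstance, inferInstance, inferInstance,
    inferInstance, hin', A, ?_, ?_⟩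
  · intro g x
    obtain ⟨u, hu⟩ := hA1 g x
    rw [hsm] at hu
    exact ⟨u, hu⟩
  · intro 𝔔 p g hg l' hl' x
    obtain ⟨u, hu, hu1⟩ := hA2 𝔔 p g hg l' hl' x
    rw [hsm] at hu1
    exact ⟨u, hu, hu1⟩

end Pool.Agent.T9h3.LN
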