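import Pool.Agent.T9h3.LN.Spec3

/-!
# The groups of units which are close to `1`
-/

set_option autoImplicit false
set_option linter.unusedSectionVars false
set_option linter.unusedVariables false
set_option linter.overlappingInstances false

namespace Pool.Agent.T9h3.LN

variable {O M : Type} [CommRing O] [IsDomain O] [Field M] [Algebra O M] {𝔔 : Ideal O} {n : ℕ}

lemma SU_one (h : 𝔔.IsPrime) : SU M 𝔔 n 1 := by
  have h1 : (1 : O) ∉ 𝔔 := fun h' => h.ne_top ((Ideal.eq_top_iff_one _).2 h')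
  exact ⟨1, 1, h1, h1, by rw [sub_self]; exact Ideal.zero_mem _, one_mul _⟩

lemma SU_mul (h : 𝔔.IsPrime) {x y : M} (hx : SU M 𝔔 n x) (hy : SU M 𝔔 n y) :
    SU M 𝔔 n (x * y) := by
  obtain ⟨s, t, hs, ht, hst, h1⟩ := hx
  obtain ⟨s', t', hs', ht', hst', h1'⟩ := hy
  refine ⟨s * s', t * t', fun h' => (h.mem_or_mem h').elim hs hs',
    fun h' => (h.mem_or_mem h').elim ht ht', ?_, ?_⟩
  · have h2 : s * s' - t * t' = s * (s' - t') + (s - t) * t' := by ring
    rw [h2]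
    exact Ideal.add_mem _ (Ideal.mul_mem_left _ _ hst') (Ideal.mul_mem_right _ _ hst)
  · rw [map_mul, map_mul, ← h1, ← h1']
    ring

lemma SU_ne (inj : Function.Injective (algebraMap O M)) {x : M} (hx : SU M 𝔔 n x) : x ≠ 0 := by
  rintro rfl
  obtain ⟨s, t, hs, ht, hst, h1⟩ := hx
  rw [zero_mul] at h1
  have h2 : s = 0 := inj (by rw [map_zero, ← h1])
  exact hs (by rw [h2]; exact 𝔔.zero_mem)

lemma SU_inv (inj : Function.Injective (algebraMap O M)) {x : M} (hx : SU M 𝔔 n x) :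
    SU M 𝔔 n x⁻¹ := by
  have h0 := SU_ne inj hx
  obtain ⟨s, t, hs, ht, hst, h1⟩ := hx
  refine ⟨t, s, ht, hs, ?_, ?_⟩
  · have h2 : t - s = -(s - t) := by ring
    rw [h2]
    exact (Ideal.neg_mem_iff _).2 hst
  · rw [← h1, ← mul_assoc, inv_mul_cancel₀ h0, one_mul]

lemma SU_mono {m : ℕ} (hmn : m ≤ n) {x : M} (hx : SU M 𝔔 n x) : SU M 𝔔 m x := by
  obtain ⟨s, t, hs, ht, hst, h1⟩ := hx
  exact ⟨s, t, hs, ht, Ideal.pow_le_pow_right hmn hst, h1⟩

/-- Transport to another ring. -/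
lemma SU_base {O' M' : Type} [CommRing O'] [Field M'] [Algebra O' M'] (j : O →+* O') (k : M →+* M')
    (com : ∀ o, k (algebraMap O M o) = algebraMap O' M' (j o)) {𝔔' : Ideal O'}
    (h1 : 𝔔'.comap j ≤ 𝔔) {e : ℕ} (h2 : ∀ x ∈ 𝔔, j x ∈ 𝔔' ^ e) {x : M} (hx : SU M 𝔔 n x) :
    SU M' 𝔔' (e * n) (k x) := by
  obtain ⟨s, t, hs, ht, hst, h3⟩ := hx
  refine ⟨j s, j t, fun h => hs (h1 h), fun h => ht (h1 h), ?_, ?_⟩
  · rw [← map_sub, pow_mul]
    have h4 : 𝔔.map j ≤ 𝔔' ^ e := Ideal.map_le_iff_le_comap.2 h2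
    have h5 : j (s - t) ∈ (𝔔 ^ n).map j := Ideal.mem_map_of_mem j hst
    rw [Ideal.map_pow] at h5
    exact Ideal.pow_right_mono h4 n h5
  · rw [← com, ← com, ← h3, map_mul]

/-- Transport by an automorphism. -/
lemma SU_T (t : O ≃+* O) (τ : M →+* M) (com : ∀ o, τ (algebraMap O M o) = algebraMap O M (t o))
    {𝔔' : Ideal O} (h : 𝔔.comap (t.symm : O →+* O) = 𝔔') {x : M} (hx : SU M 𝔔 n x) :
    SU M 𝔔' n (τ x) := by
  have h1 := SU_base (t : O →+* O) τ com (𝔔' := 𝔔') (𝔔 := 𝔔) (n := n) (e := 1) (x := x) (by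
    intro y hy
    rw [Ideal.mem_comap, ← h, Ideal.mem_comap] at hy
    have h2 : (t.symm : O →+* O) ((t : O →+* O) y) = y := t.symm_apply_apply y
    rwa [h2] at hy) (by
    intro y hy
    rw [pow_one, ← h, Ideal.mem_comap]
    have h2 : (t.symm : O →+* O) ((t : O →+* O) y) = y := t.symm_apply_apply y
    rwa [h2]) hx
  rwa [one_mul] at h1

/-- The group of the units close to `1`. -/
def SUg (M : Type) [Field M] [Algebra O M] (inj : Function.Injective (algebraMap O M))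
    (𝔔 : Ideal O) (h : 𝔔.IsPrime) (n : ℕ) : AddSubgroup (Additive Mˣ) where
  carrier := {x | SU M 𝔔 n ((x.toMul : Mˣ) : M)}
  zero_mem' := by
    change SU M 𝔔 n ((1 : Mˣ) : M)
    rw [Units.val_one]
    exact SU_one h
  add_mem' := by
    intro x y hx hy
    change SU M 𝔔 n ((x.toMul * y.toMul : Mˣ) : M)
    rw [Units.val_mul]
    exact SU_mul h hx hy
  neg_mem' := by
    intro x hx
    change SU M 𝔔 n (((x.toMul)⁻¹ : Mˣ) : M)
    rw [Units.val_inv_eq_inv_val]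
    exact SU_inv inj hx

lemma mem_SUg {inj : Function.Injective (algebraMap O M)} {h : 𝔔.IsPrime} {x : Additive Mˣ} :
    x ∈ SUg M inj 𝔔 h n ↔ SU M 𝔔 n ((x.toMul : Mˣ) : M) := Iff.rfl

end Pool.Agent.T9h3.LN
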