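import Pool.Agent.T9h3.LN.Part2

/-!
# The inertia groups of the tamely ramified extension
-/

set_option autoImplicit false
set_option linter.unusedSectionVars false
set_option linter.unusedVariables false
set_option linter.overlappingInstances false

namespace Pool.Agent.T9h3.LN

open Pool.Agent.T9h3.P Pool.Agent.T9h3.Q Pool.Agent.T9h3.R Pool.Agent.T9h3.H

lemma prime_eq {O : Type} [CommRing O] {𝔓 : Ideal O} (h : 𝔓.IsMaximal) {p r : ℕ} (hp : p.Prime)
    (hr : r.Prime) (hp𝔓 : (p : O) ∈ 𝔓) (hr𝔓 : (r : O) ∈ 𝔓) : p = r := by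
  by_contra hne
  have hcop : Nat.Coprime r p := (Nat.coprime_primes hr hp).2 (Ne.symm hne)
  apply h.ne_top
  rw [Ideal.eq_top_iff_one]
  have h3 : ((Nat.gcd r p : ℤ) : O) = (r : O) * ((Nat.gcdA r p : ℤ) : O) +
      (p : O) * ((Nat.gcdB r p : ℤ) : O) := by
    have := congrArg (Int.cast : ℤ → O) (Nat.gcd_eq_gcd_ab r p)
    push_cast at this ⊢
    exact this
  rw [hcop] at h3
  have h4 : (((1 : ℕ) : ℤ) : O) = 1 := by norm_num
  rw [h4] at h3
  rw [h3]
  exact 𝔓.add_mem (𝔓.mul_mem_right _ hr𝔓) (𝔓.mul_mem_right _ hp𝔓)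

section tam

variable {E M M' : Type} [Field E] [Field M] [Field M'] [Algebra E M] [FiniteDimensional E M]
  [IsGalois E M] [Algebra E M'] [FiniteDimensional E M'] [IsGalois E M'] [Algebra M M']
  [IsScalarTower E M M'] {V : ValuationSubring E}

/-- The inclusion of the integral closures. -/
noncomputable def jO (V : ValuationSubring E) (M M' : Type) [Field M] [Field M'] [Algebra E M]
    [Algebra E M'] [Algebra M M'] [IsScalarTower E M M'] :
    integralClosure V M →+* integralClosure V M' where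
  toFun o := ⟨algebraMap M M' o, by
    have i1 : IsScalarTower V M M' := IsScalarTower.of_algebraMap_eq fun x =>
      IsScalarTower.algebraMap_apply E M M' x
    exact IsIntegral.algebraMap (show IsIntegral V (o : M) from o.2)⟩
  map_one' := Subtype.ext (map_one _)
  map_zero' := Subtype.ext (map_zero _)
  map_add' x y := Subtype.ext (map_add _ _ _)
  map_mul' x y := Subtype.ext (map_mul _ _ _)

lemma jO_coe (o : integralClosure V M) : ((jO V M M' o : integralClosure V M') : M') =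
    algebraMap M M' (o : M) := rfl

/-- The restriction to the smaller field. -/
lemma res_apply (g : M' ≃ₐ[E] M') (x : M) :
    algebraMap M M' (AlgEquiv.restrictNormalHom M g x) = g (algebraMap M M' x) :=
  AlgEquiv.restrictNormal_commutes g M x

lemma res_one_iff (g : M' ≃ₐ[E] M') (h : AlgEquiv.restrictNormalHom M g = 1) (x : M) :
    g (algebraMap M M' x) = algebraMap M M' x := by
  rw [← res_apply, h]
  rfl

lemma res_InS {𝔓' : Ideal (integralClosure V M')} {g : M' ≃ₐ[E] M'} (hg : g ∈ InS E M' 𝔓') :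
    AlgEquiv.restrictNormalHom M g ∈ InS E M (𝔓'.comap (jO V M M')) := by
  intro o
  obtain ⟨e, he, h1⟩ := hg (jO V M M' o)
  have hint : IsIntegral V (AlgEquiv.restrictNormalHom M g (o : M)) := by
    have h2 : IsIntegral V (o : M) := o.2
    exact h2.map ((AlgEquiv.restrictNormalHom M g : M ≃ₐ[E] M).toAlgHom.restrictScalars V)
  obtain ⟨e₀, he₀⟩ : ∃ e₀ : integralClosure V M,
      (e₀ : M) = AlgEquiv.restrictNormalHom M g (o : M) - o :=
    ⟨⟨_, hint.sub o.2⟩, rfl⟩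
  refine ⟨e₀, ?_, he₀⟩
  rw [Ideal.mem_comap]
  have h3 : jO V M M' e₀ = e := by
    apply Subtype.ext
    rw [jO_coe, he₀, map_sub, res_apply]
    exact h1.symm
  rw [h3]
  exact he

/-- **The inertia groups over `E`.** -/
theorem HIN_of (hin : HIN E M (integralClosure V M)) {r : ℕ} (hr : r.Prime)
    (hmaxc : ∀ 𝔓' : Ideal (integralClosure V M'), 𝔓'.IsMaximal →
      (𝔓'.comap (jO V M M')).IsMaximal)
    (hrall : ∀ 𝔓' : Ideal (integralClosure V M'), 𝔓'.IsMaximal → (r : integralClosure V M') ∈ 𝔓')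
    (hNK : ∀ 𝔓' : Ideal (integralClosure V M'), 𝔓'.IsMaximal →
      (r : integralClosure V M') ∈ 𝔓' → ∀ h : M' ≃ₐ[E] M', h ∈ Ing 𝔓' →
      (∀ x : M, h (algebraMap M M' x) = algebraMap M M' x) → h ^ r = 1 → h = 1) :
    HIN E M' (integralClosure V M') := by
  classical
  have hfG : Finite (M' ≃ₐ[E] M') := inferInstance
  have hfG' : Finite (M ≃ₐ[E] M) := inferInstance
  intro 𝔓' h𝔓' p hp hp𝔓' hd
  have hpr : p = r := prime_eq h𝔓' hp hr hp𝔓' (hrall 𝔓' h𝔓')
  subst hpr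
  obtain ⟨𝔓, h𝔓⟩ : ∃ 𝔓, 𝔓 = 𝔓'.comap (jO V M M') := ⟨_, rfl⟩
  have h𝔓m : 𝔓.IsMaximal := by rw [h𝔓]; exact hmaxc 𝔓' h𝔓'
  let φ : InG (E := E) (M := M') 𝔓' →* (M ≃ₐ[E] M) :=
    (AlgEquiv.restrictNormalHom M).comp (InG (E := E) (M := M') 𝔓').subtype
  have hcardI : Nat.card (InG (E := E) (M := M') 𝔓') = Nat.card (InS E M' 𝔓') := rfl
  have hcardJ : Nat.card (InG (E := E) (M := M) 𝔓) = Nat.card (InS E M 𝔓) := rfl
  have h1 : Nat.card (InG (E := E) (M := M') 𝔓') = Nat.card φ.ker * Nat.card φ.range := by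
    rw [← Subgroup.card_mul_index φ.ker, Subgroup.index_ker]
  have h2 : ¬ p ∣ Nat.card φ.ker := by
    intro h3
    have : Fact p.Prime := ⟨hp⟩
    obtain ⟨g, hg⟩ := exists_prime_orderOf_dvd_card' p h3
    have h4 : g ^ p = 1 := by rw [← hg]; exact pow_orderOf_eq_one g
    have h5 : ((g : InG (E := E) (M := M') 𝔓') : M' ≃ₐ[E] M') = 1 := by
      refine hNK 𝔓' h𝔓' hp𝔓' _ (g : InG (E := E) (M := M') 𝔓').2 (res_one_iff _ ?_) ?_
      · exact g.2
      · exact congrArg (fun z : φ.ker => ((z : InG (E := E) (M := M') 𝔓') : M' ≃ₐ[E] M')) h4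
    have h6 : g = 1 := Subtype.ext (Subtype.ext h5)
    rw [h6, orderOf_one] at hg
    exact hp.one_lt.ne hg
  have h3 : p ^ 2 ∣ Nat.card φ.range := by
    rw [← hcardI, h1] at hd
    exact (Nat.Coprime.pow_left 2 ((Nat.Prime.coprime_iff_not_dvd hp).2 h2)).dvd_of_dvd_mul_left hd
  have h4 : φ.range ≤ InG (E := E) (M := M) 𝔓 := by
    rintro _ ⟨g, rfl⟩
    have h5 := res_InS (M := M) (g := (g : M' ≃ₐ[E] M')) g.2
    rw [← h𝔓] at h5
    exact h5
  have hp𝔓 : (p : integralClosure V M) ∈ 𝔓 := by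
    rw [h𝔓, Ideal.mem_comap, map_natCast]
    exact hp𝔓'
  exact hin 𝔓 h𝔓m p hp hp𝔓 (hcardJ ▸ (h3.trans (Subgroup.card_dvd_of_le h4)))

end tam

end Pool.Agent.T9h3.LN
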