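import Pool.Agent.T9h3.LN.Dec

/-!
# Valuations
-/

set_option autoImplicit false
set_option linter.unusedSectionVars false
set_option linter.unusedVariables false
set_option linter.overlappingInstances false

namespace Pool.Agent.T9h3.LN

open Pool.Agent.T9h3.P Pool.Agent.T9h3.Q Pool.Agent.T9h3.R Pool.Agent.T9h3.H

/-- The valuation of a prime. -/
structure VV {O M : Type} [CommRing O] [Field M] [Algebra O M] (𝔔 : Ideal O) (v : M → ℤ) :
    Prop where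
  mul : ∀ x y, x ≠ 0 → y ≠ 0 → v (x * y) = v x + v y
  alg : ∀ (x : O) (n : ℕ), x ∈ 𝔔 ^ n → x ∉ 𝔔 ^ (n + 1) → v (algebraMap O M x) = n
  unit : ∀ x, x ≠ 0 → (v x = 0 ↔ SU M 𝔔 0 x)

section val

variable {O M : Type} [CommRing O] [IsDomain O] [IsDedekindDomain O] [Field M] [Algebra O M]
  [IsFractionRing O M] {𝔔 : Ideal O} {v : M → ℤ}

theorem exists_VV (hv : S_Val) (h : 𝔔.IsMaximal) (h0 : 𝔔 ≠ ⊥) : ∃ v : M → ℤ, VV 𝔔 v := by
  obtain ⟨v, h1, h2, h3, -, -⟩ := hv O M 𝔔 h h0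
  exact ⟨v, h1, h2, h3⟩

lemma VV.one (V : VV 𝔔 v) : v 1 = 0 := by
  have h1 := V.mul 1 1 one_ne_zero one_ne_zero
  rw [mul_one] at h1
  omega

lemma VV.inv (V : VV 𝔔 v) {x : M} (hx : x ≠ 0) : v x⁻¹ = - v x := by
  have h1 := V.mul x x⁻¹ hx (inv_ne_zero hx)
  rw [mul_inv_cancel₀ hx, V.one] at h1
  omega

lemma VV.pow (V : VV 𝔔 v) {x : M} (hx : x ≠ 0) (n : ℕ) : v (x ^ n) = n * v x := by
  induction n with
  | zero => rw [pow_zero, V.one]; simp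
  | succ n ih =>
    rw [pow_succ, V.mul _ _ (pow_ne_zero n hx) hx, ih]
    push_cast
    ring

lemma VV.zpow (V : VV 𝔔 v) {x : M} (hx : x ≠ 0) (n : ℤ) : v (x ^ n) = n * v x := by
  obtain ⟨m, rfl | rfl⟩ := n.eq_nat_or_neg
  · rw [zpow_natCast, V.pow hx]
  · rw [zpow_neg, V.inv (zpow_ne_zero _ hx), zpow_natCast, V.pow hx]
    ring

lemma VV.alg_val (V : VV 𝔔 v) (h : 𝔔.IsMaximal) {x : O} (hx : x ≠ 0) :
    ∃ n : ℕ, v (algebraMap O M x) = n ∧ x ∈ 𝔔 ^ n ∧ x ∉ 𝔔 ^ (n + 1) := by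
  obtain ⟨n, h1, h2⟩ := exists_val h hx
  exact ⟨n, V.alg x n h1 h2, h1, h2⟩

lemma VV.le (V : VV 𝔔 v) (h : 𝔔.IsMaximal) {x : O} (hx : x ≠ 0) {m : ℕ} (hm : x ∈ 𝔔 ^ m) :
    (m : ℤ) ≤ v (algebraMap O M x) := by
  obtain ⟨n, h1, h2, h3⟩ := V.alg_val h hx
  rw [h1]
  by_contra hcon
  exact h3 (Ideal.pow_le_pow_right (by omega) hm)

lemma VV.mem (V : VV 𝔔 v) (h : 𝔔.IsMaximal) {x : O} (hx : x ≠ 0) {m : ℕ}
    (hm : (m : ℤ) ≤ v (algebraMap O M x)) : x ∈ 𝔔 ^ m := by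
  obtain ⟨n, h1, h2, h3⟩ := V.alg_val h hx
  rw [h1] at hm
  exact Ideal.pow_le_pow_right (by omega) h2

/-- The valuation is invariant. -/
lemma VV.act (V : VV 𝔔 v) (h : 𝔔.IsMaximal) (t : O ≃+* O) (τ : M →+* M)
    (com : ∀ o, τ (algebraMap O M o) = algebraMap O M (t o))
    (hf : 𝔔.comap (t.symm : O →+* O) = 𝔔) {x : M} (hx : x ≠ 0) : v (τ x) = v x := by
  have inj : Function.Injective (algebraMap O M) := IsFractionRing.injective O M
  have key : ∀ y : O, y ≠ 0 → v (τ (algebraMap O M y)) = v (algebraMap O M y) := by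
    intro y hy
    obtain ⟨n, h1, h2, h3⟩ := V.alg_val h hy
    rw [h1, com]
    have h4 : ∀ m : ℕ, t y ∈ 𝔔 ^ m ↔ y ∈ 𝔔 ^ m := by
      intro m
      have h5 : (𝔔 ^ m).comap (t.symm : O →+* O) = 𝔔 ^ m := by
        have h6 : ∀ I : Ideal O, I.comap (t.symm : O →+* O) = I.map (t : O →+* O) :=
          fun I => Ideal.comap_symm t
        rw [h6, Ideal.map_pow, ← h6, hf]
      constructor
      · intro h7
        rw [← h5, Ideal.mem_comap] at h7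
        have h8 : (t.symm : O →+* O) (t y) = y := t.symm_apply_apply y
        rwa [h8] at h7
      · intro h7
        rw [← h5, Ideal.mem_comap]
        have h8 : (t.symm : O →+* O) (t y) = y := t.symm_apply_apply y
        rwa [h8]
    exact V.alg _ n ((h4 n).2 h2) fun h9 => h3 ((h4 (n + 1)).1 h9)
  obtain ⟨a, b, hb, rfl⟩ := IsFractionRing.div_surjective (A := O) x
  have hb0 : b ≠ 0 := nonZeroDivisors.ne_zero hb
  have ha0 : a ≠ 0 := by
    rintro rfl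
    rw [map_zero, zero_div] at hx
    exact hx rfl
  have h1 : ∀ y : O, y ≠ 0 → algebraMap O M y ≠ 0 := fun y hy h => hy (inj (by rw [h, map_zero]))
  have h2 : ∀ y : O, y ≠ 0 → τ (algebraMap O M y) ≠ 0 := fun y hy => by
    rw [map_ne_zero]
    exact h1 y hy
  rw [div_eq_mul_inv, map_mul, map_inv₀, V.mul _ _ (h2 a ha0) (inv_ne_zero (h2 b hb0)),
    V.mul _ _ (h1 a ha0) (inv_ne_zero (h1 b hb0)), V.inv (h2 b hb0), V.inv (h1 b hb0),
    key a ha0, key b hb0]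

/-- The valuation as a homomorphism. -/
noncomputable def VV.hom (V : VV 𝔔 v) : Additive Mˣ →+ ℤ where
  toFun a := v ((a.toMul : Mˣ) : M)
  map_zero' := V.one
  map_add' a b := V.mul _ _ (Units.ne_zero _) (Units.ne_zero _)

lemma VV.hom_apply (V : VV 𝔔 v) (a : Additive Mˣ) : V.hom a = v ((a.toMul : Mˣ) : M) := rfl

/-- A uniformizer. -/
lemma exists_unif (h : 𝔔.IsMaximal) (h0 : 𝔔 ≠ ⊥) : ∃ x : O, x ∈ 𝔔 ∧ x ∉ 𝔔 ^ 2 := by
  have h1 : ¬ 𝔔 ≤ 𝔔 ^ 2 := by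
    intro hle
    have h2 : 𝔔 ^ 2 < 𝔔 := Ideal.pow_lt_self 𝔔 h0 h.ne_top 2 le_rfl
    exact absurd hle (not_le_of_gt h2)
  obtain ⟨x, h2, h3⟩ := SetLike.not_le_iff_exists.1 h1
  exact ⟨x, h2, h3⟩

end val

section two

variable {O M : Type} [CommRing O] [IsDomain O] [IsDedekindDomain O] [Field M] [Algebra O M]
  [IsFractionRing O M] {𝔓 : Ideal O} {v : M → ℤ}
  {O' M' : Type} [CommRing O'] [IsDomain O'] [IsDedekindDomain O'] [Field M'] [Algebra O' M']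
  [IsFractionRing O' M'] {𝔓' : Ideal O'} {v' : M' → ℤ}

/-- The valuations are proportional. -/
lemma ram_eq (V : VV 𝔓 v) (V' : VV 𝔓' v') (j : O →+* O') (κ : M →+* M')
    (com : ∀ o, κ (algebraMap O M o) = algebraMap O' M' (j o)) (hc : 𝔓'.comap j = 𝔓) {x y : M}
    (hx : x ≠ 0) (hy : y ≠ 0) : v y * v' (κ x) = v x * v' (κ y) := by
  obtain ⟨z, hz⟩ : ∃ z, z = x ^ (v y) * y ^ (- v x) := ⟨_, rfl⟩
  have h1 : x ^ (v y) ≠ 0 := zpow_ne_zero _ hx
  have h2 : y ^ (- v x) ≠ 0 := zpow_ne_zero _ hy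
  have h3 : v z = 0 := by
    rw [hz, V.mul _ _ h1 h2, V.zpow hx, V.zpow hy]
    ring
  have hz0 : z ≠ 0 := by rw [hz]; exact mul_ne_zero h1 h2
  have h4 := (V.unit z hz0).1 h3
  have h5 := SU_base j κ com (𝔔' := 𝔓') hc.le (e := 0) (fun _ _ => by
    rw [pow_zero, Ideal.one_eq_top]; trivial) h4
  rw [mul_zero] at h5
  have hκ : ∀ u : M, u ≠ 0 → κ u ≠ 0 := fun u hu => (map_ne_zero κ).2 hu
  have h6 := (V'.unit (κ z) (hκ z hz0)).2 h5
  rw [hz, map_mul, map_zpow₀, map_zpow₀, V'.mul _ _ (zpow_ne_zero _ (hκ x hx))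
    (zpow_ne_zero _ (hκ y hy)), V'.zpow (hκ x hx), V'.zpow (hκ y hy)] at h6
  linarith

/-- The ramification index. -/
lemma exists_ram (V : VV 𝔓 v) (V' : VV 𝔓' v') (h : 𝔓.IsMaximal) (h0 : 𝔓 ≠ ⊥)
    (h' : 𝔓'.IsMaximal) (j : O →+* O') (κ : M →+* M')
    (com : ∀ o, κ (algebraMap O M o) = algebraMap O' M' (j o)) (hc : 𝔓'.comap j = 𝔓) :
    ∃ e : ℕ, 1 ≤ e ∧ (∀ x : M, x ≠ 0 → v' (κ x) = e * v x) ∧ ∀ x ∈ 𝔓, j x ∈ 𝔓' ^ e := by
  have inj : Function.Injective (algebraMap O M) := IsFractionRing.injective O M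
  have inj' : Function.Injective (algebraMap O' M') := IsFractionRing.injective O' M'
  have hj : ∀ x : O, x ≠ 0 → j x ≠ 0 := by
    intro x hx h1
    have h2 := com x
    rw [h1, map_zero, map_eq_zero] at h2
    exact hx (inj (by rw [h2, map_zero]))
  obtain ⟨ϖ, hϖ, hϖ2⟩ := exists_unif h h0
  have hϖ0 : ϖ ≠ 0 := fun h1 => hϖ2 (by rw [h1]; exact Ideal.zero_mem _)
  have hϖM : algebraMap O M ϖ ≠ 0 := fun h1 => hϖ0 (inj (by rw [h1, map_zero]))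
  have hvϖ : v (algebraMap O M ϖ) = 1 := by
    have h1 := V.alg ϖ 1 (by rw [pow_one]; exact hϖ) hϖ2
    exact_mod_cast h1
  obtain ⟨e, he, he1, he2⟩ := V'.alg_val h' (hj ϖ hϖ0)
  have hjϖ : j ϖ ∈ 𝔓' := by
    rw [← hc] at hϖ
    exact hϖ
  have he3 : 1 ≤ e := by
    by_contra hcon
    have h1 : e = 0 := by omega
    rw [h1, zero_add, pow_one] at he2
    exact he2 hjϖ
  have hall : ∀ x : M, x ≠ 0 → v' (κ x) = e * v x := by
    intro x hx
    have h1 := ram_eq V V' j κ com hc hx hϖM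
    rw [hvϖ, one_mul, com, he] at h1
    rw [h1]
    ring
  refine ⟨e, he3, hall, fun x hx => ?_⟩
  by_cases hx0 : x = 0
  · rw [hx0, map_zero]; exact Ideal.zero_mem _
  · have hxM : algebraMap O M x ≠ 0 := fun h1 => hx0 (inj (by rw [h1, map_zero]))
    have h1 := V.le h hx0 (m := 1) (by rw [pow_one]; exact hx)
    have h2 := hall _ hxM
    rw [com] at h2
    refine V'.mem h' (hj x hx0) ?_
    rw [h2]
    have h3 : (0 : ℤ) ≤ e := Int.natCast_nonneg e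
    push_cast at h1
    nlinarith

end two

end Pool.Agent.T9h3.LN
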